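import Pool.Agent.Run7.h975.CC.FFT

/-!
# Alternating maps in as many variables as the dimension
-/

set_option autoImplicit false
set_option linter.unusedSectionVars false

namespace Run7.h975.CC

open Matrix Finset

section general

variable {V W D : Type} [AddCommGroup V] [Module ℂ V] [AddCommGroup W] [Module ℂ W] [Fintype D]
  [DecidableEq D]

/-- the derivation of an alternating map along a linear map -/
noncomputable def altD (A : V [⋀^D]→ₗ[ℂ] W) (L : V →ₗ[ℂ] V) : V [⋀^D]→ₗ[ℂ] W :=
  { (∑ j, (A : MultilinearMap ℂ (fun _ : D => V) W).compLinearMap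
      (fun i => if i = j then L else LinearMap.id) : MultilinearMap ℂ (fun _ : D => V) W) with
    map_eq_zero_of_eq' := by
      intro v a b hab hne
      have hval : ∀ j, ((A : MultilinearMap ℂ (fun _ : D => V) W).compLinearMap
          (fun i => if i = j then L else LinearMap.id)) v =
          A (Function.update v j (L (v j))) := by
        intro j
        rw [MultilinearMap.compLinearMap_apply]
        change A _ = _
        congr 1
        funext i
        by_cases hi : i = j
        · subst hi
          simp
        · simp [hi]
      change (∑ j, (A : MultilinearMap ℂ (fun _ : D => V) W).compLinearMap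
        (fun i => if i = j then L else LinearMap.id)) v = 0
      rw [_root_.sum_apply]
      simp only [hval]
      rw [← Finset.add_sum_erase univ _ (Finset.mem_univ a),
        ← Finset.add_sum_erase (univ.erase a) _ (Finset.mem_erase.2 ⟨hne.symm, Finset.mem_univ b⟩)]
      rw [Finset.sum_eq_zero (s := (univ.erase a).erase b), add_zero]
      · have hswap : Function.update v b (L (v b)) =
            (Function.update v a (L (v a))) ∘ (Equiv.swap a b) := by
          funext i
          simp only [Function.comp_apply]
          by_cases hia : i = a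
          · subst hia
            rw [Equiv.swap_apply_left, Function.update_of_ne hne, Function.update_of_ne hne.symm,
              hab]
          · by_cases hib : i = b
            · subst hib
              rw [Equiv.swap_apply_right, Function.update_self, Function.update_self, hab]
            · rw [Equiv.swap_apply_of_ne_of_ne hia hib, Function.update_of_ne hib,
                Function.update_of_ne hia]
        rw [hswap, AlternatingMap.map_swap _ _ hne, add_neg_cancel]
      · intro j hj
        rw [Finset.mem_erase, Finset.mem_erase] at hj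
        refine A.map_eq_zero_of_eq _ (i := a) (j := b) ?_ hne
        rw [Function.update_of_ne (Ne.symm hj.2.1), Function.update_of_ne (Ne.symm hj.1), hab] }

lemma altD_apply (A : V [⋀^D]→ₗ[ℂ] W) (L : V →ₗ[ℂ] V) (v : D → V) :
    altD A L v = ∑ j, A (Function.update v j (L (v j))) := by
  change (∑ j, (A : MultilinearMap ℂ (fun _ : D => V) W).compLinearMap
        (fun i => if i = j then L else LinearMap.id)) v = _
  rw [_root_.sum_apply]
  refine Finset.sum_congr rfl fun j _ => ?_
  rw [MultilinearMap.compLinearMap_apply]
  change A _ = _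
  congr 1
  funext i
  by_cases hi : i = j
  · subst hi
    simp
  · simp [hi]

/-- the trace identity for alternating maps -/
theorem alt_trace (b : Module.Basis D ℂ V) (A : V [⋀^D]→ₗ[ℂ] W) (L : V →ₗ[ℂ] V) (v : D → V) :
    ∑ j, A (Function.update v j (L (v j))) = LinearMap.trace ℂ V L • A v := by
  have key : altD A L = LinearMap.trace ℂ V L • A := by
    refine b.ext_alternating fun g hg => ?_
    have hgb : Function.Bijective g := Finite.injective_iff_bijective.1 hg
    rw [altD_apply, AlternatingMap.smul_apply]
    have h1 : ∀ j, A (Function.update (fun i => b (g i)) j (L (b (g j)))) =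
        LinearMap.toMatrix b b L (g j) (g j) • A (fun i => b (g i)) := by
      intro j
      conv_lhs => rw [← b.sum_repr (L (b (g j)))]
      rw [AlternatingMap.map_update_sum]
      rw [Finset.sum_eq_single (g j)]
      · rw [AlternatingMap.map_update_smul, LinearMap.toMatrix_apply]
        congr 2
        funext i
        by_cases hi : i = j
        · subst hi
          simp
        · simp [hi]
      · intro c _ hc
        obtain ⟨l, rfl⟩ := hgb.2 c
        have hlj : l ≠ j := fun h => hc (by rw [h])
        rw [AlternatingMap.map_update_smul]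
        rw [A.map_eq_zero_of_eq _ (i := l) (j := j) _ hlj, smul_zero]
        rw [Function.update_self, Function.update_of_ne hlj]
      · simp
    rw [Finset.sum_congr rfl fun j _ => h1 j, ← Finset.sum_smul,
      LinearMap.trace_eq_matrix_trace ℂ b]
    congr 1
    rw [Matrix.trace]
    exact Fintype.sum_bijective g hgb _ _ fun i => rfl
  rw [← altD_apply, key, AlternatingMap.smul_apply]

end general

variable {k : ℕ}

/-- the standard basis of the matrices, indexed by `Fin (k * k)` -/
noncomputable def bas (k : ℕ) : Module.Basis (Fin (k * k)) ℂ (Mk k) :=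
  (Matrix.stdBasis ℂ (Fin k) (Fin k)).reindex finProdFinEquiv

/-- the pair of indices -/
def pr (k : ℕ) : Fin (k * k) ≃ Fin k × Fin k := finProdFinEquiv.symm

lemma bas_apply (i : Fin (k * k)) : bas k i = Matrix.single (pr k i).1 (pr k i).2 1 := by
  rw [bas, Module.Basis.reindex_apply]
  exact Matrix.stdBasis_eq_single (R := ℂ) _ _

lemma bas_repr (x : Mk k) (i : Fin (k * k)) : (bas k).repr x i = x (pr k i).1 (pr k i).2 := by
  rw [bas, Module.Basis.repr_reindex_apply]
  rfl

lemma trace_mulLeft (w : Mk k) :
    LinearMap.trace ℂ (Mk k) (LinearMap.mulLeft ℂ w) = k * w.trace := by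
  rw [LinearMap.trace_eq_matrix_trace ℂ (bas k), Matrix.trace]
  simp only [Matrix.diag_apply, LinearMap.toMatrix_apply, bas_repr, bas_apply,
    LinearMap.mulLeft_apply]
  rw [(pr k).sum_comp (fun p : Fin k × Fin k => (w * Matrix.single p.1 p.2 (1 : ℂ)) p.1 p.2),
    Fintype.sum_prod_type]
  simp [Matrix.trace, Finset.mul_sum]

/-- the determinant of `k ^ 2` matrices -/
noncomputable def detA (k : ℕ) : Mk k [⋀^Fin (k * k)]→ₗ[ℂ] ℂ :=
  (Matrix.detRowAlternating (R := ℂ) (n := Fin (k * k))).compLinearMap
    { toFun := fun M i => M (pr k i).1 (pr k i).2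
      map_add' := fun _ _ => rfl
      map_smul' := fun _ _ => rfl }

lemma detA_apply (x : Fin (k * k) → Mk k) :
    detA k x = Matrix.det (Matrix.of fun j i => x j (pr k i).1 (pr k i).2) := rfl

lemma detA_bas : detA k (fun i => Matrix.single (pr k i).1 (pr k i).2 1) = 1 := by
  rw [detA_apply]
  have : (Matrix.of fun j i => (Matrix.single (pr k j).1 (pr k j).2 (1 : ℂ)) (pr k i).1 (pr k i).2)
      = (1 : Matrix (Fin (k * k)) (Fin (k * k)) ℂ) := by
    ext j i
    rw [Matrix.of_apply, Matrix.single_apply, Matrix.one_apply]
    by_cases h : j = i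
    · subst h
      simp
    · rw [if_neg h, if_neg]
      rintro ⟨h1, h2⟩
      exact h ((pr k).injective (Prod.ext h1 h2))
  rw [this, Matrix.det_one]

lemma detA_inv {u : Mk k} (hu : u ∈ unitaryGroup (Fin k) ℂ) (x : Fin (k * k) → Mk k) :
    detA k (fun j => u * x j * star u) = detA k x := by
  rw [detA_apply, detA_apply]
  let K : Matrix (Fin (k * k)) (Fin (k * k)) ℂ :=
    (Matrix.kroneckerMap (· * ·) uᵀ (star u)).submatrix (pr k) (pr k)
  have h1 : (Matrix.of fun j i => (u * x j * star u) (pr k i).1 (pr k i).2) =
      (Matrix.of fun j i => x j (pr k i).1 (pr k i).2) * K := by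
    ext j i
    rw [Matrix.mul_apply]
    simp only [Matrix.of_apply, K, Matrix.submatrix_apply, Matrix.kroneckerMap_apply,
      Matrix.transpose_apply]
    rw [(pr k).sum_comp (fun p : Fin k × Fin k => x j p.1 p.2 *
      (u (pr k i).1 p.1 * (star u) p.2 (pr k i).2)), Fintype.sum_prod_type]
    simp only [Matrix.mul_apply, Finset.sum_mul]
    rw [Finset.sum_comm]
    refine Finset.sum_congr rfl fun a _ => Finset.sum_congr rfl fun b _ => ?_
    ring
  rw [h1, Matrix.det_mul, Matrix.det_submatrix_equiv_self]
  have h2 : (Matrix.kroneckerMap (· * ·) uᵀ (star u)).det = 1 := by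
    have h3 := Matrix.det_kronecker uᵀ (star u)
    rw [Fintype.card_fin, ← mul_pow, Matrix.det_transpose, ← Matrix.det_mul,
      Matrix.mem_unitaryGroup_iff.1 hu, Matrix.det_one, one_pow] at h3
    exact h3
  rw [h2, mul_one]

/-- Cramer's rule -/
lemma cramer (φ : Mk k →ₗ[ℂ] ℂ) (v : Mk k) (x : Fin (k * k) → Mk k) :
    ∑ i, φ (x i) * detA k (Function.update x i v) = φ v * detA k x := by
  have h := alt_trace (bas k) (detA k) (φ.smulRight v) x
  rw [LinearMap.trace_smulRight] at h
  simp only [LinearMap.smulRight_apply, AlternatingMap.map_update_smul, smul_eq_mul] at h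
  exact h

/-- the dual basis up to the determinant -/
noncomputable def xi (i : Fin (k * k)) (x : Fin (k * k) → Mk k) : Mk k :=
  fun a b => detA k (Function.update x i (Matrix.single b a 1))

lemma xi_sum (A : Mk k) (x : Fin (k * k) → Mk k) :
    ∑ i, x i * A * xi i x = (detA k x * A.trace) • (1 : Mk k) := by
  ext a b
  rw [Matrix.sum_apply]
  simp only [Matrix.mul_apply (M := x _ * A), xi]
  rw [Finset.sum_comm]
  let φ : Fin k → (Mk k →ₗ[ℂ] ℂ) := fun c =>
    { toFun := fun X => (X * A) a c
      map_add' := fun X Y => by rw [add_mul, Matrix.add_apply]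
      map_smul' := fun r X => by rw [smul_mul_assoc, Matrix.smul_apply]; rfl }
  have h1 : ∀ c, ∑ i, (x i * A) a c * detA k (Function.update x i (Matrix.single b c 1)) =
      (Matrix.single b c (1 : ℂ) * A) a c * detA k x := fun c => cramer (φ c) _ x
  rw [Finset.sum_congr rfl fun c _ => h1 c, ← Finset.sum_mul, Matrix.smul_apply, Matrix.one_apply]
  by_cases hab : a = b
  · subst hab
    simp [Matrix.trace, mul_comm]
  · simp [hab, Matrix.single_mul_apply_of_ne]

lemma xi_trace (i : Fin (k * k)) (x : Fin (k * k) → Mk k) (y : Mk k) :
    (xi i x * y).trace = detA k (Function.update x i y) := by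
  conv_rhs => rw [Matrix.matrix_eq_sum_single y]
  simp only [AlternatingMap.map_update_sum]
  rw [Matrix.trace, Finset.sum_comm]
  refine Finset.sum_congr rfl fun a _ => ?_
  rw [Matrix.diag_apply, Matrix.mul_apply]
  refine Finset.sum_congr rfl fun b _ => ?_
  have : Matrix.single b a (y b a) = y b a • Matrix.single b a (1 : ℂ) := by
    rw [Matrix.smul_single, smul_eq_mul, mul_one]
  rw [this, AlternatingMap.map_update_smul, smul_eq_mul, mul_comm]
  rfl

/-- inserting a matrix at the place `i` -/
noncomputable def ins (i : Fin (k * k)) (x : {j : Fin (k * k) // j ≠ i} → Mk k) (v : Mk k) :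
    Fin (k * k) → Mk k := fun j => if h : j ≠ i then x ⟨j, h⟩ else v

lemma ins_upd (i : Fin (k * k)) (x : {j : Fin (k * k) // j ≠ i} → Mk k) (v w : Mk k) :
    Function.update (ins i x v) i w = ins i x w := by
  funext j
  by_cases hj : j = i
  · subst hj
    simp [ins]
  · simp [ins, hj]

/-- the function `xi` with its dummy variable removed -/
noncomputable def xiML (i : Fin (k * k)) : ML k {j : Fin (k * k) // j ≠ i} :=
  { toFun := fun x a b =>
      ((detA k : MultilinearMap ℂ (fun _ : Fin (k * k) => Mk k) ℂ).domDomRestrict (fun j => j ≠ i)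
      (fun _ => Matrix.single b a 1)) x
    map_update_add' := by
      intro _ x j p q
      ext a b
      rw [Matrix.add_apply]
      exact MultilinearMap.map_update_add _ x j p q
    map_update_smul' := by
      intro _ x j c p
      ext a b
      rw [Matrix.smul_apply]
      exact MultilinearMap.map_update_smul _ x j c p }

lemma xiML_apply (i : Fin (k * k)) (x : {j : Fin (k * k) // j ≠ i} → Mk k) (v : Mk k) :
    xiML i x = xi i (ins i x v) := by
  ext a b
  change detA k (ins i x (Matrix.single b a 1)) = detA k (Function.update (ins i x v) i _)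
  rw [ins_upd]

lemma xiML_equi (i : Fin (k * k)) : Equi (xiML i : Fn k {j : Fin (k * k) // j ≠ i}) := by
  intro u hu x
  apply eq_of_trace
  intro y
  rw [xiML_apply i _ 0, xiML_apply i _ 0, xi_trace, ins_upd]
  have h3 : star u * u = 1 := Matrix.mem_unitaryGroup_iff'.1 hu
  have h4 : u * star u = 1 := Matrix.mem_unitaryGroup_iff.1 hu
  have h5 : ins i (fun i => u * x i * star u) y =
      fun j => u * (ins i x (star u * y * u) j) * star u := by
    funext j
    by_cases hj : j = i
    · subst hj
      simp only [ins, ne_eq, not_true_eq_false, dite_false]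
      calc y = (u * star u) * y * (u * star u) := by rw [h4, one_mul, mul_one]
        _ = _ := by simp only [mul_assoc]
    · simp [ins, hj]
  rw [h5, detA_inv hu]
  have h6 : (u * xi i (ins i x 0) * star u * y).trace =
      (xi i (ins i x 0) * (star u * y * u)).trace := by
    calc _ = (u * (xi i (ins i x 0) * star u * y)).trace := by simp only [mul_assoc]
      _ = ((xi i (ins i x 0) * star u * y) * u).trace := Matrix.trace_mul_comm _ _
      _ = _ := by simp only [mul_assoc]
  rw [h6, xi_trace, ins_upd]

/-- the functions `xi` are mixed trace functions -/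
lemma xi_mem (i : Fin (k * k)) : (xi i : Fn k (Fin (k * k))) ∈ EE k (Fin (k * k)) := by
  have h7 := EE_subst (κ := Fin (k * k)) (FFT (xiML i) (xiML_equi i))
    (g := fun j => co j.1) (fun j => co_mem j.1)
  convert h7 using 1
  funext x
  rw [xiML_apply i _ (x i)]
  congr 1
  funext j
  by_cases hj : j = i
  · subst hj
    simp [ins]
  · simp [ins, hj, co]

end Run7.h975.CC
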