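import Pool.Agent.Run7.h975.CC.Alt

/-!
# The conductor: a scalar function which multiplies trace functions into polynomial functions
-/

set_option autoImplicit false
set_option linter.unusedSectionVars false

namespace Run7.h975.CC

open Matrix Finset

variable {k : ℕ}

/-- the Capelli expression -/
noncomputable def capF {N : ℕ} (z y x : Fin N → Mk k) : Mk k :=
  ∑ σ : Equiv.Perm (Fin N), (Equiv.Perm.sign σ : ℤˣ) •
    (List.ofFn fun i => z i * x (σ i) * y i).prod

/-- the Capelli expression as an alternating map -/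
noncomputable def capAlt {N : ℕ} (z y : Fin N → Mk k) : Mk k [⋀^Fin N]→ₗ[ℂ] Mk k :=
  MultilinearMap.alternatization
    ((MultilinearMap.mkPiAlgebraFin ℂ N (Mk k)).compLinearMap
      (fun i => (LinearMap.mulRight ℂ (y i)).comp (LinearMap.mulLeft ℂ (z i))))

lemma capAlt_apply {N : ℕ} (z y x : Fin N → Mk k) : capAlt z y x = capF z y x := by
  rw [capAlt, MultilinearMap.alternatization_apply, capF]
  refine Finset.sum_congr rfl fun σ _ => ?_
  simp [MultilinearMap.mkPiAlgebraFin_apply]

lemma capF_trace (z y x : Fin (k * k) → Mk k) (w : Mk k) :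
    ∑ j, capF z y (Function.update x j (w * x j)) = (k * w.trace) • capF z y x := by
  have h := alt_trace (bas k) (capAlt z y) (LinearMap.mulLeft ℂ w) x
  rw [trace_mulLeft] at h
  simp only [capAlt_apply, LinearMap.mulLeft_apply] at h
  exact h

/-- Capelli functions -/
noncomputable def capFn {κ : Type} (z y x : Fin (k * k) → Fn k κ) : Fn k κ :=
  fun v => capF (fun i => z i v) (fun i => y i v) (fun i => x i v)

lemma capFn_mem {κ : Type} {z y x : Fin (k * k) → Fn k κ} (hz : ∀ i, z i ∈ RR k κ)
    (hy : ∀ i, y i ∈ RR k κ) (hx : ∀ i, x i ∈ RR k κ) : capFn z y x ∈ RR k κ := by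
  have : capFn z y x = ∑ σ : Equiv.Perm (Fin (k * k)), (Equiv.Perm.sign σ : ℤˣ) •
      (List.ofFn fun i => z i * x (σ i) * y i).prod := by
    funext v
    rw [capFn, capF, Finset.sum_apply]
    refine Finset.sum_congr rfl fun σ _ => ?_
    rw [Pi.smul_apply]
    congr 1
    have h : ((List.ofFn fun i => z i * x (σ i) * y i).prod : Fn k κ) v =
        ((List.ofFn fun i => z i * x (σ i) * y i).map (fun f : Fn k κ => f v)).prod :=
      map_list_prod (Pi.evalMonoidHom (fun _ : κ → Mk k => Mk k) v) _
    rw [h, List.map_ofFn]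
    rfl
  rw [this]
  refine (RR k κ).sum_mem fun σ _ => ?_
  have h : ((List.ofFn fun i => z i * x (σ i) * y i).prod : Fn k κ) ∈ RR k κ := by
    refine (RR k κ).list_prod_mem fun f hf => ?_
    rw [List.mem_ofFn] at hf
    obtain ⟨i, rfl⟩ := hf
    exact (RR k κ).mul_mem ((RR k κ).mul_mem (hz i) (hx _)) (hy i)
  rcases Int.units_eq_one_or (Equiv.Perm.sign σ) with hs | hs <;> rw [hs]
  · rw [one_smul]
    exact h
  · rw [Units.neg_smul, one_smul]
    exact (RR k κ).neg_mem h

/-- the ideal of Capelli functions -/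
def JJ (k : ℕ) (κ : Type) : Submodule ℂ (Fn k κ) :=
  Submodule.span ℂ {f | ∃ (p q : Fn k κ) (z y x : Fin (k * k) → Fn k κ), p ∈ RR k κ ∧ q ∈ RR k κ ∧
    (∀ i, z i ∈ RR k κ) ∧ (∀ i, y i ∈ RR k κ) ∧ (∀ i, x i ∈ RR k κ) ∧
    f = p * capFn z y x * q}

lemma JJ_le {κ : Type} {f : Fn k κ} (hf : f ∈ JJ k κ) : f ∈ RR k κ := by
  induction hf using Submodule.span_induction with
  | mem f hf =>
    obtain ⟨p, q, z, y, x, hp, hq, hz, hy, hx, rfl⟩ := hf
    exact (RR k κ).mul_mem ((RR k κ).mul_mem hp (capFn_mem hz hy hx)) hq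
  | zero => exact (RR k κ).zero_mem
  | add f g _ _ h h' => exact (RR k κ).add_mem h h'
  | smul c f _ h => exact (RR k κ).smul_mem h c

lemma JJ_mul_left {κ : Type} {f w : Fn k κ} (hf : f ∈ JJ k κ) (hw : w ∈ RR k κ) :
    w * f ∈ JJ k κ := by
  induction hf using Submodule.span_induction with
  | mem f hf =>
    obtain ⟨p, q, z, y, x, hp, hq, hz, hy, hx, rfl⟩ := hf
    refine Submodule.subset_span ⟨w * p, q, z, y, x, (RR k κ).mul_mem hw hp, hq, hz, hy, hx, ?_⟩
    simp only [mul_assoc]
  | zero => rw [mul_zero]; exact (JJ k κ).zero_mem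
  | add f g _ _ h h' => rw [mul_add]; exact (JJ k κ).add_mem h h'
  | smul c f _ h => rw [mul_smul_comm]; exact (JJ k κ).smul_mem c h

lemma JJ_mul_right {κ : Type} {f w : Fn k κ} (hf : f ∈ JJ k κ) (hw : w ∈ RR k κ) :
    f * w ∈ JJ k κ := by
  induction hf using Submodule.span_induction with
  | mem f hf =>
    obtain ⟨p, q, z, y, x, hp, hq, hz, hy, hx, rfl⟩ := hf
    refine Submodule.subset_span ⟨p, q * w, z, y, x, hp, (RR k κ).mul_mem hq hw, hz, hy, hx, ?_⟩
    simp only [mul_assoc]
  | zero => rw [zero_mul]; exact (JJ k κ).zero_mem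
  | add f g _ _ h h' => rw [add_mul]; exact (JJ k κ).add_mem h h'
  | smul c f _ h => rw [smul_mul_assoc]; exact (JJ k κ).smul_mem c h

lemma JJ_trace (hk : k ≠ 0) {κ : Type} {f w : Fn k κ} (hf : f ∈ JJ k κ) (hw : w ∈ RR k κ) :
    (fun v => (w v).trace • f v) ∈ JJ k κ := by
  induction hf using Submodule.span_induction with
  | mem f hf =>
    obtain ⟨p, q, z, y, x, hp, hq, hz, hy, hx, rfl⟩ := hf
    have hk' : (k : ℂ) ≠ 0 := by exact_mod_cast hk
    have h1 : (fun v => (w v).trace • (p * capFn z y x * q) v) =
        (k : ℂ)⁻¹ • ∑ j, p * capFn z y (Function.update x j (w * x j)) * q := by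
      funext v
      have h2 := capF_trace (fun i => z i v) (fun i => y i v) (fun i => x i v) (w v)
      have h3 : ∀ j, capFn z y (Function.update x j (w * x j)) v =
          capF (fun i => z i v) (fun i => y i v)
            (Function.update (fun i => x i v) j (w v * x j v)) := by
        intro j
        rw [capFn]
        congr 1
        funext i
        by_cases hi : i = j
        · subst hi
          simp
        · simp [hi]
      rw [Pi.smul_apply, Finset.sum_apply]
      simp only [Pi.mul_apply, h3]
      rw [← Finset.sum_mul, ← Finset.mul_sum, h2, capFn, mul_smul_comm, smul_mul_assoc, smul_smul,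
        ← mul_assoc, inv_mul_cancel₀ hk', one_mul]
    rw [h1]
    refine (JJ k κ).smul_mem _ ((JJ k κ).sum_mem fun j _ => ?_)
    refine Submodule.subset_span ⟨p, q, z, y, _, hp, hq, hz, hy, fun i => ?_, rfl⟩
    by_cases hi : i = j
    · subst hi
      rw [Function.update_self]
      exact (RR k κ).mul_mem hw (hx i)
    · rw [Function.update_of_ne hi]
      exact hx i
  | zero =>
    have : (fun v : κ → Mk k => (w v).trace • (0 : Fn k κ) v) = 0 := by
      funext v
      simp
    rw [this]
    exact (JJ k κ).zero_mem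
  | add f g _ _ h h' =>
    have : (fun v : κ → Mk k => (w v).trace • (f + g) v) =
        (fun v => (w v).trace • f v) + fun v => (w v).trace • g v := by
      funext v
      simp
    rw [this]
    exact (JJ k κ).add_mem h h'
  | smul c f _ h =>
    have : (fun v : κ → Mk k => (w v).trace • (c • f) v) = c • (fun v => (w v).trace • f v) := by
      funext v
      simp [smul_smul, mul_comm]
    rw [this]
    exact (JJ k κ).smul_mem c h

lemma JJ_TT (hk : k ≠ 0) {κ : Type} {s : (κ → Mk k) → ℂ} (hs : s ∈ TT k κ) :
    ∀ f ∈ JJ k κ, (fun v => s v • f v) ∈ JJ k κ := by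
  induction hs using Algebra.adjoin_induction with
  | mem s hs =>
    obtain ⟨w, hw, rfl⟩ := hs
    exact fun f hf => JJ_trace hk hf hw
  | algebraMap r => exact fun f hf => (JJ k κ).smul_mem r hf
  | add s t _ _ h h' =>
    intro f hf
    have : (fun v : κ → Mk k => (s + t) v • f v) = (fun v => s v • f v) + fun v => t v • f v := by
      funext v
      simp [add_smul]
    rw [this]
    exact (JJ k κ).add_mem (h f hf) (h' f hf)
  | mul s t _ _ h h' =>
    intro f hf
    have : (fun v : κ → Mk k => (s * t) v • f v) = fun v => s v • (fun v => t v • f v) v := by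
      funext v
      simp [smul_smul]
    rw [this]
    exact h _ (h' f hf)

lemma JJ_EE_left (hk : k ≠ 0) {κ : Type} {f e : Fn k κ} (hf : f ∈ JJ k κ) (he : e ∈ EE k κ) :
    e * f ∈ JJ k κ := by
  induction he using Submodule.span_induction with
  | mem e he =>
    obtain ⟨s, hs, w, hw, rfl⟩ := he
    have := JJ_TT hk hs _ (JJ_mul_left hf hw)
    convert this using 1
    funext v
    simp
  | zero => rw [zero_mul]; exact (JJ k κ).zero_mem
  | add e g _ _ h h' => rw [add_mul]; exact (JJ k κ).add_mem h h'
  | smul c e _ h => rw [smul_mul_assoc]; exact (JJ k κ).smul_mem c h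

lemma JJ_EE_right (hk : k ≠ 0) {κ : Type} {f e : Fn k κ} (hf : f ∈ JJ k κ) (he : e ∈ EE k κ) :
    f * e ∈ JJ k κ := by
  induction he using Submodule.span_induction with
  | mem e he =>
    obtain ⟨s, hs, w, hw, rfl⟩ := he
    have := JJ_TT hk hs _ (JJ_mul_right hf hw)
    convert this using 1
    funext v
    simp
  | zero => rw [mul_zero]; exact (JJ k κ).zero_mem
  | add e g _ _ h h' => rw [mul_add]; exact (JJ k κ).add_mem h h'
  | smul c e _ h => rw [mul_smul_comm]; exact (JJ k κ).smul_mem c h

/-- the scalar functions `q` for which `q • 1` lies in the ideal of Capelli functions -/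
lemma scalar_mem (hk : k ≠ 0) {κ : Type} {x y' z' x' : Fin (k * k) → Fn k κ} {z0 : Fn k κ}
    (hx : ∀ i, x i ∈ RR k κ) (hz0 : z0 ∈ RR k κ) (hz : ∀ i, z' i ∈ RR k κ)
    (hy : ∀ i, y' i ∈ RR k κ) (hx' : ∀ i, x' i ∈ RR k κ) :
    (fun v => (detA k (fun i => x i v) * (z0 v * capFn z' y' x' v).trace) • (1 : Mk k)) ∈
      JJ k κ := by
  have h0 : capFn z' y' x' ∈ JJ k κ :=
    Submodule.subset_span ⟨1, 1, z', y', x', (RR k κ).one_mem, (RR k κ).one_mem, hz, hy, hx', by
      simp⟩
  have h1 : ∀ i, x i * (z0 * capFn z' y' x') * (fun v => xi i (fun j => x j v)) ∈ JJ k κ :=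
    fun i => JJ_EE_right hk (JJ_mul_left (JJ_mul_left h0 hz0) (hx i)) (EE_subst (xi_mem i) hx)
  have h2 := (JJ k κ).sum_mem (t := Finset.univ) fun i _ => h1 i
  convert h2 using 1
  funext v
  rw [Finset.sum_apply]
  exact (xi_sum _ _).symm

/-! ### The conductor as a multilinear function -/

/-- words in which every variable occurs exactly once, as multilinear functions -/
noncomputable def wordML {M : Type} (l : List M) (hnd : l.Nodup) (hall : ∀ m, m ∈ l) : ML k M where
  toFun x := (l.map x).prod
  map_update_add' := by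
    intro _ x i a b
    obtain ⟨s, t, rfl⟩ := List.append_of_mem (hall i)
    have hs : i ∉ s := by
      intro h
      rw [List.nodup_append] at hnd
      exact hnd.2.2 i h i (List.mem_cons_self) rfl
    have ht : i ∉ t := by
      intro h
      rw [List.nodup_append] at hnd
      exact (List.nodup_cons.1 hnd.2.1).1 h
    have hmap : ∀ (c : Mk k) (r : List M), i ∉ r → r.map (Function.update x i c) = r.map x := by
      intro c r hr
      refine List.map_congr_left fun j hj => ?_
      rw [Function.update_of_ne]
      rintro rfl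
      exact hr hj
    simp only [List.map_append, List.map_cons, List.prod_append, List.prod_cons,
      Function.update_self, hmap _ s hs, hmap _ t ht, add_mul, mul_add]
  map_update_smul' := by
    intro _ x i c a
    obtain ⟨s, t, rfl⟩ := List.append_of_mem (hall i)
    have hs : i ∉ s := by
      intro h
      rw [List.nodup_append] at hnd
      exact hnd.2.2 i h i (List.mem_cons_self) rfl
    have ht : i ∉ t := by
      intro h
      rw [List.nodup_append] at hnd
      exact (List.nodup_cons.1 hnd.2.1).1 h
    have hmap : ∀ (c : Mk k) (r : List M), i ∉ r → r.map (Function.update x i c) = r.map x := by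
      intro c r hr
      refine List.map_congr_left fun j hj => ?_
      rw [Function.update_of_ne]
      rintro rfl
      exact hr hj
    simp only [List.map_append, List.map_cons, List.prod_append, List.prod_cons,
      Function.update_self, hmap _ s hs, hmap _ t ht, smul_mul_assoc, mul_smul_comm]

/-- the variables of the second factor of the conductor -/
abbrev VV (N : ℕ) : Type := Option (Fin N × Fin 3)

/-- the list of variables in a term of the Capelli expression -/
def lst {N : ℕ} (σ : Equiv.Perm (Fin N)) : List (VV N) :=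
  none :: (List.finRange N).flatMap fun i => [some (i, 0), some (σ i, 1), some (i, 2)]

lemma lst_nodup {N : ℕ} (σ : Equiv.Perm (Fin N)) : (lst σ).Nodup := by
  rw [lst, List.nodup_cons]
  constructor
  · simp
  · rw [List.nodup_flatMap]
    constructor
    · intro i _
      simp
    · refine (List.nodup_finRange N).imp_of_mem fun {a b} _ _ hab => ?_
      simp only [Function.onFun]
      intro o h1 h2
      simp only [List.mem_cons, List.not_mem_nil, or_false] at h1 h2
      rcases h1 with rfl | rfl | rfl <;> rcases h2 with h | h | h <;> simp_all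

lemma lst_all {N : ℕ} (σ : Equiv.Perm (Fin N)) (m : VV N) : m ∈ lst σ := by
  rw [lst]
  cases m with
  | none => simp
  | some p =>
    obtain ⟨i, c⟩ := p
    refine List.mem_cons_of_mem _ (List.mem_flatMap.2 ?_)
    fin_cases c
    · exact ⟨i, List.mem_finRange i, by simp⟩
    · exact ⟨σ.symm i, List.mem_finRange _, by simp⟩
    · exact ⟨i, List.mem_finRange i, by simp⟩

lemma lst_prod {N : ℕ} (σ : Equiv.Perm (Fin N)) (v : VV N → Mk k) :
    ((lst σ).map v).prod = v none *
      (List.ofFn fun i => v (some (i, 0)) * v (some (σ i, 1)) * v (some (i, 2))).prod := by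
  rw [lst, List.map_cons, List.prod_cons]
  congr 1
  rw [List.ofFn_eq_map]
  generalize List.finRange N = l
  induction l with
  | nil => simp
  | cons i l ih =>
    rw [List.flatMap_cons, List.map_append, List.prod_append, ih, List.map_cons, List.prod_cons]
    simp [mul_assoc]

/-- the second factor of the conductor -/
noncomputable def q2 (k : ℕ) : MS k (VV (k * k)) :=
  ∑ σ : Equiv.Perm (Fin (k * k)), (Equiv.Perm.sign σ : ℤˣ) •
    (Matrix.traceLinearMap (Fin k) ℂ ℂ).compMultilinearMap
      (wordML (lst σ) (lst_nodup σ) (lst_all σ))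

lemma q2_apply (v : VV (k * k) → Mk k) : q2 k v = (v none *
    capF (fun i => v (some (i, 0))) (fun i => v (some (i, 2))) (fun i => v (some (i, 1)))).trace := by
  rw [q2, _root_.sum_apply, capF, Finset.mul_sum, Matrix.trace_sum]
  refine Finset.sum_congr rfl fun σ _ => ?_
  rcases Int.units_eq_one_or (Equiv.Perm.sign σ) with hs | hs <;> rw [hs]
  · rw [one_smul, one_smul]
    change (((lst σ).map v).prod).trace = _
    rw [lst_prod]
  · rw [Units.neg_smul, Units.neg_smul, one_smul, one_smul, mul_neg, Matrix.trace_neg]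
    change - (((lst σ).map v).prod).trace = _
    rw [lst_prod]

/-- the conductor -/
noncomputable def qq (k : ℕ) : MS k (Fin (k * k) ⊕ VV (k * k)) :=
  (LinearMap.mul' ℂ ℂ).compMultilinearMap
    (MultilinearMap.domCoprod (detA k : MultilinearMap ℂ (fun _ : Fin (k * k) => Mk k) ℂ) (q2 k))

lemma qq_apply (v : Fin (k * k) ⊕ VV (k * k) → Mk k) :
    qq k v = detA k (fun i => v (Sum.inl i)) * q2 k (fun m => v (Sum.inr m)) := rfl

lemma corner_prod (o : Fin k) : ∀ {N : ℕ} (c : Fin N → ℂ),
    ((List.ofFn fun i => Matrix.single o o (c i)).prod : Mk k) o o = ∏ i, c i := by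
  intro N
  induction N with
  | zero => intro c; simp
  | succ N ih =>
    intro c
    rw [List.ofFn_succ, List.prod_cons, Fin.prod_univ_succ, ← ih (fun i => c i.succ),
      Matrix.single_mul_apply_same]

lemma capF_corner (o : Fin k) :
    capF (k := k) (fun i : Fin (k * k) => Matrix.single o (pr k i).1 (1 : ℂ))
      (fun i => Matrix.single (pr k i).2 o (1 : ℂ))
      (fun i => Matrix.single (pr k i).1 (pr k i).2 1) o o = 1 := by
  refine Eq.trans ?_ (detA_bas (k := k))
  rw [capF, detA_apply, Matrix.det_apply, Matrix.sum_apply]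
  refine Finset.sum_congr rfl fun σ _ => ?_
  rw [Matrix.smul_apply]
  congr 1
  have : (fun i => Matrix.single o (pr k i).1 (1 : ℂ) *
      Matrix.single (pr k (σ i)).1 (pr k (σ i)).2 1 * Matrix.single (pr k i).2 o (1 : ℂ)) =
      fun i => Matrix.single o o ((Matrix.of fun j i =>
        (Matrix.single (pr k j).1 (pr k j).2 (1 : ℂ)) (pr k i).1 (pr k i).2) (σ i) i) := by
    funext i
    rw [Matrix.single_mul_mul_single]
    simp
  rw [this, corner_prod]

lemma qq_ne_zero (hk : k ≠ 0) : qq k ≠ 0 := by
  intro h0
  let o : Fin k := ⟨0, Nat.pos_of_ne_zero hk⟩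
  have h1 := congrArg (fun q : MS k (Fin (k * k) ⊕ VV (k * k)) => q (Sum.elim
    (fun i => Matrix.single (pr k i).1 (pr k i).2 1)
    (fun m => m.elim (Matrix.single o o 1) (fun p => if p.2 = 0 then Matrix.single o (pr k p.1).1 1
      else if p.2 = 1 then Matrix.single (pr k p.1).1 (pr k p.1).2 1
        else Matrix.single (pr k p.1).2 o 1)))) h0
  simp only [qq_apply, Sum.elim_inl, Sum.elim_inr, detA_bas, q2_apply, one_mul,
    _root_.zero_apply, Option.elim_none, Option.elim_some, if_true] at h1
  rw [Matrix.trace_single_mul] at h1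
  simp only [Fin.isValue, one_ne_zero, if_false, Fin.reduceEq] at h1
  rw [capF_corner] at h1
  simp at h1

lemma capF_equi {u : Mk k} (hu : u ∈ unitaryGroup (Fin k) ℂ) {N : ℕ} (z y x : Fin N → Mk k) :
    capF (fun i => u * z i * star u) (fun i => u * y i * star u) (fun i => u * x i * star u) =
      u * capF z y x * star u := by
  have h3 : star u * u = 1 := Matrix.mem_unitaryGroup_iff'.1 hu
  have h4 : u * star u = 1 := Matrix.mem_unitaryGroup_iff.1 hu
  have hprod : ∀ l : List (Mk k), (l.map fun a => u * a * star u).prod = u * l.prod * star u := by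
    intro l
    induction l with
    | nil => simp [h4]
    | cons a l ih =>
      rw [List.map_cons, List.prod_cons, ih, List.prod_cons]
      calc _ = u * a * (star u * u) * l.prod * star u := by simp only [mul_assoc]
        _ = _ := by rw [h3]; simp only [mul_one, mul_assoc]
  rw [capF, capF, Finset.mul_sum, Finset.sum_mul]
  refine Finset.sum_congr rfl fun σ _ => ?_
  rw [mul_smul_comm, smul_mul_assoc, ← hprod, List.map_ofFn]
  congr 3
  funext i
  simp only [Function.comp_apply]
  calc _ = u * z i * (star u * u) * x (σ i) * (star u * u) * y i * star u := by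
        simp only [mul_assoc]
    _ = _ := by rw [h3]; simp only [mul_one, mul_assoc]

lemma qq_inv {u : Mk k} (hu : u ∈ unitaryGroup (Fin k) ℂ)
    (v : Fin (k * k) ⊕ VV (k * k) → Mk k) :
    qq k (fun i => u * v i * star u) = qq k v := by
  rw [qq_apply, qq_apply, detA_inv hu, q2_apply, q2_apply,
    capF_equi hu _ _ _]
  congr 1
  have h3 : star u * u = 1 := Matrix.mem_unitaryGroup_iff'.1 hu
  calc _ = (u * (v (Sum.inr none) * capF (fun i => v (Sum.inr (some (i, 0))))
        (fun i => v (Sum.inr (some (i, 2)))) (fun i => v (Sum.inr (some (i, 1)))) * star u)).trace := by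
        congr 1
        calc _ = u * v (Sum.inr none) * (star u * u) * capF (fun i => v (Sum.inr (some (i, 0))))
              (fun i => v (Sum.inr (some (i, 2)))) (fun i => v (Sum.inr (some (i, 1)))) * star u := by
              simp only [mul_assoc]
          _ = _ := by rw [h3]; simp only [mul_one, mul_assoc]
    _ = _ := by
        rw [Matrix.trace_mul_comm, mul_assoc, h3, mul_one]

/-- **The conductor.** -/
theorem conductor (hk : k ≠ 0) : ∃ (m : ℕ) (Q : MS k (Fin m)), Q ≠ 0 ∧
    (∀ u ∈ unitaryGroup (Fin k) ℂ, ∀ v, Q (fun i => u * v i * star u) = Q v) ∧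
    ∀ (κ : Type) (a : Fin m → Fn k κ), (∀ j, a j ∈ RR k κ) → ∀ e ∈ EE k κ,
      (fun v => Q (fun j => a j v) • e v) ∈ RR k κ := by
  classical
  let ε := Fintype.equivFin (Fin (k * k) ⊕ VV (k * k))
  refine ⟨_, (qq k).domDomCongr ε, ?_, ?_, ?_⟩
  · intro h
    apply qq_ne_zero hk
    refine MultilinearMap.ext fun v => ?_
    have h1 := congrArg (fun q : MS k (Fin _) => q (fun i => v (ε.symm i))) h
    simpa using h1
  · intro u hu v
    simp only [MultilinearMap.domDomCongr_apply]
    exact qq_inv hu _
  · intro κ a ha e he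
    apply JJ_le
    have h1 := scalar_mem (κ := κ) hk (x := fun i => a (ε (Sum.inl i)))
      (z0 := a (ε (Sum.inr none)))
      (z' := fun i => a (ε (Sum.inr (some (i, 0))))) (y' := fun i => a (ε (Sum.inr (some (i, 2)))))
      (x' := fun i => a (ε (Sum.inr (some (i, 1)))))
      (fun i => ha _) (ha _) (fun i => ha _) (fun i => ha _) (fun i => ha _)
    have h2 := JJ_EE_left hk h1 he
    convert h2 using 1
    funext v
    simp only [MultilinearMap.domDomCongr_apply, Pi.mul_apply, mul_smul_comm, mul_one]
    rw [qq_apply, q2_apply]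
    rfl

end Run7.h975.CC
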