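import Mathlib

/-!
# Words avoiding a subsequence
-/

set_option autoImplicit false

namespace Run7.h975.CC

open Finset

variable {L : Type} [Fintype L] [DecidableEq L]

/-- number of words of length `N` that do not contain `s` as a subsequence -/
def av (s : List L) (N : ℕ) : ℕ := (univ.filter fun w : Fin N → L => ¬ s.Sublist (List.ofFn w)).card

lemma av_eq (s : List L) (N : ℕ) :
    av s N = ∑ w : Fin N → L, if s.Sublist (List.ofFn w) then 0 else 1 := by
  rw [av, Finset.card_filter]
  exact Finset.sum_congr rfl fun w _ => by split_ifs <;> simp_all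

lemma av_nil (N : ℕ) : av ([] : List L) N = 0 := by
  rw [av_eq]
  simp

lemma av_cons_zero (b : L) (s : List L) : av (b :: s) 0 = 1 := by
  rw [av_eq]
  simp

lemma av_cons_succ (b : L) (s : List L) (N : ℕ) :
    av (b :: s) (N + 1) = av s N + (Fintype.card L - 1) * av (b :: s) N := by
  rw [av_eq, ← (Fin.consEquiv fun _ : Fin (N + 1) => L).sum_comp, Fintype.sum_prod_type,
    ← Finset.add_sum_erase univ _ (Finset.mem_univ b)]
  congr 1
  · rw [av_eq]
    refine Finset.sum_congr rfl fun w _ => ?_
    simp [Fin.consEquiv, List.ofFn_succ]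
  · have h1 : ∀ c ∈ univ.erase b, (∑ y : Fin N → L,
        if (b :: s).Sublist (List.ofFn ((Fin.consEquiv fun _ : Fin (N + 1) => L) (c, y))) then 0
          else 1) = av (b :: s) N := by
      intro c hc
      rw [av_eq]
      refine Finset.sum_congr rfl fun w _ => ?_
      have hcb : b ≠ c := (Finset.ne_of_mem_erase hc).symm
      have h2 : (b :: s).Sublist (List.ofFn ((Fin.consEquiv fun _ : Fin (N + 1) => L) (c, w))) ↔
          (b :: s).Sublist (List.ofFn w) := by
        simp only [Fin.consEquiv, Equiv.coe_fn_mk, List.ofFn_succ, Fin.cons_zero, Fin.cons_succ]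
        rw [List.cons_sublist_cons']
        simp [hcb]
      simp only [h2]
    rw [Finset.sum_congr rfl h1, Finset.sum_const, Finset.card_erase_of_mem (Finset.mem_univ b),
      smul_eq_mul, Finset.card_univ]

lemma av_le (hd : 2 ≤ Fintype.card L) (s : List L) (N : ℕ) :
    av s N ≤ (N + 1) ^ s.length * (Fintype.card L - 1) ^ N := by
  induction N generalizing s with
  | zero =>
    rcases s with _ | ⟨b, s⟩
    · rw [av_nil]; omega
    · rw [av_cons_zero]; simp
  | succ N ih =>
    rcases s with _ | ⟨b, s⟩
    · rw [av_nil]; exact Nat.zero_le _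
    · rw [av_cons_succ]
      have h1 := ih s
      have h2 := ih (b :: s)
      set D := Fintype.card L - 1 with hD
      have hD1 : 1 ≤ D := by omega
      have h3 : (N + 1) ^ s.length * D ^ N ≤ (N + 1) ^ s.length * D ^ (N + 1) :=
        Nat.mul_le_mul_left _ (Nat.pow_le_pow_right hD1 (Nat.le_succ _))
      calc av s N + D * av (b :: s) N
          ≤ (N + 1) ^ s.length * D ^ (N + 1) + D * ((N + 1) ^ (b :: s).length * D ^ N) :=
            Nat.add_le_add (h1.trans h3) (Nat.mul_le_mul_left _ h2)
        _ = ((N + 1) ^ s.length * (N + 2)) * D ^ (N + 1) := by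
            rw [List.length_cons]
            ring
        _ ≤ ((N + 2) ^ s.length * (N + 2)) * D ^ (N + 1) :=
            Nat.mul_le_mul_right _ (Nat.mul_le_mul_right _ (Nat.pow_le_pow_left (by omega) _))
        _ = _ := by
            rw [List.length_cons]
            ring

omit [Fintype L] [DecidableEq L] in
lemma exists_emb {m N : ℕ} (s : Fin m → L) (w : Fin N → L)
    (h : (List.ofFn s).Sublist (List.ofFn w)) : ∃ p : Fin m ↪o Fin N, ∀ i, w (p i) = s i := by
  rw [List.sublist_iff_exists_fin_orderEmbedding_get_eq] at h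
  obtain ⟨f, hf⟩ := h
  have h1 : m = (List.ofFn s).length := (List.length_ofFn).symm
  have h2 : (List.ofFn w).length = N := List.length_ofFn
  refine ⟨((Fin.castOrderIso h1).toOrderEmbedding.trans f).trans
    (Fin.castOrderIso h2).toOrderEmbedding, fun i => ?_⟩
  have h3 := hf (Fin.cast h1 i)
  simp only [List.get_eq_getElem, List.getElem_ofFn, Fin.val_cast] at h3
  simp only [RelEmbedding.coe_trans, Function.comp_apply]
  exact h3.symm

end Run7.h975.CC
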