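import Mathlib

/-!
# Generic matrices: definitions

Functions of several complex `k × k` matrices, noncommutative polynomial functions, trace
functions, equivariant functions.
-/

set_option autoImplicit false

namespace Run7.h975.CC

open Matrix

/-- complex square matrices -/
abbrev Mk (k : ℕ) : Type := Matrix (Fin k) (Fin k) ℂ

/-- matrix valued functions of matrix variables indexed by `ι` -/
abbrev Fn (k : ℕ) (ι : Type) : Type := (ι → Mk k) → Mk k

/-- the coordinate functions -/
def co {k : ℕ} {ι : Type} (i : ι) : Fn k ι := fun x => x i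

/-- the noncommutative polynomial functions -/
def RR (k : ℕ) (ι : Type) : Subalgebra ℂ (Fn k ι) := Algebra.adjoin ℂ (Set.range co)

/-- the algebra generated by traces of noncommutative polynomial functions -/
def TT (k : ℕ) (ι : Type) : Subalgebra ℂ ((ι → Mk k) → ℂ) :=
  Algebra.adjoin ℂ {s | ∃ w ∈ RR k ι, s = fun x => (w x).trace}

/-- mixed trace polynomial functions -/
def EE (k : ℕ) (ι : Type) : Submodule ℂ (Fn k ι) :=
  Submodule.span ℂ {f | ∃ s ∈ TT k ι, ∃ w ∈ RR k ι, f = fun x => s x • w x}

/-- equivariance under the unitary group -/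
def Equi {k : ℕ} {ι : Type} (f : Fn k ι) : Prop :=
  ∀ u ∈ Matrix.unitaryGroup (Fin k) ℂ, ∀ x : ι → Mk k,
    f (fun i => u * x i * star u) = u * f x * star u

/-- multilinear functions with matrix values -/
abbrev ML (k : ℕ) (ι : Type) : Type := MultilinearMap ℂ (fun _ : ι => Mk k) (Mk k)

/-- multilinear functions with scalar values -/
abbrev MS (k : ℕ) (ι : Type) : Type := MultilinearMap ℂ (fun _ : ι => Mk k) ℂ

/-- the span of the multilinear monomials -/
def PP (k n : ℕ) : Submodule ℂ (Fn k (Fin n)) :=
  Submodule.span ℂ (Set.range fun σ : Equiv.Perm (Fin n) =>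
    fun x : Fin n → Mk k => (List.ofFn fun i => x (σ i)).prod)

/-- the tensor product of matrices, with rows and columns indexed by words -/
def tens {k : ℕ} {ι : Type} [Fintype ι] (x : ι → Mk k) : Matrix (ι → Fin k) (ι → Fin k) ℂ :=
  fun I J => ∏ m, x m (I m) (J m)

/-- tensor powers -/
def up {k : ℕ} (ι : Type) [Fintype ι] (y : Mk k) : Matrix (ι → Fin k) (ι → Fin k) ℂ :=
  tens fun _ => y

/-- permutation matrices on words -/
def pm {k : ℕ} {ι : Type} [Fintype ι] (σ : Equiv.Perm ι) :
    Matrix (ι → Fin k) (ι → Fin k) ℂ :=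
  fun I J => if J = I ∘ σ then 1 else 0

end Run7.h975.CC
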