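import Pool.Agent.Run7.h975.CC.Red

/-!
# Dimensions of spaces of equivariant functions
-/

set_option autoImplicit false
set_option linter.unusedSectionVars false

namespace Run7.h975.CC

open Matrix Finset

variable {k : ℕ}

section maps

variable {ι : Type} [Fintype ι] [DecidableEq ι]

/-- the function attached to a tensor -/
noncomputable def psi (Φ : Matrix (Option ι → Fin k) (Option ι → Fin k) ℂ) : ML k ι :=
  ∑ A : ι → Fin k, ∑ B : ι → Fin k, mo (fun m => (B m, A m))
    (fun i j => Φ (fun o => o.elim i A) (fun o => o.elim j B))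

lemma psi_trace (Φ : Matrix (Option ι → Fin k) (Option ι → Fin k) ℂ) (x : ι → Mk k) (y : Mk k) :
    (psi Φ x * y).trace = (Φ * tens (fun o : Option ι => o.elim y x)).trace := by
  have hR : (psi Φ x * y).trace = ∑ i, ∑ j, psi Φ x i j * y j i := by
    simp only [Matrix.trace, Matrix.diag_apply, Matrix.mul_apply]
  rw [hR]
  symm
  simp only [Matrix.trace, Matrix.diag_apply, Matrix.mul_apply]
  rw [sum_option_fun]
  refine Finset.sum_congr rfl fun i _ => ?_
  have h1 : ∀ A' : ι → Fin k, ∑ B : Option ι → Fin k,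
      Φ (fun o => o.elim i A') B * tens (fun o : Option ι => o.elim y x) B
        (fun o => o.elim i A') = ∑ j, ∑ B' : ι → Fin k,
        Φ (fun o => o.elim i A') (fun o => o.elim j B') * (y j i * ∏ m, x m (B' m) (A' m)) := by
    intro A'
    rw [sum_option_fun]
    refine Finset.sum_congr rfl fun j _ => Finset.sum_congr rfl fun B' _ => ?_
    simp only [tens, Fintype.prod_option, Option.elim_none, Option.elim_some]
  rw [Finset.sum_congr rfl fun A' _ => h1 A', Finset.sum_comm]
  refine Finset.sum_congr rfl fun j _ => ?_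
  rw [psi, _root_.sum_apply, Matrix.sum_apply, Finset.sum_mul]
  refine Finset.sum_congr rfl fun A' _ => ?_
  rw [_root_.sum_apply, Matrix.sum_apply, Finset.sum_mul]
  refine Finset.sum_congr rfl fun B' _ => ?_
  rw [mo_apply, Matrix.smul_apply, smul_eq_mul]
  ring

/-- the scalar function attached to a tensor -/
noncomputable def psS (Φ : Matrix (ι → Fin k) (ι → Fin k) ℂ) : MS k ι :=
  ∑ A : ι → Fin k, ∑ B : ι → Fin k, Φ A B • mn (fun m => (B m, A m))

lemma psS_apply (Φ : Matrix (ι → Fin k) (ι → Fin k) ℂ) (x : ι → Mk k) :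
    psS Φ x = (Φ * tens x).trace := by
  rw [psS, _root_.sum_apply]
  simp only [Matrix.trace, Matrix.diag_apply, Matrix.mul_apply]
  refine Finset.sum_congr rfl fun A' _ => ?_
  rw [_root_.sum_apply]
  refine Finset.sum_congr rfl fun B' _ => ?_
  rw [_root_.smul_apply, mn_apply, smul_eq_mul]
  rfl

/-- the tensor attached to a scalar function -/
def phs (s : MS k ι) : Matrix (ι → Fin k) (ι → Fin k) ℂ :=
  fun A B => s (fun m => Matrix.single (B m) (A m) 1)

lemma phs_trace (s : MS k ι) (x : ι → Mk k) : (phs s * tens x).trace = s x := by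
  simp only [Matrix.trace, Matrix.diag_apply, Matrix.mul_apply]
  rw [ml_expand s x,
    ← (Equiv.arrowProdEquivProdArrow ι (fun _ => Fin k) (fun _ => Fin k)).symm.sum_comp,
    Fintype.sum_prod_type, Finset.sum_comm]
  refine Finset.sum_congr rfl fun A' _ => Finset.sum_congr rfl fun B' _ => ?_
  simp only [Equiv.arrowProdEquivProdArrow, Equiv.coe_fn_symm_mk, smul_eq_mul, phs, tens]
  ring

lemma inv_of_comm {M : Matrix (ι → Fin k) (ι → Fin k) ℂ} {u : Mk k}
    (hu : u ∈ unitaryGroup (Fin k) ℂ) (h : M * up ι u = up ι u * M) (z : ι → Mk k) :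
    (M * tens (fun m => u * z m * star u)).trace = (M * tens z).trace := by
  rw [← tens_mul, ← tens_mul]
  change (M * (up ι u * tens z * up ι (star u))).trace = _
  have h1 : M * (up ι u * tens z * up ι (star u)) = (up ι u * (M * tens z)) * up ι (star u) := by
    calc _ = (M * up ι u) * tens z * up ι (star u) := by simp only [mul_assoc]
      _ = _ := by rw [h]; simp only [mul_assoc]
  rw [h1, Matrix.trace_mul_comm, ← mul_assoc, up_star_mul hu, one_mul]

lemma psi_equi {Φ : Matrix (Option ι → Fin k) (Option ι → Fin k) ℂ}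
    (hΦ : Φ ∈ Cm k (Option ι)) : Equi (psi Φ : Fn k ι) := by
  intro u hu x
  apply eq_of_trace
  intro y
  have h3 : u * star u = 1 := Matrix.mem_unitaryGroup_iff.1 hu
  have h1 : (u * psi Φ x * star u * y).trace = (psi Φ x * (star u * y * u)).trace := by
    rw [mul_assoc, mul_assoc, Matrix.trace_mul_comm u]
    simp only [mul_assoc]
  rw [h1, psi_trace, psi_trace, ← inv_of_comm hu (hΦ u hu)
    (fun o : Option ι => o.elim (star u * y * u) x)]
  congr 3
  funext o
  cases o with
  | none =>
    change y = u * (star u * y * u) * star u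
    calc y = (u * star u) * y * (u * star u) := by rw [h3, one_mul, mul_one]
      _ = _ := by simp only [mul_assoc]
  | some i => rfl

lemma phi_add (f g : ML k ι) : phi (f + g) = phi f + phi g := rfl

lemma phi_smul (c : ℂ) (f : ML k ι) : phi (c • f) = c • phi f := rfl

lemma psi_add (Φ Ψ : Matrix (Option ι → Fin k) (Option ι → Fin k) ℂ) :
    psi (Φ + Ψ) = psi Φ + psi Ψ := by
  refine MultilinearMap.ext fun x => eq_of_trace fun y => ?_
  rw [psi_trace, _root_.add_apply, add_mul, add_mul, Matrix.trace_add, Matrix.trace_add,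
    psi_trace, psi_trace]

lemma psi_smul (c : ℂ) (Φ : Matrix (Option ι → Fin k) (Option ι → Fin k) ℂ) :
    psi (c • Φ) = c • psi Φ := by
  refine MultilinearMap.ext fun x => eq_of_trace fun y => ?_
  rw [psi_trace, _root_.smul_apply, smul_mul_assoc, smul_mul_assoc, Matrix.trace_smul,
    Matrix.trace_smul, psi_trace]

lemma psS_add (Φ Ψ : Matrix (ι → Fin k) (ι → Fin k) ℂ) : psS (Φ + Ψ) = psS Φ + psS Ψ := by
  refine MultilinearMap.ext fun x => ?_
  rw [_root_.add_apply, psS_apply, psS_apply, psS_apply, add_mul, Matrix.trace_add]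

lemma psS_smul (c : ℂ) (Φ : Matrix (ι → Fin k) (ι → Fin k) ℂ) : psS (c • Φ) = c • psS Φ := by
  refine MultilinearMap.ext fun x => ?_
  rw [_root_.smul_apply, psS_apply, psS_apply, smul_mul_assoc, Matrix.trace_smul]

lemma option_elim_eta (z : Option ι → Mk k) :
    z = fun o : Option ι => o.elim (z none) (fun i => z (some i)) := by
  funext o
  cases o <;> rfl

end maps

variable {N : ℕ}

/-- from equivariant functions to the commutant -/
noncomputable def toCm : EU (⊤ : Submodule ℂ (Mk k)) N →ₗ[ℂ] Cm k (Option (Fin N)) where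
  toFun f := ⟨phi f.1, fun u hu => phi_comm f.1 f.2.1 u hu⟩
  map_add' _ _ := rfl
  map_smul' _ _ := rfl

lemma toCm_inj : Function.Injective (toCm : EU (⊤ : Submodule ℂ (Mk k)) N →ₗ[ℂ] _) := by
  rw [injective_iff_map_eq_zero]
  rintro ⟨f, hf⟩ h
  have h1 : phi f = 0 := congrArg Subtype.val h
  refine Subtype.ext (MultilinearMap.ext fun x => eq_of_trace fun y => ?_)
  change (f x * y).trace = ((0 : Mk k) * y).trace
  rw [← phi_trace, h1, zero_mul, zero_mul, Matrix.trace_zero, Matrix.trace_zero]

/-- from the commutant to equivariant functions -/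
noncomputable def ofCm : Cm k (Option (Fin N)) →ₗ[ℂ] EU (⊤ : Submodule ℂ (Mk k)) N where
  toFun Φ := ⟨psi Φ.1, psi_equi Φ.2, fun _ => Submodule.mem_top⟩
  map_add' Φ Ψ := Subtype.ext (psi_add Φ.1 Ψ.1)
  map_smul' c Φ := Subtype.ext (psi_smul c Φ.1)

lemma ofCm_inj : Function.Injective (ofCm : Cm k (Option (Fin N)) →ₗ[ℂ] _) := by
  rw [injective_iff_map_eq_zero]
  rintro ⟨Φ, hΦ⟩ h
  have h1 : psi Φ = 0 := congrArg Subtype.val h
  refine Subtype.ext (eq_zero_of_tens fun z => ?_)
  rw [option_elim_eta z, ← psi_trace, h1]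
  change ((0 : Mk k) * _).trace = 0
  rw [zero_mul, Matrix.trace_zero]

theorem finrank_EU_top :
    (Module.finrank ℂ (EU (⊤ : Submodule ℂ (Mk k)) N) : ℝ) = tt k (N + 1) := by
  have h1 := LinearMap.finrank_le_finrank_of_injective (toCm_inj (k := k) (N := N))
  have h2 := LinearMap.finrank_le_finrank_of_injective (ofCm_inj (k := k) (N := N))
  rw [le_antisymm h1 h2, finrank_Cm, Fintype.card_option, Fintype.card_fin]

/-- the scalar of a scalar valued function -/
noncomputable def sc0 [NeZero k] (f : ML k (Fin N)) : MS k (Fin N) :=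
  (Matrix.entryLinearMap ℂ ℂ (0 : Fin k) (0 : Fin k)).compMultilinearMap f

lemma sc0_apply [NeZero k] (f : ML k (Fin N)) (x : Fin N → Mk k) : sc0 f x = f x 0 0 := rfl

lemma sc0_spec [NeZero k] {f : ML k (Fin N)} {x : Fin N → Mk k} (hf : f x ∈ Sc k) :
    f x = sc0 f x • (1 : Mk k) := by
  obtain ⟨c, hc⟩ := mem_Sc.1 hf
  rw [sc0_apply, ← hc, Matrix.smul_apply, Matrix.one_apply_eq, smul_eq_mul, mul_one]

/-- from scalar valued equivariant functions to the commutant -/
noncomputable def toCs [NeZero k] : EU (Sc k) N →ₗ[ℂ] Cm k (Fin N) where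
  toFun f := ⟨phs (sc0 f.1), by
    refine fun u hu => comm_of_inv (fun u hu z => ?_) u hu
    rw [phs_trace, phs_trace]
    have h1 := f.2.1 u hu z
    have h2 := sc0_spec (f.2.2 z)
    rw [h2, mul_smul_comm, smul_mul_assoc, mul_one, Matrix.mem_unitaryGroup_iff.1 hu] at h1
    rw [sc0_apply, h1, Matrix.smul_apply, Matrix.one_apply_eq, smul_eq_mul, mul_one]⟩
  map_add' _ _ := rfl
  map_smul' _ _ := rfl

lemma toCs_inj [NeZero k] : Function.Injective (toCs : EU (Sc k) N →ₗ[ℂ] _) := by
  rw [injective_iff_map_eq_zero]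
  rintro ⟨f, hf⟩ h
  have h1 : phs (sc0 f) = 0 := congrArg Subtype.val h
  refine Subtype.ext (MultilinearMap.ext fun x => ?_)
  have h2 := phs_trace (sc0 f) x
  rw [h1, zero_mul, Matrix.trace_zero] at h2
  change f x = 0
  rw [sc0_spec (hf.2 x), ← h2, zero_smul]

/-- from the commutant to scalar valued equivariant functions -/
noncomputable def ofCs : Cm k (Fin N) →ₗ[ℂ] EU (Sc k) N where
  toFun Φ := ⟨(psS Φ.1).smulRight (1 : Mk k), by
    refine ⟨fun u hu x => ?_, fun x => ?_⟩
    · rw [MultilinearMap.smulRight_apply, MultilinearMap.smulRight_apply, psS_apply, psS_apply,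
        inv_of_comm hu (Φ.2 u hu), mul_smul_comm, smul_mul_assoc, mul_one,
        Matrix.mem_unitaryGroup_iff.1 hu]
    · rw [MultilinearMap.smulRight_apply]
      exact mem_Sc.2 ⟨_, rfl⟩⟩
  map_add' Φ Ψ := by
    refine Subtype.ext (MultilinearMap.ext fun x => ?_)
    change (psS (Φ.1 + Ψ.1)).smulRight (1 : Mk k) x =
      (psS Φ.1).smulRight (1 : Mk k) x + (psS Ψ.1).smulRight (1 : Mk k) x
    rw [MultilinearMap.smulRight_apply, MultilinearMap.smulRight_apply,
      MultilinearMap.smulRight_apply, psS_add, _root_.add_apply, add_smul]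
  map_smul' c Φ := by
    refine Subtype.ext (MultilinearMap.ext fun x => ?_)
    change (psS (c • Φ.1)).smulRight (1 : Mk k) x = c • (psS Φ.1).smulRight (1 : Mk k) x
    rw [MultilinearMap.smulRight_apply, MultilinearMap.smulRight_apply, psS_smul,
      _root_.smul_apply, smul_assoc]

lemma ofCs_inj [NeZero k] : Function.Injective (ofCs : Cm k (Fin N) →ₗ[ℂ] _) := by
  rw [injective_iff_map_eq_zero]
  rintro ⟨Φ, hΦ⟩ h
  have h1 : (psS Φ).smulRight (1 : Mk k) = 0 := congrArg Subtype.val h
  refine Subtype.ext (eq_zero_of_tens fun z => ?_)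
  have h2 := congrArg (fun f : ML k (Fin N) => f z 0 0) h1
  simp only [MultilinearMap.smulRight_apply, Matrix.smul_apply, Matrix.one_apply_eq, smul_eq_mul,
    mul_one, psS_apply] at h2
  exact h2

theorem finrank_EU_Sc (hk : k ≠ 0) :
    (Module.finrank ℂ (EU (Sc k) N) : ℝ) = tt k N := by
  have : NeZero k := ⟨hk⟩
  have h1 := LinearMap.finrank_le_finrank_of_injective (toCs_inj (k := k) (N := N))
  have h2 := LinearMap.finrank_le_finrank_of_injective (ofCs_inj (k := k) (N := N))
  rw [le_antisymm h1 h2, finrank_Cm, Fintype.card_fin]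

end Run7.h975.CC
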