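import Pool.Agent.Run7.h975.CC.Defs
import Pool.Agent.N996.BP.DC

/-!
# Tensor powers: the commutant of the unitary group is spanned by the permutations
-/

set_option autoImplicit false
set_option linter.unusedSectionVars false

namespace Run7.h975.CC

open Matrix Finset

variable {k : ℕ} {ι : Type} [Fintype ι] [DecidableEq ι]

omit [DecidableEq ι] in
lemma tens_apply (x : ι → Mk k) (I J : ι → Fin k) : tens x I J = ∏ m, x m (I m) (J m) := rfl

lemma tens_mul (x y : ι → Mk k) : tens x * tens y = tens (fun m => x m * y m) := by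
  ext I J
  simp only [tens, Matrix.mul_apply, Finset.prod_univ_sum, Fintype.piFinset_univ,
    Finset.prod_mul_distrib]

lemma trace_tens (x : ι → Mk k) : (tens x).trace = ∏ m, (x m).trace := by
  simp only [Matrix.trace, tens, Matrix.diag_apply, Finset.prod_univ_sum, Fintype.piFinset_univ]

omit [DecidableEq ι] in
lemma tens_conjTranspose (x : ι → Mk k) : (tens x)ᴴ = tens (fun m => (x m)ᴴ) := by
  ext I J
  simp [tens, Matrix.conjTranspose_apply]

lemma tens_single (I J : ι → Fin k) :
    tens (fun m => Matrix.single (I m) (J m) (1 : ℂ)) = Matrix.single I J 1 := by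
  ext A B
  simp only [tens, Matrix.single_apply]
  by_cases h : I = A ∧ J = B
  · obtain ⟨rfl, rfl⟩ := h
    simp
  · rw [if_neg h]
    have : ∃ m, ¬ (I m = A m ∧ J m = B m) := by
      by_contra hc
      push Not at hc
      exact h ⟨funext fun m => (hc m).1, funext fun m => (hc m).2⟩
    obtain ⟨m, hm⟩ := this
    exact Finset.prod_eq_zero (Finset.mem_univ m) (if_neg hm)

lemma up_diagonal (v : Fin k → ℂ) :
    up ι (diagonal v) = diagonal (fun I : ι → Fin k => ∏ m, v (I m)) := by
  ext I J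
  rw [up, tens_apply]
  by_cases h : I = J
  · subst h
    simp
  · rw [diagonal_apply_ne _ h]
    obtain ⟨m, hm⟩ := Function.ne_iff.1 h
    exact Finset.prod_eq_zero (Finset.mem_univ m) (diagonal_apply_ne _ hm)

lemma up_mul (y z : Mk k) : up ι (y * z) = up ι y * up ι z := (tens_mul _ _).symm

lemma prod_content (v : Fin k → ℂ) (I : ι → Fin k) :
    ∏ m, v (I m) = ∏ j, v j ^ (univ.filter fun m => I m = j).card := by
  rw [← Finset.prod_fiberwise (s := univ) (g := I)]
  refine Finset.prod_congr rfl fun j _ => ?_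
  rw [← Finset.prod_const]
  refine Finset.prod_congr rfl fun m hm => ?_
  rw [(Finset.mem_filter.1 hm).2]

section comm

variable {Φ : Matrix (ι → Fin k) (ι → Fin k) ℂ}

lemma entry_zero (h : ∀ u ∈ unitaryGroup (Fin k) ℂ, Φ * up ι u = up ι u * Φ)
    (I J : ι → Fin k) (j : Fin k)
    (hj : (univ.filter fun m => I m = j).card ≠ (univ.filter fun m => J m = j).card) :
    Φ I J = 0 := by
  let n := Fintype.card ι
  let ζ : ℂ := Complex.exp (2 * Real.pi * Complex.I / ((n + 1 : ℕ) : ℂ))
  have hζ : IsPrimitiveRoot ζ (n + 1) := Complex.isPrimitiveRoot_exp (n + 1) (Nat.succ_ne_zero n)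
  have hnorm : ‖ζ‖ = 1 := hζ.norm'_eq_one (Nat.succ_ne_zero n)
  have hstar : star ζ * ζ = 1 := by
    have h1 := Complex.normSq_eq_conj_mul_self (z := ζ)
    rw [Complex.normSq_eq_norm_sq, hnorm] at h1
    rw [Complex.star_def, ← h1]
    simp
  have hu : diagonal (fun i : Fin k => if i = j then ζ else 1) ∈ unitaryGroup (Fin k) ℂ := by
    rw [Matrix.mem_unitaryGroup_iff', Matrix.star_eq_conjTranspose, Matrix.diagonal_conjTranspose,
      Matrix.diagonal_mul_diagonal, ← Matrix.diagonal_one]
    congr 1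
    funext i
    by_cases hi : i = j
    · simp only [Pi.star_apply, hi, if_true]
      exact hstar
    · simp [Pi.star_apply, hi]
  have h2 := congrFun (congrFun (h _ hu) I) J
  rw [up_diagonal, Matrix.mul_diagonal, Matrix.diagonal_mul] at h2
  have hval : ∀ A : ι → Fin k, (∏ m, if A m = j then ζ else 1) =
      ζ ^ (univ.filter fun m => A m = j).card := by
    intro A
    rw [Finset.prod_ite, Finset.prod_const, Finset.prod_const_one, mul_one]
  rw [hval, hval] at h2
  have h3 : Φ I J * (ζ ^ (univ.filter fun m => J m = j).card -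
      ζ ^ (univ.filter fun m => I m = j).card) = 0 := by linear_combination h2
  rcases mul_eq_zero.1 h3 with h4 | h4
  · exact h4
  · exfalso
    apply hj
    have hle : ∀ A : ι → Fin k, (univ.filter fun m => A m = j).card < n + 1 := fun A =>
      Nat.lt_succ_of_le (Finset.card_le_univ _)
    exact (hζ.pow_inj (hle J) (hle I) (sub_eq_zero.1 h4)).symm

lemma comm_diag (h : ∀ u ∈ unitaryGroup (Fin k) ℂ, Φ * up ι u = up ι u * Φ) (v : Fin k → ℂ) :
    Φ * up ι (diagonal v) = up ι (diagonal v) * Φ := by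
  rw [up_diagonal]
  ext I J
  rw [Matrix.mul_diagonal, Matrix.diagonal_mul]
  by_cases hc : ∀ j, (univ.filter fun m => I m = j).card = (univ.filter fun m => J m = j).card
  · rw [prod_content v I, prod_content v J, mul_comm]
    congr 1
    exact Finset.prod_congr rfl fun j _ => by rw [hc j]
  · push Not at hc
    obtain ⟨j, hj⟩ := hc
    rw [entry_zero h I J j hj, zero_mul, mul_zero]

lemma comm_mul {y z : Mk k} (hy : Φ * up ι y = up ι y * Φ) (hz : Φ * up ι z = up ι z * Φ) :
    Φ * up ι (y * z) = up ι (y * z) * Φ := by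
  rw [up_mul, ← mul_assoc, hy, mul_assoc, hz, mul_assoc]

lemma comm_herm (h : ∀ u ∈ unitaryGroup (Fin k) ℂ, Φ * up ι u = up ι u * Φ) {H : Mk k}
    (hH : H.IsHermitian) : Φ * up ι H = up ι H * Φ := by
  have h1 := hH.spectral_theorem
  rw [Unitary.conjStarAlgAut_apply] at h1
  rw [h1]
  refine comm_mul (comm_mul (h _ hH.eigenvectorUnitary.2) (comm_diag h _)) ?_
  exact h _ (star hH.eigenvectorUnitary).2

lemma comm_all (h : ∀ u ∈ unitaryGroup (Fin k) ℂ, Φ * up ι u = up ι u * Φ) (y : Mk k) :
    Φ * up ι y = up ι y * Φ := by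
  classical
  let H1 : Mk k := (1 / 2 : ℂ) • (y + yᴴ)
  let H2 : Mk k := (-Complex.I / 2 : ℂ) • (y - yᴴ)
  have hH1 : H1.IsHermitian := by
    simp only [H1, Matrix.IsHermitian, Matrix.conjTranspose_smul, Matrix.conjTranspose_add,
      Matrix.conjTranspose_conjTranspose]
    rw [add_comm y]
    congr 1
    simp
  have hH2 : H2.IsHermitian := by
    simp only [H2, Matrix.IsHermitian, Matrix.conjTranspose_smul, Matrix.conjTranspose_sub,
      Matrix.conjTranspose_conjTranspose]
    rw [← neg_sub y, smul_neg, ← neg_smul]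
    congr 1
    simp [neg_div]
  have hy : y = H1 + Complex.I • H2 := by
    simp only [H1, H2, smul_smul]
    have : Complex.I * (-Complex.I / 2) = 1 / 2 := by
      linear_combination (-1 / 2 : ℂ) * Complex.I_mul_I
    rw [this, ← smul_add]
    have h2 : y + yᴴ + (y - yᴴ) = (2 : ℂ) • y := by rw [two_smul]; abel
    rw [h2, smul_smul]
    norm_num
  have hreal : ∀ t : ℝ, Φ * up ι (H1 + (t : ℂ) • H2) = up ι (H1 + (t : ℂ) • H2) * Φ := by
    intro t
    refine comm_herm h ?_
    simp only [Matrix.IsHermitian, Matrix.conjTranspose_add, Matrix.conjTranspose_smul, hH1.eq,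
      hH2.eq]
    simp
  ext I J
  let p : (ι → Fin k) → (ι → Fin k) → Polynomial ℂ := fun K L =>
    ∏ m, (Polynomial.C (H1 (K m) (L m)) + Polynomial.X * Polynomial.C (H2 (K m) (L m)))
  have hp : ∀ (z : ℂ) K L, (p K L).eval z = up ι (H1 + z • H2) K L := by
    intro z K L
    simp only [p, Polynomial.eval_prod, Polynomial.eval_add, Polynomial.eval_mul,
      Polynomial.eval_C, Polynomial.eval_X, up, tens, Matrix.add_apply, Matrix.smul_apply,
      smul_eq_mul]
  let P : Polynomial ℂ := ∑ K, (Polynomial.C (Φ I K) * p K J) - ∑ K, (p I K * Polynomial.C (Φ K J))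
  have hP : ∀ z : ℂ, P.eval z = (Φ * up ι (H1 + z • H2) - up ι (H1 + z • H2) * Φ) I J := by
    intro z
    simp only [P, Polynomial.eval_sub, Polynomial.eval_finsetSum, Polynomial.eval_mul,
      Polynomial.eval_C, hp, Matrix.sub_apply, Matrix.mul_apply]
  have hP0 : P = 0 := by
    apply Polynomial.eq_zero_of_infinite_isRoot
    refine Set.Infinite.mono (s := Set.range (fun t : ℝ => (t : ℂ))) ?_
      (Set.infinite_range_of_injective Complex.ofReal_injective)
    rintro _ ⟨t, rfl⟩
    simp only [Set.mem_ofPred_eq, Polynomial.IsRoot.def, hP, hreal t, sub_self, Matrix.zero_apply]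
  have h3 := hP Complex.I
  rw [hP0, Polynomial.eval_zero, ← hy, Matrix.sub_apply] at h3
  exact (sub_eq_zero.1 h3.symm)

/-- the coefficient of the product of all variables in a product of linear forms -/
lemma coeff_perm (a : ι → ι → ℂ) :
    MvPolynomial.coeff (Finsupp.equivFunOnFinite.symm fun _ => 1)
      (∏ l, ∑ m, (MvPolynomial.X m * MvPolynomial.C (a m l) : MvPolynomial ι ℂ)) =
      ∑ σ : Equiv.Perm ι, ∏ l, a (σ l) l := by
  have hX : ∀ g : ι → ι, (∏ l, (MvPolynomial.X (g l) * MvPolynomial.C (a (g l) l) :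
      MvPolynomial ι ℂ)) = MvPolynomial.monomial (∑ l, Finsupp.single (g l) 1)
        (∏ l, a (g l) l) := by
    intro g
    rw [Finset.prod_mul_distrib, ← map_prod, mul_comm, MvPolynomial.monomial_eq,
      Finsupp.prod_fintype _ _ (fun i => pow_zero _)]
    congr 1
    simp only [Finsupp.coe_finsetSum, Finset.sum_apply]
    calc ∏ l, (MvPolynomial.X (g l) : MvPolynomial ι ℂ)
        = ∏ i, ∏ l ∈ univ.filter (fun l => g l = i), MvPolynomial.X (g l) :=
          (Finset.prod_fiberwise univ g _).symm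
      _ = _ := by
          refine Finset.prod_congr rfl fun i _ => ?_
          have h1 : ∑ c, (Finsupp.single (g c) 1 : ι →₀ ℕ) i =
              (univ.filter fun l => g l = i).card := by
            rw [Finset.card_filter]
            refine Finset.sum_congr rfl fun c _ => ?_
            rw [Finsupp.single_apply]
          rw [h1, ← Finset.prod_const]
          exact Finset.prod_congr rfl fun l hl => by rw [(Finset.mem_filter.1 hl).2]
  rw [Finset.prod_univ_sum, Fintype.piFinset_univ, MvPolynomial.coeff_sum]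
  simp only [hX, MvPolynomial.coeff_monomial]
  rw [← Finset.sum_filter]
  have hiff : ∀ g : ι → ι, (∑ l, Finsupp.single (g l) 1 = Finsupp.equivFunOnFinite.symm
      (fun _ : ι => 1)) ↔ Function.Bijective g := by
    intro g
    constructor
    · intro h
      rw [← Finite.surjective_iff_bijective]
      intro i
      have h1 := DFunLike.congr_fun h i
      rw [Finsupp.coe_finsetSum, Finset.sum_apply, Finsupp.equivFunOnFinite_symm_apply_apply] at h1
      by_contra hc
      push Not at hc
      rw [Finset.sum_eq_zero (fun l _ => by rw [Finsupp.single_apply, if_neg (hc l)])] at h1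
      exact zero_ne_one h1
    · intro h
      ext i
      rw [Finsupp.coe_finsetSum, Finset.sum_apply, Finsupp.equivFunOnFinite_symm_apply_apply]
      obtain ⟨l, hl⟩ := h.2 i
      rw [Finset.sum_eq_single l]
      · rw [Finsupp.single_apply, if_pos hl]
      · intro b _ hb
        rw [Finsupp.single_apply, if_neg]
        intro hbi
        exact hb (h.1 (hbi.trans hl.symm))
      · simp
  refine Finset.sum_bij (fun g hg => Equiv.ofBijective g ((hiff g).1 (Finset.mem_filter.1 hg).2))
    (fun _ _ => Finset.mem_univ _) (fun _ _ _ _ h => ?_) (fun b _ => ?_) (fun _ _ => rfl)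
  · exact congrArg (fun e : Equiv.Perm ι => (e : ι → ι)) h
  · exact ⟨b, Finset.mem_filter.2 ⟨Finset.mem_univ _, (hiff b).2 b.bijective⟩,
      Equiv.coe_fn_injective rfl⟩

lemma comm_sym (h : ∀ u ∈ unitaryGroup (Fin k) ℂ, Φ * up ι u = up ι u * Φ) (y : ι → Mk k) :
    Φ * (∑ σ : Equiv.Perm ι, tens (fun m => y (σ m))) =
      (∑ σ : Equiv.Perm ι, tens (fun m => y (σ m))) * Φ := by
  ext I J
  let F : (ι → Fin k) → (ι → Fin k) → MvPolynomial ι ℂ := fun K L =>
    ∏ l, ∑ m, (MvPolynomial.X m * MvPolynomial.C (y m (K l) (L l)))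
  have hF : ∀ (t : ι → ℂ) K L, MvPolynomial.eval t (F K L) = up ι (∑ m, t m • y m) K L := by
    intro t K L
    simp only [F, map_prod, map_sum, map_mul, MvPolynomial.eval_X, MvPolynomial.eval_C, up, tens,
      Matrix.sum_apply, Matrix.smul_apply, smul_eq_mul]
  let P : MvPolynomial ι ℂ := ∑ K, (MvPolynomial.C (Φ I K) * F K J) -
    ∑ K, (MvPolynomial.C (Φ K J) * F I K)
  have hP : P = 0 := by
    apply MvPolynomial.funext
    intro t
    simp only [P, map_sub, map_sum, map_mul, MvPolynomial.eval_C, hF, map_zero]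
    have h1 := congrFun (congrFun (comm_all h (∑ m, t m • y m)) I) J
    rw [Matrix.mul_apply, Matrix.mul_apply] at h1
    rw [h1, sub_eq_zero]
    exact Finset.sum_congr rfl fun _ _ => mul_comm _ _
  have h2 := congrArg (MvPolynomial.coeff (Finsupp.equivFunOnFinite.symm fun _ : ι => 1)) hP
  simp only [P, MvPolynomial.coeff_sub, MvPolynomial.coeff_sum, MvPolynomial.coeff_C_mul, F,
    coeff_perm, MvPolynomial.coeff_zero] at h2
  rw [Matrix.mul_apply, Matrix.mul_apply]
  simp only [Matrix.sum_apply, tens]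
  rw [← sub_eq_zero]
  rw [← h2]
  congr 1
  exact Finset.sum_congr rfl fun _ _ => mul_comm _ _

lemma comm_symm (h : ∀ u ∈ unitaryGroup (Fin k) ℂ, Φ * up ι u = up ι u * Φ)
    (X : Matrix (ι → Fin k) (ι → Fin k) ℂ)
    (hX : ∀ (σ : Equiv.Perm ι) I J, X (I ∘ σ) (J ∘ σ) = X I J) : Φ * X = X * Φ := by
  have hsum : ((Fintype.card (Equiv.Perm ι) : ℕ) : ℂ) • X = ∑ I, ∑ J, X I J •
      ∑ σ : Equiv.Perm ι, tens (fun m => Matrix.single (I (σ m)) (J (σ m)) (1 : ℂ)) := by
    ext A B
    simp only [Matrix.sum_apply, Matrix.smul_apply, smul_eq_mul, Finset.mul_sum]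
    have h1 : ∀ (I J : ι → Fin k) (σ : Equiv.Perm ι),
        X I J * tens (fun m => Matrix.single (I (σ m)) (J (σ m)) (1 : ℂ)) A B =
        if I = A ∘ ⇑σ⁻¹ ∧ J = B ∘ ⇑σ⁻¹ then X A B else 0 := by
      intro I J σ
      have h2 := tens_single (I ∘ σ) (J ∘ σ)
      simp only [Function.comp_apply] at h2
      rw [h2, Matrix.single_apply]
      have h3 : (I ∘ σ = A ∧ J ∘ σ = B) ↔ (I = A ∘ ⇑σ⁻¹ ∧ J = B ∘ ⇑σ⁻¹) := by
        constructor
        · rintro ⟨rfl, rfl⟩
          constructor <;> (funext m; simp)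
        · rintro ⟨rfl, rfl⟩
          constructor <;> (funext m; simp)
      by_cases h4 : I ∘ σ = A ∧ J ∘ σ = B
      · rw [if_pos h4, if_pos (h3.1 h4), mul_one, ← h4.1, ← h4.2, hX]
      · rw [if_neg h4, if_neg (fun h5 => h4 (h3.2 h5)), mul_zero]
    simp only [h1]
    have h6 : ∀ σ : Equiv.Perm ι, ∑ I : ι → Fin k, ∑ J : ι → Fin k,
        (if I = A ∘ ⇑σ⁻¹ ∧ J = B ∘ ⇑σ⁻¹ then X A B else 0) = X A B := by
      intro σ
      rw [Finset.sum_eq_single (A ∘ ⇑σ⁻¹)]
      · rw [Finset.sum_eq_single (B ∘ ⇑σ⁻¹)]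
        · simp
        · intro b _ hb
          exact if_neg fun hc => hb hc.2
        · simp
      · intro a _ ha
        exact Finset.sum_eq_zero fun x _ => if_neg fun hc => ha hc.1
      · simp
    have h7 : ∑ I : ι → Fin k, ∑ J : ι → Fin k, ∑ σ : Equiv.Perm ι,
        (if I = A ∘ ⇑σ⁻¹ ∧ J = B ∘ ⇑σ⁻¹ then X A B else 0) = ∑ σ : Equiv.Perm ι,
        ∑ I : ι → Fin k, ∑ J : ι → Fin k,
          (if I = A ∘ ⇑σ⁻¹ ∧ J = B ∘ ⇑σ⁻¹ then X A B else 0) := by
      rw [Finset.sum_comm]
      rw [Finset.sum_comm]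
      rw [Finset.sum_congr rfl fun I _ => Finset.sum_comm]
      rw [Finset.sum_comm]
    rw [h7, Finset.sum_congr rfl fun σ _ => h6 σ]
    simp
  have hc : ((Fintype.card (Equiv.Perm ι) : ℕ) : ℂ) ≠ 0 := by
    exact_mod_cast Fintype.card_ne_zero
  have h8 : Φ * (((Fintype.card (Equiv.Perm ι) : ℕ) : ℂ) • X) =
      (((Fintype.card (Equiv.Perm ι) : ℕ) : ℂ) • X) * Φ := by
    rw [hsum]
    simp only [Finset.mul_sum, Finset.sum_mul, mul_smul_comm, smul_mul_assoc]
    refine Finset.sum_congr rfl fun I _ => Finset.sum_congr rfl fun J _ => ?_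
    congr 1
    have h9 := comm_sym h (fun m => Matrix.single (I m) (J m) (1 : ℂ))
    rw [Finset.mul_sum, Finset.sum_mul] at h9
    exact h9
  rw [mul_smul_comm, smul_mul_assoc] at h8
  exact smul_right_injective _ hc h8

end comm

lemma pm_mul (σ τ : Equiv.Perm ι) : (pm σ : Matrix (ι → Fin k) (ι → Fin k) ℂ) * pm τ =
    pm (σ * τ) := by
  ext I J
  rw [Matrix.mul_apply, Finset.sum_eq_single (I ∘ σ)]
  · simp only [pm, if_true, one_mul, Equiv.Perm.coe_mul, Function.comp_assoc]
    rfl
  · intro b _ hb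
    simp [pm, hb]
  · simp

lemma pm_conjTranspose (σ : Equiv.Perm ι) : (pm σ : Matrix (ι → Fin k) (ι → Fin k) ℂ)ᴴ =
    pm σ⁻¹ := by
  ext I J
  rw [Matrix.conjTranspose_apply, pm, pm]
  have : (I = J ∘ σ) ↔ (J = I ∘ ⇑σ⁻¹) := by
    constructor
    · rintro rfl
      funext m
      simp
    · rintro rfl
      funext m
      simp
  by_cases h : I = J ∘ σ
  · rw [if_pos h, if_pos (this.1 h), star_one]
  · rw [if_neg h, if_neg (fun h' => h (this.2 h')), star_zero]

/-- the commutant of the tensor powers of unitary matrices is spanned by the permutations -/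
theorem mem_span_pm {Φ : Matrix (ι → Fin k) (ι → Fin k) ℂ}
    (h : ∀ u ∈ unitaryGroup (Fin k) ℂ, Φ * up ι u = up ι u * Φ) :
    Φ ∈ Submodule.span ℂ (Set.range (pm : Equiv.Perm ι → Matrix (ι → Fin k) (ι → Fin k) ℂ)) := by
  let G := Algebra.adjoin ℂ (Set.range (pm : Equiv.Perm ι → Matrix (ι → Fin k) (ι → Fin k) ℂ))
  have hstar : ∀ x ∈ G, xᴴ ∈ G := by
    intro x hx
    induction hx using Algebra.adjoin_induction with
    | mem x hx =>
      obtain ⟨σ, rfl⟩ := hx
      rw [pm_conjTranspose]
      exact Algebra.subset_adjoin ⟨_, rfl⟩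
    | algebraMap r =>
      rw [Algebra.algebraMap_eq_smul_one, Matrix.conjTranspose_smul, Matrix.conjTranspose_one]
      exact G.smul_mem G.one_mem _
    | add x y _ _ h1 h2 => rw [Matrix.conjTranspose_add]; exact G.add_mem h1 h2
    | mul x y _ _ h1 h2 => rw [Matrix.conjTranspose_mul]; exact G.mul_mem h2 h1
  have hmem : Φ ∈ G := by
    refine Pool.Agent.N996.BP.mem_of_commutes G 1 1 (one_mul 1) (fun x hx => ?_) Φ (fun x hx => ?_)
    · refine ⟨xᴴ, hstar x hx, ?_⟩
      simp
    · refine comm_symm h x fun σ I J => ?_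
      have h1 := congrFun (congrFun (hx (pm σ) (Algebra.subset_adjoin ⟨σ, rfl⟩)) I) (J ∘ σ)
      rw [Matrix.mul_apply, Matrix.mul_apply, Finset.sum_eq_single J,
        Finset.sum_eq_single (I ∘ σ)] at h1
      · simpa [pm] using h1.symm
      · intro b _ hb
        simp [pm, hb]
      · simp
      · intro b _ hb
        have : ¬ (J ∘ σ = b ∘ σ) := by
          intro hc
          apply hb
          funext m
          have := congrFun hc (σ⁻¹ m)
          simpa using this.symm
        simp [pm, this]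
      · simp
  clear h
  induction hmem using Algebra.adjoin_induction with
  | mem x hx => exact Submodule.subset_span hx
  | algebraMap r =>
    rw [Algebra.algebraMap_eq_smul_one]
    refine Submodule.smul_mem _ _ (Submodule.subset_span ⟨1, ?_⟩)
    ext I J
    simp only [pm, Equiv.Perm.coe_one, Function.comp_id, Matrix.one_apply]
    by_cases hIJ : I = J
    · rw [if_pos hIJ, if_pos hIJ.symm]
    · rw [if_neg hIJ, if_neg (fun h' => hIJ h'.symm)]
  | add x y _ _ h1 h2 => exact Submodule.add_mem _ h1 h2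
  | mul x y _ _ h1 h2 =>
    have h3 := Submodule.mul_mem_mul h1 h2
    rw [Submodule.span_mul_span] at h3
    refine Submodule.span_mono ?_ h3
    rintro _ ⟨_, ⟨σ, rfl⟩, _, ⟨τ, rfl⟩, rfl⟩
    exact ⟨σ * τ, (pm_mul σ τ).symm⟩

end Run7.h975.CC
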