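import Pool.Agent.Run7.h975.CC.Words
import Pool.Agent.Run7.h975.CC.Tens

/-!
# Equivariant multilinear functions are mixed trace functions
-/

set_option autoImplicit false
set_option linter.unusedSectionVars false

namespace Run7.h975.CC

open Matrix Finset

variable {k : ℕ}

/-- the trace function of a permutation -/
def SS {β : Type} [Fintype β] [DecidableEq β] (σ : Equiv.Perm β) (x : β → Mk k) : ℂ :=
  ∑ I : β → Fin k, ∏ m, x m (I (σ m)) (I m)

lemma trace_pm_tens {β : Type} [Fintype β] [DecidableEq β] (σ : Equiv.Perm β) (x : β → Mk k) :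
    (pm σ * tens x).trace = SS σ x := by
  simp only [Matrix.trace, Matrix.diag_apply, Matrix.mul_apply, SS]
  refine Finset.sum_congr rfl fun I _ => ?_
  rw [Finset.sum_eq_single (I ∘ σ)]
  · simp [pm, tens]
  · intro b _ hb
    simp [pm, hb]
  · simp

lemma SS_equiv {α β : Type} [Fintype α] [DecidableEq α] [Fintype β] [DecidableEq β] (e : α ≃ β)
    (σ : Equiv.Perm β) (x : β → Mk k) :
    SS σ x = SS ((e.trans σ).trans e.symm) (fun a => x (e a)) := by
  refine Fintype.sum_equiv (e.symm.arrowCongr (Equiv.refl _)) _ _ fun I => ?_
  rw [← Equiv.prod_comp e]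
  refine Finset.prod_congr rfl fun a _ => ?_
  simp

lemma sum_option_fun {β : Type} [Fintype β] [DecidableEq β] {M : Type} [AddCommMonoid M]
    (F : (Option β → Fin k) → M) :
    ∑ I, F I = ∑ i, ∑ I' : β → Fin k, F (fun o => o.elim i I') := by
  rw [← (Equiv.piOptionEquivProd (β := fun _ : Option β => Fin k)).symm.sum_comp,
    Fintype.sum_prod_type]
  refine Finset.sum_congr rfl fun i _ => Finset.sum_congr rfl fun I' _ => ?_
  congr 1
  funext o
  cases o <;> rfl

lemma SS_none {β : Type} [Fintype β] [DecidableEq β] (σ : Equiv.Perm (Option β))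
    (h : σ none = none) (x : Option β → Mk k) :
    SS σ x = (x none).trace * SS (Equiv.removeNone σ) (fun m => x (some m)) := by
  have h1 : ∀ m, σ (some m) = some (Equiv.removeNone σ m) := by
    intro m
    rw [Equiv.removeNone_some]
    have : σ (some m) ≠ none := by
      intro hc
      rw [← h] at hc
      exact Option.some_ne_none _ (σ.injective hc)
    exact Option.ne_none_iff_exists'.1 this
  rw [SS, sum_option_fun]
  simp only [Fintype.prod_option, h, h1, Option.elim_none, Option.elim_some]
  rw [SS, Matrix.trace, Finset.sum_mul]
  refine Finset.sum_congr rfl fun i _ => ?_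
  rw [Matrix.diag_apply, Finset.mul_sum]

lemma SS_some {β : Type} [Fintype β] [DecidableEq β] (σ : Equiv.Perm (Option β)) {a b : β}
    (h : σ none = some b) (h' : σ (some a) = none) (x : Option β → Mk k) :
    SS σ x = SS (Equiv.removeNone σ)
      (Function.update (fun m => x (some m)) a (x none * x (some a))) := by
  have ha : Equiv.removeNone σ a = b := by
    have := Equiv.removeNone_none σ h'
    rw [h] at this
    exact Option.some_injective _ this
  have h1 : ∀ m, m ≠ a → σ (some m) = some (Equiv.removeNone σ m) := by
    intro m hm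
    rw [Equiv.removeNone_some]
    have : σ (some m) ≠ none := by
      intro hc
      rw [← h'] at hc
      exact hm (Option.some_injective _ (σ.injective hc))
    exact Option.ne_none_iff_exists'.1 this
  rw [SS, sum_option_fun, Finset.sum_comm, SS]
  refine Finset.sum_congr rfl fun I _ => ?_
  have h2 : ∀ i : Fin k, (∏ m, x m ((fun o : Option β => o.elim i I) (σ m))
      ((fun o : Option β => o.elim i I) m)) =
      (x none (I b) i * x (some a) i (I a)) *
        ∏ m ∈ univ.erase a, x (some m) (I (Equiv.removeNone σ m)) (I m) := by
    intro i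
    rw [Fintype.prod_option, ← Finset.mul_prod_erase univ _ (Finset.mem_univ a), h, h', mul_assoc]
    simp only [Option.elim_none, Option.elim_some]
    congr 2
    refine Finset.prod_congr rfl fun m hm => ?_
    rw [h1 m (Finset.ne_of_mem_erase hm)]
    simp
  rw [Finset.sum_congr rfl fun i _ => h2 i, ← Finset.sum_mul,
    ← Finset.mul_prod_erase univ _ (Finset.mem_univ a), Function.update_self, ha, Matrix.mul_apply]
  congr 1
  refine Finset.prod_congr rfl fun m hm => ?_
  rw [Function.update_of_ne (Finset.ne_of_mem_erase hm)]

lemma cyc {κ : Type} : ∀ (n : ℕ) (β : Type) [Fintype β] [DecidableEq β], Fintype.card β = n →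
    ∀ (b0 : β) (σ : Equiv.Perm β) (w : β → Fn k κ), (∀ m, m ≠ b0 → w m ∈ RR k κ) →
      ∃ g ∈ EE k κ, ∀ x y, SS σ (fun m => if m = b0 then y else w m x) = (g x * y).trace := by
  intro n
  induction n with
  | zero =>
    intro β _ _ hc b0
    have : Nonempty β := ⟨b0⟩
    exact absurd hc Fintype.card_ne_zero
  | succ n ih =>
    intro β _ _ hc b0 σ w hw
    rcases Nat.eq_zero_or_pos n with hn | hn
    · subst hn
      refine ⟨1, RR_le_EE (RR k κ).one_mem, fun x y => ?_⟩
      have hsub : Subsingleton β := Fintype.card_le_one_iff_subsingleton.1 hc.le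
      let _ : Unique β := ⟨⟨b0⟩, fun b => Subsingleton.elim _ _⟩
      have hall : ∀ b : β, b = b0 := fun b => Subsingleton.elim _ _
      rw [SS]
      have h1 : ∀ I : β → Fin k, ∏ m, (if m = b0 then y else w m x) (I (σ m)) (I m) =
          y (I b0) (I b0) := by
        intro I
        rw [Fintype.prod_unique, if_pos (hall _), hall (σ _), hall default]
      simp only [h1, Pi.one_apply, one_mul, Matrix.trace, Matrix.diag_apply]
      refine Fintype.sum_equiv (Equiv.funUnique β (Fin k)) _ _ fun I => ?_
      rw [Equiv.funUnique_apply, hall default]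
    · obtain ⟨b1, hb1⟩ := Fintype.exists_ne_of_one_lt_card (by omega : 1 < Fintype.card β) b0
      -- the case of `Option`
      have main : ∀ (γ : Type) [Fintype γ] [DecidableEq γ], Fintype.card γ = n → ∀ (c0 : γ)
          (τ : Equiv.Perm (Option γ)) (v : Option γ → Fn k κ),
          (∀ m, m ≠ some c0 → v m ∈ RR k κ) →
          ∃ g ∈ EE k κ, ∀ x y, SS τ (fun m => if m = some c0 then y else v m x) =
            (g x * y).trace := by
        intro γ _ _ hγ c0 τ v hv
        have hvn : v none ∈ RR k κ := hv none (by simp)
        by_cases hτ : τ none = none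
        · obtain ⟨g, hg, hgx⟩ := ih γ hγ c0 (Equiv.removeNone τ) (fun m => v (some m))
            (fun m hm => hv (some m) (by simpa using hm))
          refine ⟨fun x => (v none x).trace • g x, EE_smul (trace_mem (RR_le_EE hvn)) hg,
            fun x y => ?_⟩
          rw [SS_none τ hτ]
          simp only [Option.some.injEq, hgx, smul_mul_assoc, Matrix.trace_smul, smul_eq_mul]
          rw [if_neg (by simp)]
        · obtain ⟨b, hb⟩ := Option.ne_none_iff_exists'.1 hτ
          obtain ⟨a', ha'⟩ := τ.surjective none
          have hane : a' ≠ none := by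
            rintro rfl
            exact hτ ha'
          obtain ⟨a, rfl⟩ := Option.ne_none_iff_exists'.1 hane
          by_cases hac : a = c0
          · subst hac
            obtain ⟨g, hg, hgx⟩ := ih γ hγ a (Equiv.removeNone τ) (fun m => v (some m))
              (fun m hm => hv (some m) (by simpa using hm))
            refine ⟨g * v none, EE_mul hg (RR_le_EE hvn), fun x y => ?_⟩
            rw [SS_some τ hb ha']
            have h2 := hgx x (v none x * y)
            rw [Pi.mul_apply, mul_assoc, ← h2]
            congr 1
            funext m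
            by_cases hm : m = a
            · subst hm
              simp
            · simp [hm]
          · obtain ⟨g, hg, hgx⟩ := ih γ hγ c0 (Equiv.removeNone τ)
              (Function.update (fun m => v (some m)) a (v none * v (some a))) (fun m hm => by
                by_cases hma : m = a
                · subst hma
                  rw [Function.update_self]
                  exact (RR k κ).mul_mem hvn (hv (some m) (by simpa using hac))
                · rw [Function.update_of_ne hma]
                  exact hv (some m) (by simpa using hm))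
            refine ⟨g, hg, fun x y => ?_⟩
            rw [SS_some τ hb ha', ← hgx]
            congr 1
            funext m
            by_cases hm : m = a
            · subst hm
              simp [hac]
            · simp [Function.update_of_ne hm]
      -- transport
      let e : Option {b // b ≠ b1} ≃ β := Equiv.optionSubtypeNe b1
      have he0 : e.symm b0 = some ⟨b0, hb1.symm⟩ := Equiv.optionSubtypeNe_symm_of_ne hb1.symm
      have hcard : Fintype.card {b // b ≠ b1} = n := by
        have h1 := Fintype.card_congr e
        rw [Fintype.card_option, hc] at h1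
        omega
      have hiff : ∀ m, e m = b0 ↔ m = some ⟨b0, hb1.symm⟩ := by
        intro m
        rw [← he0, Equiv.eq_symm_apply]
      obtain ⟨g, hg, hgx⟩ := main {b // b ≠ b1} hcard ⟨b0, hb1.symm⟩ ((e.trans σ).trans e.symm)
        (fun m => w (e m)) (fun m hm => hw _ (fun h => hm ((hiff m).1 h)))
      refine ⟨g, hg, fun x y => ?_⟩
      rw [SS_equiv e, ← hgx]
      congr 1
      funext m
      by_cases hm : e m = b0
      · rw [if_pos hm, if_pos ((hiff m).1 hm)]
      · rw [if_neg hm, if_neg (fun h => hm ((hiff m).2 h))]

/-- expansion of a multilinear function in matrix units -/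
lemma ml_expand {ι : Type} [Fintype ι] [DecidableEq ι] {W : Type} [AddCommGroup W] [Module ℂ W]
    (f : MultilinearMap ℂ (fun _ : ι => Mk k) W) (x : ι → Mk k) :
    f x = ∑ v : ι → Fin k × Fin k, (∏ m, x m (v m).1 (v m).2) •
      f (fun m => Matrix.single (v m).1 (v m).2 1) := by
  have h1 : x = fun m => ∑ p : Fin k × Fin k, (x m p.1 p.2) • Matrix.single p.1 p.2 (1 : ℂ) := by
    funext m
    conv_lhs => rw [Matrix.matrix_eq_sum_single (x m)]
    rw [Fintype.sum_prod_type]
    refine Finset.sum_congr rfl fun i _ => Finset.sum_congr rfl fun j _ => ?_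
    rw [Matrix.smul_single, smul_eq_mul, mul_one]
  conv_lhs => rw [h1]
  rw [MultilinearMap.map_sum]
  refine Finset.sum_congr rfl fun v _ => ?_
  rw [MultilinearMap.map_smul_univ]

lemma eq_of_trace {A B : Mk k} (h : ∀ y : Mk k, (A * y).trace = (B * y).trace) : A = B := by
  ext i j
  have := h (Matrix.single j i 1)
  simpa [Matrix.trace_mul_single] using this

/-- pairing of a tensor with a multilinear function -/
def phi {ι : Type} [Fintype ι] (f : ML k ι) :
    Matrix (Option ι → Fin k) (Option ι → Fin k) ℂ :=
  fun A B => f (fun m => Matrix.single (B (some m)) (A (some m)) 1) (A none) (B none)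

lemma phi_trace {ι : Type} [Fintype ι] [DecidableEq ι] (f : ML k ι) (x : ι → Mk k) (y : Mk k) :
    (phi f * tens (fun o : Option ι => o.elim y x)).trace = (f x * y).trace := by
  have hR : (f x * y).trace = ∑ i, ∑ j, f x i j * y j i := by
    simp only [Matrix.trace, Matrix.diag_apply, Matrix.mul_apply]
  rw [hR]
  simp only [Matrix.trace, Matrix.diag_apply, Matrix.mul_apply]
  rw [sum_option_fun]
  refine Finset.sum_congr rfl fun i _ => ?_
  have h1 : ∀ A' : ι → Fin k, ∑ B : Option ι → Fin k,
      phi f (fun o => o.elim i A') B * tens (fun o : Option ι => o.elim y x) B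
        (fun o => o.elim i A') = ∑ j, ∑ B' : ι → Fin k,
        f (fun m => Matrix.single (B' m) (A' m) 1) i j * (y j i * ∏ m, x m (B' m) (A' m)) := by
    intro A'
    rw [sum_option_fun]
    refine Finset.sum_congr rfl fun j _ => Finset.sum_congr rfl fun B' _ => ?_
    simp only [phi, tens, Fintype.prod_option, Option.elim_none, Option.elim_some]
  rw [Finset.sum_congr rfl fun A' _ => h1 A', Finset.sum_comm]
  refine Finset.sum_congr rfl fun j _ => ?_
  rw [ml_expand f x, Matrix.sum_apply, Finset.sum_mul,
    ← (Equiv.arrowProdEquivProdArrow ι (fun _ => Fin k) (fun _ => Fin k)).symm.sum_comp,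
    Fintype.sum_prod_type, Finset.sum_comm]
  refine Finset.sum_congr rfl fun A' _ => Finset.sum_congr rfl fun B' _ => ?_
  simp only [Equiv.arrowProdEquivProdArrow, Equiv.coe_fn_symm_mk, Matrix.smul_apply, smul_eq_mul]
  ring

lemma eq_zero_of_tens {β : Type} [Fintype β] [DecidableEq β]
    {M : Matrix (β → Fin k) (β → Fin k) ℂ} (h : ∀ z : β → Mk k, (M * tens z).trace = 0) :
    M = 0 := by
  ext J I
  have h1 := h (fun m => Matrix.single (I m) (J m) 1)
  rw [tens_single, Matrix.trace_mul_single] at h1
  simpa using h1

lemma up_star_mul {β : Type} [Fintype β] [DecidableEq β] {u : Mk k}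
    (hu : u ∈ unitaryGroup (Fin k) ℂ) : up β (star u) * up β u = 1 := by
  rw [← up_mul, Matrix.mem_unitaryGroup_iff'.1 hu]
  have h := up_diagonal (ι := β) (fun _ : Fin k => (1 : ℂ))
  simpa using h

lemma up_mul_star {β : Type} [Fintype β] [DecidableEq β] {u : Mk k}
    (hu : u ∈ unitaryGroup (Fin k) ℂ) : up β u * up β (star u) = 1 := by
  rw [← up_mul, Matrix.mem_unitaryGroup_iff.1 hu]
  have h := up_diagonal (ι := β) (fun _ : Fin k => (1 : ℂ))
  simpa using h

/-- a tensor whose pairing with decomposable tensors is invariant commutes with the unitary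
group -/
lemma comm_of_inv {β : Type} [Fintype β] [DecidableEq β]
    {M : Matrix (β → Fin k) (β → Fin k) ℂ}
    (h : ∀ u ∈ unitaryGroup (Fin k) ℂ, ∀ z : β → Mk k,
      (M * tens (fun m => u * z m * star u)).trace = (M * tens z).trace)
    (u : Mk k) (hu : u ∈ unitaryGroup (Fin k) ℂ) : M * up β u = up β u * M := by
  have h1 : up β (star u) * M * up β u - M = 0 := by
    apply eq_zero_of_tens
    intro z
    have h2 := h u hu z
    rw [← tens_mul, ← tens_mul] at h2
    change (M * (up β u * tens z * up β (star u))).trace = _ at h2
    rw [sub_mul, Matrix.trace_sub, ← h2, sub_eq_zero]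
    have h3 : M * (up β u * tens z * up β (star u)) = (M * up β u * tens z) * up β (star u) := by
      simp only [mul_assoc]
    rw [h3, Matrix.trace_mul_comm (M * up β u * tens z)]
    simp only [mul_assoc]
  have h4 : up β (star u) * M * up β u = M := sub_eq_zero.1 h1
  calc M * up β u = 1 * (M * up β u) := (one_mul _).symm
    _ = up β u * (up β (star u) * M * up β u) := by
        rw [← up_mul_star hu]
        simp only [mul_assoc]
    _ = up β u * M := by rw [h4]

lemma phi_comm {ι : Type} [Fintype ι] [DecidableEq ι] (f : ML k ι) (hf : Equi (f : Fn k ι))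
    (u : Mk k) (hu : u ∈ unitaryGroup (Fin k) ℂ) :
    phi f * up (Option ι) u = up (Option ι) u * phi f := by
  refine comm_of_inv (fun u hu z => ?_) u hu
  have h1 : (fun m => u * z m * star u) = fun o : Option ι => o.elim (u * z none * star u)
      (fun i => u * z (some i) * star u) := by
    funext o
    cases o <;> rfl
  have h2 : z = fun o : Option ι => o.elim (z none) (fun i => z (some i)) := by
    funext o
    cases o <;> rfl
  rw [h1, phi_trace]
  conv_rhs => rw [h2]
  rw [phi_trace, hf u hu]
  have h3 : star u * u = 1 := Matrix.mem_unitaryGroup_iff'.1 hu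
  calc (u * f (fun i => z (some i)) * star u * (u * z none * star u)).trace
      = ((u * f (fun i => z (some i)) * z none) * star u).trace := by
        congr 1
        calc _ = u * f (fun i => z (some i)) * (star u * u) * z none * star u := by
              simp only [mul_assoc]
          _ = _ := by rw [h3, mul_one]
    _ = (star u * (u * f (fun i => z (some i)) * z none)).trace := Matrix.trace_mul_comm _ _
    _ = _ := by
        congr 1
        calc _ = (star u * u) * f (fun i => z (some i)) * z none := by simp only [mul_assoc]
          _ = _ := by rw [h3, one_mul]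

/-- **First fundamental theorem**: a multilinear function of matrices which is equivariant under
the unitary group is a mixed trace polynomial. -/
theorem FFT {ι : Type} [Fintype ι] [DecidableEq ι] (f : ML k ι) (hf : Equi (f : Fn k ι)) :
    (f : Fn k ι) ∈ EE k ι := by
  obtain ⟨c, hc⟩ := (Submodule.mem_span_range_iff_exists_fun ℂ).1 (mem_span_pm (phi_comm f hf))
  have hex : ∀ σ : Equiv.Perm (Option ι), ∃ g ∈ EE k ι, ∀ x y,
      SS σ (fun o : Option ι => o.elim y x) = (g x * y).trace := by
    intro σ
    obtain ⟨g, hg, hgx⟩ := cyc (κ := ι) (k := k) _ (Option ι) rfl none σ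
      (fun o => o.elim 1 co) (fun m hm => by
        cases m with
        | none => exact absurd rfl hm
        | some i => exact co_mem i)
    refine ⟨g, hg, fun x y => ?_⟩
    rw [← hgx]
    congr 1
    funext o
    cases o with
    | none => simp
    | some i => simp [co]
  choose g hg hgx using hex
  have hfun : (f : Fn k ι) = ∑ σ, c σ • g σ := by
    funext x
    apply eq_of_trace
    intro y
    rw [← phi_trace, ← hc, Finset.sum_mul, Matrix.trace_sum, Finset.sum_apply, Finset.sum_mul,
      Matrix.trace_sum]
    refine Finset.sum_congr rfl fun σ _ => ?_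
    rw [smul_mul_assoc, Matrix.trace_smul, trace_pm_tens, hgx, Pi.smul_apply, smul_mul_assoc,
      Matrix.trace_smul]
  rw [hfun]
  exact Submodule.sum_mem _ fun σ _ => Submodule.smul_mem _ _ (hg σ)

end Run7.h975.CC
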