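import Pool.Agent.Run7.h975.CC.FFT

/-!
# Averages over the unitary group
-/

set_option autoImplicit false
set_option linter.unusedSectionVars false

namespace Run7.h975.CC

open Matrix Finset MeasureTheory TopologicalSpace

/-- the unitary group -/
abbrev UG (k : ℕ) := Matrix.unitaryGroup (Fin k) ℂ

lemma isCompact_UG (k : ℕ) : IsCompact (Matrix.unitaryGroup (Fin k) ℂ : Set (Mk k)) := by
  have h1 : IsCompact (Set.pi Set.univ fun _ : Fin k => Set.pi Set.univ
      fun _ : Fin k => Metric.closedBall (0 : ℂ) 1) :=
    isCompact_univ_pi fun _ => isCompact_univ_pi fun _ => isCompact_closedBall _ _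
  refine IsCompact.of_isClosed_subset h1 ?_ ?_
  · have h2 : (Matrix.unitaryGroup (Fin k) ℂ : Set (Mk k)) = {U | U * star U = 1} := by
      ext U
      exact Matrix.mem_unitaryGroup_iff
    rw [h2]
    exact isClosed_eq (continuous_id.matrix_mul (continuous_star.comp continuous_id))
      continuous_const
  · intro U hU i _ j _
    rw [mem_closedBall_zero_iff]
    exact entry_norm_bound_of_unitary hU i j

instance instCompactUG (k : ℕ) : CompactSpace (UG k) :=
  isCompact_iff_compactSpace.1 (isCompact_UG k)

instance instSCM (k : ℕ) : SecondCountableTopology (Mk k) :=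
  inferInstanceAs (SecondCountableTopology (Fin k → Fin k → ℂ))

instance instSCUG (k : ℕ) : SecondCountableTopology (UG k) :=
  TopologicalSpace.Subtype.secondCountableTopology _

noncomputable instance instMeasUG (k : ℕ) : MeasurableSpace (UG k) := borel _

instance instBorelUG (k : ℕ) : BorelSpace (UG k) := ⟨rfl⟩

/-- the normalised Haar measure -/
noncomputable def mu (k : ℕ) : Measure (UG k) := Measure.haarMeasure ⊤

instance instMuHaar (k : ℕ) : (mu k).IsHaarMeasure :=
  inferInstanceAs (Measure.IsHaarMeasure (Measure.haarMeasure ⊤))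

instance instMuProb (k : ℕ) : IsProbabilityMeasure (mu k) := by
  constructor
  have h := Measure.haarMeasure_self (G := UG k) (K₀ := ⊤)
  simpa [mu] using h

lemma integrable_of_cont {k : ℕ} {E : Type} [NormedAddCommGroup E] [NormedSpace ℝ E]
    {f : UG k → E} (hf : Continuous f) : Integrable f (mu k) := by
  obtain ⟨C, hC⟩ : ∃ C, ∀ w, ‖f w‖ ≤ C := by
    obtain ⟨C, hC⟩ := (isCompact_range hf).isBounded.exists_norm_le
    exact ⟨C, fun w => hC _ ⟨w, rfl⟩⟩
  exact Integrable.of_bound hf.aestronglyMeasurable C (Filter.Eventually.of_forall hC)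

variable {k : ℕ}

/-- entrywise integral of a matrix valued function -/
noncomputable def mint {m n : Type} (F : UG k → Matrix m n ℂ) : Matrix m n ℂ :=
  fun i j => ∫ u, F u i j ∂(mu k)

section mint

variable {m n l : Type}

lemma cont_entry {F : UG k → Matrix m n ℂ} (hF : Continuous F) (i : m) (j : n) :
    Continuous (fun u => F u i j) := hF.matrix_elem i j

lemma mint_add {F G : UG k → Matrix m n ℂ} (hF : Continuous F) (hG : Continuous G) :
    mint (fun u => F u + G u) = mint F + mint G := by
  ext i j
  exact integral_add (integrable_of_cont (cont_entry hF i j)) (integrable_of_cont (cont_entry hG i j))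

lemma mint_smul (c : ℂ) (F : UG k → Matrix m n ℂ) : mint (fun u => c • F u) = c • mint F := by
  ext i j
  exact integral_const_mul c _

lemma mint_const (A : Matrix m n ℂ) : mint (fun _ : UG k => A) = A := by
  ext i j
  simp [mint]

lemma mint_mul_left [Fintype m] (A : Matrix l m ℂ) {F : UG k → Matrix m n ℂ}
    (hF : Continuous F) : mint (fun u => A * F u) = A * mint F := by
  ext i j
  simp only [mint, Matrix.mul_apply]
  rw [integral_finsetSum _ fun c _ => (integrable_of_cont (cont_entry hF c j)).const_mul _]
  exact Finset.sum_congr rfl fun c _ => integral_const_mul _ _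

lemma mint_mul_right [Fintype n] (A : Matrix n l ℂ) {F : UG k → Matrix m n ℂ}
    (hF : Continuous F) : mint (fun u => F u * A) = mint F * A := by
  ext i j
  simp only [mint, Matrix.mul_apply]
  rw [integral_finsetSum _ fun c _ => (integrable_of_cont (cont_entry hF i c)).mul_const _]
  exact Finset.sum_congr rfl fun c _ => integral_mul_const _ _

lemma mint_shift (F : UG k → Matrix m n ℂ) (v : UG k) : mint (fun u => F (v * u)) = mint F := by
  ext i j
  exact integral_mul_left_eq_self (fun u => F u i j) v

end mint

lemma cont_coe : Continuous (fun u : UG k => (u : Mk k)) := continuous_subtype_val (p := _)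

lemma cont_star : Continuous (fun u : UG k => (star (u : Mk k) : Mk k)) :=
  (continuous_star (R := Mk k)).comp cont_coe

section avg

variable {ι : Type} [Fintype ι] [DecidableEq ι]

lemma ml_cont (f : ML k ι) : Continuous (f : (ι → Mk k) → Mk k) := by
  have h : (f : (ι → Mk k) → Mk k) = fun x => ∑ v : ι → Fin k × Fin k,
      (∏ m, x m (v m).1 (v m).2) • f (fun m => Matrix.single (v m).1 (v m).2 1) := by
    funext x
    exact ml_expand f x
  rw [h]
  refine continuous_finsetSum _ fun v _ => ?_
  have h1 : Continuous (fun x : ι → Mk k => ∏ m, x m (v m).1 (v m).2) :=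
    continuous_finsetProd _ fun m _ => (continuous_apply m).matrix_elem _ _
  exact h1.smul continuous_const

/-- the conjugated arguments -/
def cj (u : Mk k) (x : ι → Mk k) : ι → Mk k := fun i => star u * x i * u

lemma cont_cj (x : ι → Mk k) : Continuous (fun u : UG k => cj (u : Mk k) x) := by
  refine continuous_pi fun i => ?_
  exact (cont_star.matrix_mul continuous_const).matrix_mul cont_coe

lemma cont_avg (f : ML k ι) (x : ι → Mk k) :
    Continuous (fun u : UG k => (u : Mk k) * f (cj (u : Mk k) x) * star (u : Mk k)) :=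
  (cont_coe.matrix_mul ((ml_cont f).comp (cont_cj x))).matrix_mul cont_star

lemma cj_update (u : Mk k) (x : ι → Mk k) (i : ι) (a : Mk k) :
    cj u (Function.update x i a) = Function.update (cj u x) i (star u * a * u) := by
  funext j
  by_cases hj : j = i
  · subst hj
    simp [cj]
  · simp [cj, hj]

/-- the average of a multilinear function over the unitary group -/
noncomputable def avg (f : ML k ι) : ML k ι where
  toFun x := mint fun u : UG k => (u : Mk k) * f (cj (u : Mk k) x) * star (u : Mk k)
  map_update_add' := by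
    intro inst x i a b
    rw [← mint_add (cont_avg f _) (cont_avg f _)]
    congr 1
    funext u
    rw [cj_update, cj_update, cj_update, mul_add, add_mul, MultilinearMap.map_update_add, mul_add,
      add_mul]
  map_update_smul' := by
    intro inst x i c a
    rw [← mint_smul]
    congr 1
    funext u
    rw [cj_update, cj_update, mul_smul_comm, smul_mul_assoc, MultilinearMap.map_update_smul,
      mul_smul_comm, smul_mul_assoc]

lemma avg_apply (f : ML k ι) (x : ι → Mk k) :
    avg f x = mint fun u : UG k => (u : Mk k) * f (cj (u : Mk k) x) * star (u : Mk k) := rfl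

lemma avg_add (f g : ML k ι) : avg (f + g) = avg f + avg g := by
  refine MultilinearMap.ext fun x => ?_
  rw [avg_apply, _root_.add_apply, avg_apply, avg_apply, ← mint_add (cont_avg f _)
    (cont_avg g _)]
  congr 1
  funext u
  rw [_root_.add_apply, mul_add, add_mul]

lemma avg_smul (c : ℂ) (f : ML k ι) : avg (c • f) = c • avg f := by
  refine MultilinearMap.ext fun x => ?_
  rw [avg_apply, _root_.smul_apply, avg_apply, ← mint_smul]
  congr 1
  funext u
  rw [_root_.smul_apply, mul_smul_comm, smul_mul_assoc]

/-- the average as a linear map -/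
noncomputable def avgL : ML k ι →ₗ[ℂ] ML k ι where
  toFun := avg
  map_add' := avg_add
  map_smul' := avg_smul

lemma avg_equi (f : ML k ι) : Equi (avg f : Fn k ι) := by
  intro v hv x
  rw [avg_apply, avg_apply]
  let V : UG k := ⟨v, hv⟩
  have h3 : star v * v = 1 := Matrix.mem_unitaryGroup_iff'.1 hv
  rw [← mint_shift _ V, ← mint_mul_left v (cont_avg f x), ← mint_mul_right (star v)
    ((continuous_const.matrix_mul (cont_avg f x)))]
  congr 1
  funext u
  have h1 : ((V * u : UG k) : Mk k) = v * (u : Mk k) := rfl
  have h2 : cj ((V * u : UG k) : Mk k) (fun i => v * x i * star v) = cj (u : Mk k) x := by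
    funext i
    simp only [cj, h1, star_mul]
    calc star (u : Mk k) * star v * (v * x i * star v) * (v * (u : Mk k))
        = star (u : Mk k) * (star v * v) * x i * (star v * v) * (u : Mk k) := by
          simp only [mul_assoc]
      _ = _ := by rw [h3]; simp only [mul_one]
  rw [h2, h1, star_mul]
  simp only [mul_assoc]

lemma avg_of_equi {f : ML k ι} (hf : Equi (f : Fn k ι)) : avg f = f := by
  refine MultilinearMap.ext fun x => ?_
  rw [avg_apply]
  have h1 : (fun u : UG k => (u : Mk k) * f (cj (u : Mk k) x) * star (u : Mk k)) =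
      fun _ => f x := by
    funext u
    have h2 := hf (star (u : Mk k)) (star u).2 x
    rw [star_star] at h2
    rw [show cj (u : Mk k) x = fun i => star (u : Mk k) * x i * (u : Mk k) from rfl, h2]
    have h4 : (u : Mk k) * star (u : Mk k) = 1 := Matrix.mem_unitaryGroup_iff.1 u.2
    calc _ = ((u : Mk k) * star (u : Mk k)) * f x * ((u : Mk k) * star (u : Mk k)) := by
          simp only [mul_assoc]
      _ = _ := by rw [h4, one_mul, mul_one]
  rw [h1, mint_const]

end avg

/-! ### Moments of the trace -/

/-- the moments of the absolute value of the trace -/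
noncomputable def tt (k n : ℕ) : ℝ := ∫ u : UG k, (‖(u : Mk k).trace‖ ^ 2) ^ n ∂(mu k)

lemma cont_tr : Continuous (fun u : UG k => ‖(u : Mk k).trace‖ ^ 2) := by
  have : Continuous (fun u : UG k => (u : Mk k).trace) := cont_coe.matrix_trace
  exact this.norm.pow 2

lemma tr_le (u : UG k) : ‖(u : Mk k).trace‖ ^ 2 ≤ (k : ℝ) ^ 2 := by
  have h : ‖(u : Mk k).trace‖ ≤ k := by
    rw [Matrix.trace]
    refine (norm_sum_le _ _).trans ?_
    calc ∑ i, ‖(u : Mk k).diag i‖ ≤ ∑ _i : Fin k, (1 : ℝ) :=
          Finset.sum_le_sum fun i _ => entry_norm_bound_of_unitary u.2 i i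
      _ = k := by simp
  exact pow_le_pow_left₀ (norm_nonneg _) h 2

lemma int_pow (n : ℕ) : Integrable (fun u : UG k => (‖(u : Mk k).trace‖ ^ 2) ^ n) (mu k) :=
  integrable_of_cont (cont_tr.pow n)

lemma tt_nonneg (n : ℕ) : 0 ≤ tt k n := integral_nonneg fun u => by positivity

/-- the moments are logarithmically convex -/
lemma tt_sq_le (n : ℕ) : tt k (n + 1) ^ 2 ≤ tt k n * tt k (n + 2) := by
  have key : ∀ s : ℝ, 0 ≤ tt k (n + 2) - 2 * s * tt k (n + 1) + s ^ 2 * tt k n := by
    intro s
    have h1 : tt k (n + 2) - 2 * s * tt k (n + 1) + s ^ 2 * tt k n =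
        ∫ u : UG k, ((‖(u : Mk k).trace‖ ^ 2) ^ n * (‖(u : Mk k).trace‖ ^ 2 - s) ^ 2) ∂(mu k) := by
      have i1 : Integrable (fun u : UG k => (‖(u : Mk k).trace‖ ^ 2) ^ (n + 2) -
          2 * s * (‖(u : Mk k).trace‖ ^ 2) ^ (n + 1)) (mu k) :=
        (int_pow _).sub ((int_pow _).const_mul _)
      rw [tt, tt, tt, ← integral_const_mul, ← integral_const_mul,
        ← integral_sub (int_pow _) ((int_pow _).const_mul _),
        ← integral_add i1 ((int_pow _).const_mul _)]
      congr 1
      funext u
      ring
    rw [h1]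
    exact integral_nonneg fun u => by positivity
  rcases (tt_nonneg (k := k) n).eq_or_lt with h0 | h0
  · -- degenerate case
    rw [← h0, zero_mul]
    have h2 : tt k (n + 1) = 0 := by
      by_contra hne
      have h3 := key ((tt k (n + 2) + 1) / (2 * tt k (n + 1)))
      rw [← h0, mul_zero, add_zero] at h3
      have h4 : 2 * ((tt k (n + 2) + 1) / (2 * tt k (n + 1))) * tt k (n + 1) =
          tt k (n + 2) + 1 := by
        field_simp
      rw [h4] at h3
      linarith
    rw [h2]
    norm_num
  · have h3 := key (tt k (n + 1) / tt k n)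
    have h4 : tt k (n + 2) - 2 * (tt k (n + 1) / tt k n) * tt k (n + 1) +
        (tt k (n + 1) / tt k n) ^ 2 * tt k n = tt k (n + 2) - tt k (n + 1) ^ 2 / tt k n := by
      field_simp
      ring
    rw [h4] at h3
    have h5 : tt k (n + 1) ^ 2 / tt k n ≤ tt k (n + 2) := by linarith
    rw [div_le_iff₀ h0] at h5
    linarith

lemma tt_succ_le (n : ℕ) : tt k (n + 1) ≤ (k : ℝ) ^ 2 * tt k n := by
  rw [tt, tt, ← integral_const_mul]
  refine integral_mono (int_pow _) ((int_pow _).const_mul _) fun u => ?_
  change (‖(u : Mk k).trace‖ ^ 2) ^ (n + 1) ≤ (k : ℝ) ^ 2 * (‖(u : Mk k).trace‖ ^ 2) ^ n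
  rw [pow_succ, mul_comm]
  exact mul_le_mul_of_nonneg_right (tr_le u) (by positivity)

lemma tt_lower {r : ℝ} (hr0 : 0 ≤ r) (hr : r < (k : ℝ) ^ 2) : ∃ c : ℝ, 0 < c ∧
    ∀ n, c * r ^ n ≤ tt k n := by
  let S : Set (UG k) := {u | r < ‖(u : Mk k).trace‖ ^ 2}
  have hS : IsOpen S := isOpen_lt continuous_const cont_tr
  have hne : S.Nonempty := by
    refine ⟨1, ?_⟩
    change r < ‖((1 : UG k) : Mk k).trace‖ ^ 2
    have : ((1 : UG k) : Mk k).trace = k := by
      change (1 : Mk k).trace = k
      simp
    rw [this]
    simpa using hr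
  have hpos : 0 < (mu k).real S := by
    rw [measureReal_def, ENNReal.toReal_pos_iff]
    exact ⟨hS.measure_pos _ hne, measure_lt_top _ _⟩
  refine ⟨(mu k).real S, hpos, fun n => ?_⟩
  have h1 : ∫ u : UG k, S.indicator (fun _ => r ^ n) u ∂(mu k) = (mu k).real S * r ^ n := by
    rw [integral_indicator_const _ hS.measurableSet, smul_eq_mul]
  rw [← h1, tt]
  refine integral_mono ?_ (int_pow _) fun u => ?_
  · exact (integrable_const (r ^ n)).indicator hS.measurableSet
  · by_cases hu : u ∈ S
    · rw [Set.indicator_of_mem hu]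
      exact pow_le_pow_left₀ hr0 (le_of_lt hu) n
    · rw [Set.indicator_of_notMem hu]
      positivity

/-! ### The dimension of the commutant -/

section comm

variable {ι : Type} [Fintype ι] [DecidableEq ι]

/-- the commutant of the tensor powers of the unitary matrices -/
def Cm (k : ℕ) (ι : Type) [Fintype ι] [DecidableEq ι] :
    Submodule ℂ (Matrix (ι → Fin k) (ι → Fin k) ℂ) where
  carrier := {Φ | ∀ u ∈ unitaryGroup (Fin k) ℂ, Φ * up ι u = up ι u * Φ}
  add_mem' := by
    intro a b ha hb u hu
    rw [add_mul, mul_add, ha u hu, hb u hu]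
  zero_mem' := by
    intro u _
    rw [zero_mul, mul_zero]
  smul_mem' := by
    intro c a ha u hu
    rw [smul_mul_assoc, mul_smul_comm, ha u hu]

lemma cont_up : Continuous (fun u : UG k => up ι (u : Mk k)) := by
  refine continuous_matrix fun I J => ?_
  exact continuous_finsetProd _ fun m _ => cont_coe.matrix_elem _ _

lemma cont_up_star : Continuous (fun u : UG k => up ι (star (u : Mk k))) := by
  refine continuous_matrix fun I J => ?_
  exact continuous_finsetProd _ fun m _ => cont_star.matrix_elem _ _

/-- the projection on the commutant -/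
noncomputable def pj (k : ℕ) (ι : Type) [Fintype ι] [DecidableEq ι] :
    Matrix (ι → Fin k) (ι → Fin k) ℂ →ₗ[ℂ] Matrix (ι → Fin k) (ι → Fin k) ℂ where
  toFun Φ := mint fun u : UG k => up ι (u : Mk k) * Φ * up ι (star (u : Mk k))
  map_add' Φ Ψ := by
    rw [← mint_add ((cont_up.matrix_mul continuous_const).matrix_mul cont_up_star)
      ((cont_up.matrix_mul continuous_const).matrix_mul cont_up_star)]
    congr 1
    funext u
    rw [mul_add, add_mul]
  map_smul' c Φ := by
    rw [RingHom.id_apply, ← mint_smul]
    congr 1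
    funext u
    rw [mul_smul_comm, smul_mul_assoc]

lemma pj_isProj : LinearMap.IsProj (Cm k ι) (pj k ι) where
  map_mem Φ := by
    intro v hv
    change mint _ * up ι v = up ι v * mint _
    have hc : Continuous (fun u : UG k => up ι (u : Mk k) * Φ * up ι (star (u : Mk k))) :=
      (cont_up.matrix_mul continuous_const).matrix_mul cont_up_star
    rw [← mint_mul_left _ hc, ← mint_mul_right _ hc]
    let V : UG k := ⟨v, hv⟩
    rw [← mint_shift _ V]
    congr 1
    funext u
    have h1 : ((V * u : UG k) : Mk k) = v * (u : Mk k) := rfl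
    rw [h1, star_mul, up_mul, up_mul]
    simp only [mul_assoc]
    rw [up_star_mul hv, mul_one]
  map_id Φ hΦ := by
    change mint _ = Φ
    have h1 : (fun u : UG k => up ι (u : Mk k) * Φ * up ι (star (u : Mk k))) = fun _ => Φ := by
      funext u
      rw [← hΦ _ u.2, mul_assoc, up_mul_star u.2, mul_one]
    rw [h1, mint_const]

theorem finrank_Cm : (Module.finrank ℂ (Cm k ι) : ℝ) = tt k (Fintype.card ι) := by
  have h1 := LinearMap.IsProj.trace (pj_isProj (k := k) (ι := ι))
  have h2 : LinearMap.trace ℂ _ (pj k ι) = ((tt k (Fintype.card ι) : ℝ) : ℂ) := by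
    rw [LinearMap.trace_eq_matrix_trace ℂ (Matrix.stdBasis ℂ (ι → Fin k) (ι → Fin k)),
      Matrix.trace, Fintype.sum_prod_type]
    have h3 : ∀ A B : ι → Fin k, (LinearMap.toMatrix (Matrix.stdBasis ℂ (ι → Fin k) (ι → Fin k))
        (Matrix.stdBasis ℂ (ι → Fin k) (ι → Fin k)) (pj k ι)).diag (A, B) =
        ∫ u : UG k, up ι (u : Mk k) A A * up ι (star (u : Mk k)) B B ∂(mu k) := by
      intro A B
      rw [Matrix.diag_apply, LinearMap.toMatrix_apply, Matrix.stdBasis_eq_single]
      change (pj k ι (Matrix.single A B 1)) A B = _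
      change ∫ u : UG k, (up ι (u : Mk k) * Matrix.single A B (1 : ℂ) * up ι (star (u : Mk k))) A B
        ∂(mu k) = _
      congr 1
      funext u
      rw [Matrix.mul_apply, Finset.sum_eq_single B]
      · rw [Matrix.mul_apply, Finset.sum_eq_single A]
        · simp
        · intro c _ hc
          rw [Matrix.single_apply_of_ne _ _ _ _ _ (by tauto), mul_zero]
        · simp
      · intro c _ hc
        rw [Matrix.mul_apply, Finset.sum_eq_zero, zero_mul]
        intro e _
        rw [Matrix.single_apply_of_ne _ _ _ _ _ (by tauto), mul_zero]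
      · simp
    simp only [h3]
    have hint : ∀ A B : ι → Fin k, Integrable (fun u : UG k =>
        up ι (u : Mk k) A A * up ι (star (u : Mk k)) B B) (mu k) := fun A B =>
      integrable_of_cont ((cont_up.matrix_elem A A).mul (cont_up_star.matrix_elem B B))
    rw [Finset.sum_congr rfl fun A _ => (integral_finsetSum _ fun B _ => hint A B).symm,
      ← integral_finsetSum _ fun A _ => integrable_finsetSum _ fun B _ => hint A B, tt,
      ← integral_complex_ofReal]
    congr 1
    funext u
    have h4 : ∑ A : ι → Fin k, ∑ B : ι → Fin k, up ι (u : Mk k) A A * up ι (star (u : Mk k)) B B =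
        (up ι (u : Mk k)).trace * (up ι (star (u : Mk k))).trace := by
      rw [Matrix.trace, Matrix.trace, Finset.sum_mul_sum]
      rfl
    rw [h4, up, up, trace_tens, trace_tens, Finset.prod_const, Finset.prod_const, ← mul_pow,
      Finset.card_univ]
    push_cast
    congr 1
    have h5 : (star (u : Mk k)).trace = star ((u : Mk k).trace) := by
      rw [Matrix.star_eq_conjTranspose, Matrix.trace_conjTranspose]
    rw [h5, Complex.star_def, Complex.mul_conj, Complex.normSq_eq_norm_sq]
    push_cast
    rfl
  rw [h2] at h1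
  exact_mod_cast h1.symm

end comm

end Run7.h975.CC
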