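import Mathlib

/-!
# Codimensions do not depend on the field of characteristic zero
-/

set_option autoImplicit false
set_option linter.unusedSectionVars false

namespace Run7.h975.CC.Rank

open Matrix Finset

section gen

variable {ι κ : Type} (F : Type*) [Field F] [CharZero F]

lemma li_ext {J : Type} [Fintype J] {v : J → κ → ℚ} (hv : LinearIndependent ℚ v) :
    LinearIndependent F (fun j x => ((v j x : ℚ) : F)) := by
  rw [Fintype.linearIndependent_iff] at hv ⊢
  intro g hg j
  rw [← Module.forall_dual_apply_eq_zero_iff ℚ]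
  intro lam
  refine hv (fun i => lam (g i)) ?_ j
  funext x
  have h1 := congrFun hg x
  rw [Finset.sum_apply] at h1 ⊢
  have h2 := congrArg lam h1
  rw [map_sum] at h2
  simp only [Pi.zero_apply, map_zero] at h2 ⊢
  rw [← h2]
  refine Finset.sum_congr rfl fun i _ => ?_
  simp only [Pi.smul_apply, smul_eq_mul]
  rw [mul_comm (g i), ← Rat.smul_def, map_smul, smul_eq_mul, mul_comm]

theorem finrank_cast [Finite ι] (M : ι → κ → ℤ) :
    Module.finrank F (Submodule.span F (Set.range fun i => fun x => (M i x : F))) =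
      Module.finrank ℚ (Submodule.span ℚ (Set.range fun i => fun x => (M i x : ℚ))) := by
  obtain ⟨J, a, ha, hsp, hli⟩ := exists_linearIndependent' ℚ (fun i => fun x => (M i x : ℚ))
  have : Finite J := Finite.of_injective a ha
  have : Fintype J := Fintype.ofFinite J
  rw [← hsp, finrank_span_eq_card hli]
  have h1 := li_ext F hli
  have h2 : (fun j x => ((((fun i => fun x => (M i x : ℚ)) ∘ a) j x : ℚ) : F)) =
      (fun i => fun x => (M i x : F)) ∘ a := by
    funext j x
    simp
  rw [h2] at h1
  have h3 : Submodule.span F (Set.range ((fun i => fun x => (M i x : F)) ∘ a)) =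
      Submodule.span F (Set.range fun i => fun x => (M i x : F)) := by
    refine le_antisymm (Submodule.span_mono (Set.range_comp_subset_range _ _))
      (Submodule.span_le.2 ?_)
    rintro _ ⟨i, rfl⟩
    have h4 : (fun x => (M i x : ℚ)) ∈
        Submodule.span ℚ (Set.range ((fun i => fun x => (M i x : ℚ)) ∘ a)) := by
      rw [hsp]
      exact Submodule.subset_span ⟨i, rfl⟩
    obtain ⟨c, hc⟩ := (Submodule.mem_span_range_iff_exists_fun ℚ).1 h4
    refine (Submodule.mem_span_range_iff_exists_fun F).2 ⟨fun j => (c j : F), ?_⟩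
    funext x
    have h5 := congrArg (fun q : ℚ => (q : F)) (congrFun hc x)
    simp only [Finset.sum_apply, Pi.smul_apply, Function.comp_apply, smul_eq_mul, Rat.cast_sum,
      Rat.cast_mul, Rat.cast_intCast] at h5 ⊢
    exact h5
  rw [← h3, finrank_span_eq_card h1]

end gen

section inj

variable {F V W : Type*} [Field F] [AddCommGroup V] [Module F V] [AddCommGroup W] [Module F W]

lemma finrank_span_inj {J : Type} (T : V →ₗ[F] W) (hT : Function.Injective T) (g : J → V) :
    Module.finrank F (Submodule.span F (Set.range fun j => T (g j))) =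
      Module.finrank F (Submodule.span F (Set.range g)) := by
  have h1 : Submodule.span F (Set.range fun j => T (g j)) =
      (Submodule.span F (Set.range g)).map T := by
    rw [Submodule.map_span, ← Set.range_comp]
    rfl
  rw [h1]
  exact (Submodule.equivMapOfInjective T hT _).finrank_eq.symm

end inj

section mat

variable (F : Type*) [Field F] (k n : ℕ)

/-- index set for the coordinates of a multilinear function -/
abbrev Ix (k n : ℕ) : Type := (Fin n → Fin k × Fin k) × (Fin k × Fin k)

/-- matrices -/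
abbrev MF (F : Type*) (k : ℕ) := Matrix (Fin k) (Fin k) F

/-- multilinear functions -/
abbrev MM (F : Type*) [Field F] (k n : ℕ) :=
  MultilinearMap F (fun _ : Fin n => MF F k) (MF F k)

/-- coordinates of a multilinear function -/
def evL : MM F k n →ₗ[F] (Ix k n → F) where
  toFun f := fun q => f (fun m => Matrix.single (q.1 m).1 (q.1 m).2 1) q.2.1 q.2.2
  map_add' _ _ := rfl
  map_smul' _ _ := rfl

/-- the underlying function -/
def coL : MM F k n →ₗ[F] ((Fin n → MF F k) → MF F k) where
  toFun f := f
  map_add' _ _ := rfl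
  map_smul' _ _ := rfl

lemma coL_inj : Function.Injective (coL F k n) := fun _ _ h => MultilinearMap.coe_injective h

lemma evL_inj : Function.Injective (evL F k n) := by
  intro f g h
  refine Module.Basis.ext_multilinear (fun _ => Matrix.stdBasis F (Fin k) (Fin k)) fun v => ?_
  have h2 : (fun m => Matrix.stdBasis F (Fin k) (Fin k) (v m)) =
      fun m => Matrix.single (v m).1 (v m).2 1 :=
    funext fun m => Matrix.stdBasis_eq_single F (v m).1 (v m).2
  rw [h2]
  ext i j
  exact congrFun h (v, (i, j))

lemma finrank_fun {J : Type} (g : J → MM F k n) :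
    Module.finrank F (Submodule.span F (Set.range fun j => (g j : (Fin n → MF F k) → MF F k))) =
      Module.finrank F (Submodule.span F (Set.range fun j => evL F k n (g j))) := by
  rw [finrank_span_inj (evL F k n) (evL_inj F k n), ← finrank_span_inj (coL F k n) (coL_inj F k n)]
  rfl

/-- multilinear monomials -/
noncomputable def mm (σ : Equiv.Perm (Fin n)) : MM F k n :=
  (MultilinearMap.mkPiAlgebraFin F n (MF F k)).domDomCongr σ

lemma mm_apply (σ : Equiv.Perm (Fin n)) (x : Fin n → MF F k) :
    mm F k n σ x = (List.ofFn fun i => x (σ i)).prod := by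
  rw [mm, MultilinearMap.domDomCongr_apply, MultilinearMap.mkPiAlgebraFin_apply]

/-- trace free part -/
def LL : MF F k →ₗ[F] MF F k where
  toFun M := (k : F) • M - M.trace • 1
  map_add' A B := by
    rw [Matrix.trace_add, smul_add, add_smul]
    abel
  map_smul' c A := by
    rw [Matrix.trace_smul, RingHom.id_apply, smul_sub, smul_comm, smul_assoc]

variable {F} in
lemma LL_apply (A : MF F k) : LL F k A = (k : F) • A - A.trace • 1 := rfl

/-- integral monomials -/
def PZ (σ : Equiv.Perm (Fin n)) (v : Fin n → Fin k × Fin k) : Matrix (Fin k) (Fin k) ℤ :=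
  (List.ofFn fun m => Matrix.single (v (σ m)).1 (v (σ m)).2 (1 : ℤ)).prod

lemma PZ_cast (σ : Equiv.Perm (Fin n)) (v : Fin n → Fin k × Fin k) :
    (List.ofFn fun m => (Matrix.single (v (σ m)).1 (v (σ m)).2 1 : MF F k)).prod =
      (PZ k n σ v).map (Int.castRingHom F) := by
  have h := map_list_prod (Int.castRingHom F).mapMatrix
    (List.ofFn fun m => Matrix.single (v (σ m)).1 (v (σ m)).2 (1 : ℤ))
  rw [RingHom.mapMatrix_apply] at h
  rw [PZ, h, List.map_ofFn]
  congr 2
  funext m
  simp only [Function.comp_apply, RingHom.mapMatrix_apply]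
  rw [Matrix.map_single _ _ _ (Int.castRingHom F), map_one]

lemma evL_mm (σ : Equiv.Perm (Fin n)) :
    evL F k n (mm F k n σ) = fun q => ((PZ k n σ q.1 q.2.1 q.2.2 : ℤ) : F) := by
  funext q
  change mm F k n σ (fun m => Matrix.single (q.1 m).1 (q.1 m).2 1) q.2.1 q.2.2 = _
  rw [mm_apply, PZ_cast]
  rfl

/-- integral trace free monomials -/
def LZ (σ : Equiv.Perm (Fin n)) (v : Fin n → Fin k × Fin k) : Matrix (Fin k) (Fin k) ℤ :=
  (k : ℤ) • PZ k n σ v - (PZ k n σ v).trace • 1

lemma evL_LL (σ : Equiv.Perm (Fin n)) :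
    evL F k n ((LL F k).compMultilinearMap (mm F k n σ)) =
      fun q => ((LZ k n σ q.1 q.2.1 q.2.2 : ℤ) : F) := by
  funext q
  change LL F k (mm F k n σ (fun m => Matrix.single (q.1 m).1 (q.1 m).2 1)) q.2.1 q.2.2 = _
  rw [mm_apply, PZ_cast, LL_apply, LZ]
  have h1 : ((PZ k n σ q.1).map (Int.castRingHom F)).trace = ((PZ k n σ q.1).trace : ℤ) := by
    simp [Matrix.trace]
  rw [h1, Matrix.sub_apply, Matrix.smul_apply, Matrix.smul_apply, Matrix.sub_apply,
    Matrix.smul_apply, Matrix.smul_apply, Matrix.map_apply, Matrix.one_apply, Matrix.one_apply]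
  simp only [smul_eq_mul, eq_intCast]
  split_ifs <;> push_cast <;> ring

variable [CharZero F]

theorem den_eq : Module.finrank F (Submodule.span F (Set.range (fun σ : Equiv.Perm (Fin n) =>
    fun x : Fin n → Matrix (Fin k) (Fin k) F => (List.ofFn (fun i => x (σ i))).prod))) =
    Module.finrank ℚ (Submodule.span ℚ (Set.range fun σ : Equiv.Perm (Fin n) =>
      fun q : Ix k n => ((PZ k n σ q.1 q.2.1 q.2.2 : ℤ) : ℚ))) := by
  have h1 := finrank_fun F k n (mm F k n)
  have h2 : (fun σ => evL F k n (mm F k n σ)) =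
      fun σ => fun q : Ix k n => ((PZ k n σ q.1 q.2.1 q.2.2 : ℤ) : F) :=
    funext fun σ => evL_mm F k n σ
  rw [h2, finrank_cast F (fun σ => fun q : Ix k n => PZ k n σ q.1 q.2.1 q.2.2)] at h1
  rw [← h1]
  congr 4

theorem num_eq : Module.finrank F (Submodule.span F (Set.range (fun σ : Equiv.Perm (Fin n) =>
    fun x : Fin n → Matrix (Fin k) (Fin k) F => LL F k (List.ofFn (fun i => x (σ i))).prod))) =
    Module.finrank ℚ (Submodule.span ℚ (Set.range fun σ : Equiv.Perm (Fin n) =>
      fun q : Ix k n => ((LZ k n σ q.1 q.2.1 q.2.2 : ℤ) : ℚ))) := by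
  have h1 := finrank_fun F k n (fun σ => (LL F k).compMultilinearMap (mm F k n σ))
  have h2 : (fun σ => evL F k n ((LL F k).compMultilinearMap (mm F k n σ))) =
      fun σ => fun q : Ix k n => ((LZ k n σ q.1 q.2.1 q.2.2 : ℤ) : F) :=
    funext fun σ => evL_LL F k n σ
  rw [h2, finrank_cast F (fun σ => fun q : Ix k n => LZ k n σ q.1 q.2.1 q.2.2)] at h1
  rw [← h1]
  congr 4

lemma mem_center (M : MF F k) :
    M ∈ Subalgebra.toSubmodule (Subalgebra.center F (MF F k)) ↔ ∃ c : F, c • (1 : MF F k) = M := by
  rw [Subalgebra.mem_toSubmodule, Algebra.IsCentral.center_eq_bot, Algebra.mem_bot]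
  simp only [Set.mem_range, Algebra.algebraMap_eq_smul_one]

lemma ker_LL (hk : k ≠ 0) : LinearMap.ker (LL F k) =
    Subalgebra.toSubmodule (Subalgebra.center F (MF F k)) := by
  have hk' : (k : F) ≠ 0 := Nat.cast_ne_zero.2 hk
  ext M
  rw [LinearMap.mem_ker, mem_center, LL_apply, sub_eq_zero]
  constructor
  · intro h
    refine ⟨(k : F)⁻¹ * M.trace, ?_⟩
    rw [← smul_smul, ← h, smul_smul, inv_mul_cancel₀ hk', one_smul]
  · rintro ⟨c, rfl⟩
    rw [Matrix.trace_smul, Matrix.trace_one, Fintype.card_fin, smul_smul, smul_eq_mul, mul_comm]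

theorem quot_eq (hk : k ≠ 0) :
    Module.finrank F (Submodule.span F (Set.range (fun σ : Equiv.Perm (Fin n) =>
      fun x : Fin n → Matrix (Fin k) (Fin k) F =>
        Submodule.mkQ (Subalgebra.toSubmodule (Subalgebra.center F (Matrix (Fin k) (Fin k) F)))
          (List.ofFn (fun i => x (σ i))).prod))) =
    Module.finrank F (Submodule.span F (Set.range (fun σ : Equiv.Perm (Fin n) =>
      fun x : Fin n → Matrix (Fin k) (Fin k) F => LL F k (List.ofFn (fun i => x (σ i))).prod))) := by
  let C := Subalgebra.toSubmodule (Subalgebra.center F (Matrix (Fin k) (Fin k) F))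
  have hC : C ≤ LinearMap.ker (LL F k) := (ker_LL F k hk).ge
  let J : (MF F k ⧸ C) →ₗ[F] MF F k := C.liftQ (LL F k) hC
  have hJ : Function.Injective J := by
    rw [← LinearMap.ker_eq_bot]
    exact Submodule.ker_liftQ_eq_bot _ _ hC (ker_LL F k hk).le
  have hT : Function.Injective (J.compLeft (Fin n → MF F k)) := by
    intro f g h
    funext x
    exact hJ (congrFun h x)
  have h1 := finrank_span_inj (J.compLeft (Fin n → MF F k)) hT
    (fun σ : Equiv.Perm (Fin n) => fun x : Fin n → MF F k =>
      Submodule.mkQ C (List.ofFn (fun i => x (σ i))).prod)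
  exact h1.symm

end mat

end Run7.h975.CC.Rank
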