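import Pool.Agent.Run7.h975.CC.Dim
import Pool.Agent.Run7.h975.CC.Rank

/-!
# The ratio of central codimensions to codimensions
-/

set_option autoImplicit false
set_option linter.unusedSectionVars false

namespace Run7.h975.CC

open Matrix Finset Filter Topology

variable {k N : ℕ}

lemma PP_coe {f : Fn k (Fin N)} (hf : f ∈ PP k N) :
    ∃ g : ML k (Fin N), (g : Fn k (Fin N)) = f := by
  induction hf using Submodule.span_induction with
  | mem f hf =>
    obtain ⟨σ, rfl⟩ := hf
    exact ⟨Rank.mm ℂ k N σ, funext fun x => Rank.mm_apply ℂ k N σ x⟩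
  | zero => exact ⟨0, rfl⟩
  | add f g _ _ h1 h2 =>
    obtain ⟨a, rfl⟩ := h1
    obtain ⟨b, rfl⟩ := h2
    exact ⟨a + b, rfl⟩
  | smul c f _ h =>
    obtain ⟨a, rfl⟩ := h
    exact ⟨c • a, rfl⟩

lemma conj_prod {u : Mk k} (hu : u ∈ unitaryGroup (Fin k) ℂ) (l : List (Mk k)) :
    (l.map fun a => u * a * star u).prod = u * l.prod * star u := by
  induction l with
  | nil =>
    rw [List.map_nil, List.prod_nil, mul_one, Matrix.mem_unitaryGroup_iff.1 hu]
  | cons a l ih =>
    rw [List.map_cons, List.prod_cons, List.prod_cons, ih]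
    calc u * a * star u * (u * l.prod * star u) = u * a * (star u * u) * l.prod * star u := by
          simp only [mul_assoc]
      _ = _ := by
          rw [Matrix.mem_unitaryGroup_iff'.1 hu]
          simp only [mul_one, mul_assoc]

lemma PP_equi {f : Fn k (Fin N)} (hf : f ∈ PP k N) : Equi f := by
  induction hf using Submodule.span_induction with
  | mem f hf =>
    obtain ⟨σ, rfl⟩ := hf
    intro u hu x
    have h := conj_prod hu (List.ofFn fun i => x (σ i))
    rw [List.map_ofFn] at h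
    exact h
  | zero =>
    intro u hu x
    simp
  | add f g _ _ h1 h2 =>
    intro u hu x
    rw [Pi.add_apply, Pi.add_apply, h1 u hu x, h2 u hu x, mul_add, add_mul]
  | smul c f _ h =>
    intro u hu x
    rw [Pi.smul_apply, Pi.smul_apply, h u hu x, mul_smul_comm, smul_mul_assoc]

lemma GU_le (U : Submodule ℂ (Mk k)) : GU U N ≤ EU U N := fun _ hf => ⟨PP_equi hf.1, hf.2⟩

/-- the underlying function as an element of the span -/
def toPP : GU (⊤ : Submodule ℂ (Mk k)) N →ₗ[ℂ] PP k N where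
  toFun f := ⟨(f.1 : Fn k (Fin N)), f.2.1⟩
  map_add' _ _ := rfl
  map_smul' _ _ := rfl

lemma finrank_GU_top : Module.finrank ℂ (GU (⊤ : Submodule ℂ (Mk k)) N) =
    Module.finrank ℂ (PP k N) := by
  refine (LinearEquiv.ofBijective toPP ⟨?_, ?_⟩).finrank_eq
  · intro f g h
    exact Subtype.ext (MultilinearMap.coe_injective (congrArg Subtype.val h))
  · rintro ⟨f, hf⟩
    obtain ⟨g, rfl⟩ := PP_coe hf
    exact ⟨⟨g, hf, fun _ => Submodule.mem_top⟩, rfl⟩

/-- trace free parts of polynomial functions -/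
noncomputable def TL (k N : ℕ) : PP k N →ₗ[ℂ] Fn k (Fin N) :=
  ((Rank.LL ℂ k).compLeft (Fin N → Mk k)).domRestrict (PP k N)

lemma TL_apply (f : PP k N) (x : Fin N → Mk k) :
    TL k N f x = Rank.LL ℂ k ((f : Fn k (Fin N)) x) := rfl

lemma mem_ker_LL (hk : k ≠ 0) (A : Mk k) : Rank.LL ℂ k A = 0 ↔ A ∈ Sc k := by
  rw [← LinearMap.mem_ker, Rank.ker_LL ℂ k hk, Rank.mem_center, mem_Sc]

lemma finrank_ker (hk : k ≠ 0) : Module.finrank ℂ (LinearMap.ker (TL k N)) =
    Module.finrank ℂ (GU (Sc k) N) := by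
  let G : GU (Sc k) N →ₗ[ℂ] LinearMap.ker (TL k N) :=
    { toFun := fun f => ⟨⟨(f.1 : Fn k (Fin N)), f.2.1⟩, by
        rw [LinearMap.mem_ker]
        funext x
        rw [TL_apply]
        exact (mem_ker_LL hk _).2 (f.2.2 x)⟩
      map_add' := fun _ _ => rfl
      map_smul' := fun _ _ => rfl }
  refine (LinearEquiv.ofBijective G ⟨?_, ?_⟩).finrank_eq.symm
  · intro f g h
    have h1 := congrArg Subtype.val (congrArg Subtype.val h)
    exact Subtype.ext (MultilinearMap.coe_injective h1)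
  · rintro ⟨⟨f, hf⟩, hker⟩
    obtain ⟨g, rfl⟩ := PP_coe hf
    refine ⟨⟨g, hf, fun x => ?_⟩, rfl⟩
    rw [LinearMap.mem_ker] at hker
    exact (mem_ker_LL hk _).1 (congrFun hker x)

lemma finrank_range : Module.finrank ℂ (LinearMap.range (TL k N)) =
    Module.finrank ℂ (Submodule.span ℂ (Set.range (fun σ : Equiv.Perm (Fin N) =>
      fun x : Fin N → Matrix (Fin k) (Fin k) ℂ =>
        Rank.LL ℂ k (List.ofFn (fun i => x (σ i))).prod))) := by
  have h : LinearMap.range (TL k N) = Submodule.span ℂ (Set.range (fun σ : Equiv.Perm (Fin N) =>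
      fun x : Fin N → Matrix (Fin k) (Fin k) ℂ =>
        Rank.LL ℂ k (List.ofFn (fun i => x (σ i))).prod)) := by
    rw [TL, LinearMap.range_domRestrict, PP, Submodule.map_span, ← Set.range_comp]
    rfl
  rw [h]

lemma rank_nullity (hk : k ≠ 0) :
    Module.finrank ℂ (Submodule.span ℂ (Set.range (fun σ : Equiv.Perm (Fin N) =>
      fun x : Fin N → Matrix (Fin k) (Fin k) ℂ =>
        Rank.LL ℂ k (List.ofFn (fun i => x (σ i))).prod))) +
      Module.finrank ℂ (GU (Sc k) N) = Module.finrank ℂ (PP k N) := by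
  have : FiniteDimensional ℂ (PP k N) := FiniteDimensional.span_of_finite ℂ (Set.finite_range _)
  rw [← finrank_range, ← finrank_ker hk]
  exact LinearMap.finrank_range_add_finrank_ker _

/-! ### The limit -/

lemma limit_arg (t C D A : ℕ → ℝ) (ht : ∀ n, 0 < t n)
    (hconv : ∀ n, t (n + 1) ^ 2 ≤ t n * t (n + 2)) (hC1 : ∀ n, C n ≤ t (n + 1))
    (hC2 : ∀ n, t (n + 1) ≤ C n + A n) (hD1 : ∀ n, D n ≤ t n) (hD2 : ∀ n, t n ≤ D n + A n)
    (hA1 : Tendsto (fun n => A n / t n) atTop (𝓝 0))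
    (hA2 : Tendsto (fun n => A n / t (n + 1)) atTop (𝓝 0)) :
    (∃ l : ℝ, (∀ n, l ≤ t n / t (n + 1)) ∧ Tendsto (fun n => t n / t (n + 1)) atTop (𝓝 l) ∧
      Tendsto (fun n => D n / C n) atTop (𝓝 l)) ∧ ∀ᶠ n in atTop, C n ≠ 0 := by
  have hanti : Antitone fun n => t n / t (n + 1) := by
    refine antitone_nat_of_succ_le fun n => ?_
    rw [div_le_div_iff₀ (ht _) (ht _)]
    have := hconv n
    rw [pow_two] at this
    linarith
  have hbdd : BddBelow (Set.range fun n => t n / t (n + 1)) := by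
    refine ⟨0, ?_⟩
    rintro _ ⟨n, rfl⟩
    exact (div_pos (ht _) (ht _)).le
  have h1 := tendsto_atTop_ciInf hanti hbdd
  have h2 : Tendsto (fun n => D n / t n) atTop (𝓝 1) := by
    refine tendsto_of_tendsto_of_tendsto_of_le_of_le (g := fun n => 1 - A n / t n)
      (h := fun _ => 1) ?_ tendsto_const_nhds (fun n => ?_) (fun n => ?_)
    · simpa using tendsto_const_nhds.sub hA1
    · change 1 - A n / t n ≤ D n / t n
      rw [sub_le_iff_le_add, ← add_div, le_div_iff₀ (ht n), one_mul]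
      exact hD2 n
    · change D n / t n ≤ 1
      rw [div_le_one (ht n)]
      exact hD1 n
  have h3 : Tendsto (fun n => C n / t (n + 1)) atTop (𝓝 1) := by
    refine tendsto_of_tendsto_of_tendsto_of_le_of_le (g := fun n => 1 - A n / t (n + 1))
      (h := fun _ => 1) ?_ tendsto_const_nhds (fun n => ?_) (fun n => ?_)
    · simpa using tendsto_const_nhds.sub hA2
    · change 1 - A n / t (n + 1) ≤ C n / t (n + 1)
      rw [sub_le_iff_le_add, ← add_div, le_div_iff₀ (ht (n + 1)), one_mul]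
      exact hC2 n
    · change C n / t (n + 1) ≤ 1
      rw [div_le_one (ht (n + 1))]
      exact hC1 n
  have h4 : ∀ᶠ n in atTop, C n ≠ 0 := by
    have h5 := h3.eventually_ne (one_ne_zero)
    filter_upwards [h5] with n hn hc
    apply hn
    rw [hc, zero_div]
  have h6 := (h2.mul h1).div h3 one_ne_zero
  rw [one_mul, div_one] at h6
  refine ⟨⟨_, fun n => ciInf_le hbdd n, h1, h6.congr' ?_⟩, h4⟩
  filter_upwards [h4] with n hn
  have hn1 := (ht n).ne'
  have hn2 := (ht (n + 1)).ne'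
  simp only [Pi.div_apply]
  field_simp

lemma tendsto_aux (m : ℕ) {q : ℝ} (hq0 : 0 < q) (hq1 : q < 1) :
    Tendsto (fun n : ℕ => ((n : ℝ) + 1) ^ m * q ^ n) atTop (𝓝 0) := by
  have h1 := tendsto_pow_const_mul_const_pow_of_abs_lt_one m (r := q)
    (by rw [abs_of_pos hq0]; exact hq1)
  have h2 := (tendsto_add_atTop_iff_nat 1).2 h1
  have h3 := h2.mul_const q⁻¹
  rw [zero_mul] at h3
  refine h3.congr fun n => ?_
  push_cast
  rw [pow_succ q n]
  field_simp

lemma limit_value {t : ℕ → ℝ} {l K : ℝ} (hK : 0 < K) (ht : ∀ n, 0 < t n)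
    (hle : ∀ n, l ≤ t n / t (n + 1)) (hl : Tendsto (fun n => t n / t (n + 1)) atTop (𝓝 l))
    (hup : ∀ n, t (n + 1) ≤ K * t n)
    (hlow : ∀ r : ℝ, 0 ≤ r → r < K → ∃ c : ℝ, 0 < c ∧ ∀ n, c * r ^ n ≤ t n) : l = 1 / K := by
  refine le_antisymm ?_ ?_
  · by_contra hcon
    push Not at hcon
    have hl0 : 0 < l := lt_trans (by positivity) hcon
    have h1 : 1 / l < K := by
      rw [div_lt_iff₀ hl0]
      rw [div_lt_iff₀ hK] at hcon
      linarith
    obtain ⟨r, hr1, hr2⟩ := exists_between h1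
    have hr0 : 0 < r := lt_trans (by positivity) hr1
    obtain ⟨c, hc, hct⟩ := hlow r hr0.le hr2
    have h2 : ∀ n, t n * l ^ n ≤ t 0 := by
      intro n
      induction n with
      | zero => simp
      | succ n ih =>
        have h3 := hle n
        rw [le_div_iff₀ (ht _)] at h3
        calc t (n + 1) * l ^ (n + 1) = (l * t (n + 1)) * l ^ n := by ring
          _ ≤ t n * l ^ n := mul_le_mul_of_nonneg_right h3 (by positivity)
          _ ≤ t 0 := ih
    have h4 : 1 < r * l := by
      rwa [div_lt_iff₀ hl0] at hr1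
    obtain ⟨n, hn⟩ := pow_unbounded_of_one_lt (t 0 / c) h4
    rw [div_lt_iff₀ hc] at hn
    have h5 := hct n
    have h6 : c * r ^ n * l ^ n ≤ t n * l ^ n := mul_le_mul_of_nonneg_right h5 (by positivity)
    have h7 := h6.trans (h2 n)
    rw [mul_pow] at hn
    linarith
  · refine ge_of_tendsto' hl fun n => ?_
    rw [div_le_div_iff₀ hK (ht _)]
    have := hup n
    linarith

theorem main_limit (hk : 2 ≤ k) :
    (Tendsto (fun n => (Module.finrank ℂ (GU (Sc k) n) : ℝ) /
      (Module.finrank ℂ (PP k n) : ℝ)) atTop (𝓝 (1 / (k : ℝ) ^ 2))) ∧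
      ∀ᶠ n in atTop, (Module.finrank ℂ (PP k n) : ℝ) ≠ 0 := by
  have hk0 : k ≠ 0 := by omega
  obtain ⟨s, hs⟩ := finrank_EU_le hk0
  have hk2 : (4 : ℝ) ≤ (k : ℝ) ^ 2 := by
    have : (2 : ℝ) ≤ k := by exact_mod_cast hk
    nlinarith
  obtain ⟨c, hc, hct⟩ := tt_lower (k := k) (r := (k : ℝ) ^ 2 - 1 / 2) (by linarith) (by linarith)
  set r : ℝ := (k : ℝ) ^ 2 - 1 / 2 with hr
  have hr0 : 0 < r := by rw [hr]; linarith
  have htpos : ∀ n, 0 < tt k n := fun n => lt_of_lt_of_le (by positivity) (hct n)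
  set q : ℝ := ((k : ℝ) ^ 2 - 1) / r with hq
  have hq0 : 0 < q := div_pos (by linarith) hr0
  have hq1 : q < 1 := by
    rw [hq, div_lt_one hr0, hr]
    linarith
  have hav : ∀ n, ((av s n : ℕ) : ℝ) ≤ ((n : ℝ) + 1) ^ s.length * ((k : ℝ) ^ 2 - 1) ^ n := by
    intro n
    have hcard : Fintype.card (Fin k × Fin k) = k * k := by simp
    have h1 := av_le (L := Fin k × Fin k) (by rw [hcard]; nlinarith) s n
    rw [hcard] at h1
    have h2 : (1 : ℕ) ≤ k * k := by nlinarith
    have h3 : ((av s n : ℕ) : ℝ) ≤ (((n + 1) ^ s.length * (k * k - 1) ^ n : ℕ) : ℝ) := by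
      exact_mod_cast h1
    refine h3.trans (le_of_eq ?_)
    push_cast [Nat.cast_sub h2]
    ring
  have haux := tendsto_aux s.length hq0 hq1
  have hA0 : ∀ n, (0 : ℝ) ≤ ((av s n * k ^ 2 : ℕ) : ℝ) := fun n => Nat.cast_nonneg _
  have hb1 : ∀ n, ((av s n * k ^ 2 : ℕ) : ℝ) / tt k n ≤
      (k : ℝ) ^ 2 / c * (((n : ℝ) + 1) ^ s.length * q ^ n) := by
    intro n
    have hct' : 0 < c * r ^ n := by positivity
    calc ((av s n * k ^ 2 : ℕ) : ℝ) / tt k n ≤ ((av s n * k ^ 2 : ℕ) : ℝ) / (c * r ^ n) :=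
          div_le_div_of_nonneg_left (hA0 n) hct' (hct n)
      _ ≤ (((n : ℝ) + 1) ^ s.length * ((k : ℝ) ^ 2 - 1) ^ n * (k : ℝ) ^ 2) / (c * r ^ n) := by
          refine div_le_div_of_nonneg_right ?_ hct'.le
          push_cast
          exact mul_le_mul_of_nonneg_right (hav n) (by positivity)
      _ = _ := by
          rw [hq, div_pow]
          field_simp
  have hb2 : ∀ n, ((av s n * k ^ 2 : ℕ) : ℝ) / tt k (n + 1) ≤
      (k : ℝ) ^ 2 / c / r * (((n : ℝ) + 1) ^ s.length * q ^ n) := by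
    intro n
    have hct' : 0 < c * r ^ (n + 1) := by positivity
    calc ((av s n * k ^ 2 : ℕ) : ℝ) / tt k (n + 1) ≤
          ((av s n * k ^ 2 : ℕ) : ℝ) / (c * r ^ (n + 1)) :=
          div_le_div_of_nonneg_left (hA0 n) hct' (hct (n + 1))
      _ ≤ (((n : ℝ) + 1) ^ s.length * ((k : ℝ) ^ 2 - 1) ^ n * (k : ℝ) ^ 2) /
            (c * r ^ (n + 1)) := by
          refine div_le_div_of_nonneg_right ?_ hct'.le
          push_cast
          exact mul_le_mul_of_nonneg_right (hav n) (by positivity)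
      _ = _ := by
          rw [hq, div_pow, pow_succ]
          field_simp
          ring
  have hfin := limit_arg (tt k) (fun n => (Module.finrank ℂ (PP k n) : ℝ))
    (fun n => (Module.finrank ℂ (GU (Sc k) n) : ℝ)) (fun n => ((av s n * k ^ 2 : ℕ) : ℝ)) htpos
    tt_sq_le ?_ ?_ ?_ ?_ ?_ ?_
  · obtain ⟨⟨l, hl1, hl2, hl3⟩, hne⟩ := hfin
    have hl : l = 1 / (k : ℝ) ^ 2 := limit_value (by linarith) htpos hl1 hl2 tt_succ_le
      fun r hr0 hr1 => tt_lower hr0 hr1
    rw [hl] at hl3
    exact ⟨hl3, hne⟩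
  · intro n
    rw [← finrank_EU_top, ← finrank_GU_top]
    exact_mod_cast Submodule.finrank_mono (GU_le ⊤)
  · intro n
    rw [← finrank_EU_top, ← finrank_GU_top]
    exact_mod_cast hs ⊤ good_top n
  · intro n
    rw [← finrank_EU_Sc hk0]
    exact_mod_cast Submodule.finrank_mono (GU_le (Sc k))
  · intro n
    rw [← finrank_EU_Sc hk0]
    exact_mod_cast hs (Sc k) (good_Sc hk0) n
  · refine squeeze_zero (fun n => div_nonneg (hA0 n) (htpos n).le) hb1 ?_
    simpa using haux.const_mul ((k : ℝ) ^ 2 / c)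
  · refine squeeze_zero (fun n => div_nonneg (hA0 n) (htpos _).le) hb2 ?_
    simpa using haux.const_mul ((k : ℝ) ^ 2 / c / r)

theorem main_value (F : Type*) [Field F] [CharZero F] (k : ℕ) (hk : 1 ≤ k) :
    Filter.Tendsto (fun n : ℕ =>
      (Module.finrank F (Submodule.span F (Set.range (fun σ : Equiv.Perm (Fin n) =>
          fun x : Fin n → Matrix (Fin k) (Fin k) F =>
            Submodule.mkQ (Subalgebra.toSubmodule (Subalgebra.center F (Matrix (Fin k) (Fin k) F)))
              (List.ofFn (fun i => x (σ i))).prod))) : ℝ) /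
      (Module.finrank F (Submodule.span F (Set.range (fun σ : Equiv.Perm (Fin n) =>
          fun x : Fin n → Matrix (Fin k) (Fin k) F =>
            (List.ofFn (fun i => x (σ i))).prod))) : ℝ))
      Filter.atTop (nhds (1 - 1 / (k : ℝ) ^ 2)) := by
  have hk0 : k ≠ 0 := by omega
  rcases Nat.lt_or_ge k 2 with h1 | h2
  · -- commutative case
    obtain rfl : k = 1 := by omega
    have hz : ∀ n, Module.finrank F (Submodule.span F (Set.range (fun σ : Equiv.Perm (Fin n) =>
        fun x : Fin n → Matrix (Fin 1) (Fin 1) F =>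
          Rank.LL F 1 (List.ofFn (fun i => x (σ i))).prod))) = 0 := by
      intro n
      have h3 : (fun σ : Equiv.Perm (Fin n) => fun x : Fin n → Matrix (Fin 1) (Fin 1) F =>
          Rank.LL F 1 (List.ofFn (fun i => x (σ i))).prod) = fun _ => 0 := by
        funext σ x
        rw [Rank.LL_apply]
        ext i j
        fin_cases i
        fin_cases j
        simp [Matrix.trace]
      rw [h3]
      have h4 : Submodule.span F (Set.range fun _ : Equiv.Perm (Fin n) =>
          (0 : (Fin n → Matrix (Fin 1) (Fin 1) F) → Matrix (Fin 1) (Fin 1) F)) = ⊥ := by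
        rw [Submodule.span_eq_bot]
        rintro _ ⟨_, rfl⟩
        rfl
      rw [h4, finrank_bot]
    have h0 : (1 : ℝ) - 1 / ((1 : ℕ) : ℝ) ^ 2 = 0 := by norm_num
    rw [h0]
    refine tendsto_const_nhds.congr fun n => ?_
    rw [Rank.quot_eq F 1 n one_ne_zero, hz]
    simp
  · obtain ⟨hl, hne⟩ := main_limit h2
    have key : ∀ n : ℕ,
        (Module.finrank F (Submodule.span F (Set.range (fun σ : Equiv.Perm (Fin n) =>
            fun x : Fin n → Matrix (Fin k) (Fin k) F =>
              Submodule.mkQ (Subalgebra.toSubmodule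
                (Subalgebra.center F (Matrix (Fin k) (Fin k) F)))
                (List.ofFn (fun i => x (σ i))).prod))) : ℝ) =
          (Module.finrank ℂ (PP k n) : ℝ) - (Module.finrank ℂ (GU (Sc k) n) : ℝ) := by
      intro n
      rw [Rank.quot_eq F k n hk0, Rank.num_eq F k n, ← Rank.num_eq ℂ k n,
        ← rank_nullity (k := k) (N := n) hk0]
      push_cast
      ring
    have key2 : ∀ n : ℕ,
        (Module.finrank F (Submodule.span F (Set.range (fun σ : Equiv.Perm (Fin n) =>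
            fun x : Fin n → Matrix (Fin k) (Fin k) F =>
              (List.ofFn (fun i => x (σ i))).prod))) : ℝ) = (Module.finrank ℂ (PP k n) : ℝ) := by
      intro n
      rw [Rank.den_eq F k n, ← Rank.den_eq ℂ k n]
      rfl
    have hlim : Tendsto (fun n : ℕ =>
        ((Module.finrank ℂ (PP k n) : ℝ) - (Module.finrank ℂ (GU (Sc k) n) : ℝ)) /
          (Module.finrank ℂ (PP k n) : ℝ)) atTop (𝓝 (1 - 1 / (k : ℝ) ^ 2)) := by
      refine (tendsto_const_nhds.sub hl).congr' ?_
      filter_upwards [hne] with n hn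
      rw [sub_div, div_self hn]
    refine hlim.congr fun n => ?_
    rw [key, key2]

theorem main (F : Type) [Field F] [CharZero F] (k : ℕ) (hk : 1 ≤ k) :
    ∃ α : ℝ, 0 ≤ α ∧ α ≤ 1 ∧
      Filter.Tendsto (fun n : ℕ =>
        (Module.finrank F (Submodule.span F (Set.range (fun σ : Equiv.Perm (Fin n) =>
            fun x : Fin n → Matrix (Fin k) (Fin k) F =>
              Submodule.mkQ (Subalgebra.toSubmodule (Subalgebra.center F (Matrix (Fin k) (Fin k) F)))
                (List.ofFn (fun i => x (σ i))).prod))) : ℝ) /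
        (Module.finrank F (Submodule.span F (Set.range (fun σ : Equiv.Perm (Fin n) =>
            fun x : Fin n → Matrix (Fin k) (Fin k) F =>
              (List.ofFn (fun i => x (σ i))).prod))) : ℝ))
        Filter.atTop (nhds α) := by
  refine ⟨1 - 1 / (k : ℝ) ^ 2, ?_, ?_, main_value F k hk⟩
  · have h1 : (1 : ℝ) ≤ (k : ℝ) ^ 2 := by
      have : (1 : ℝ) ≤ k := by exact_mod_cast hk
      nlinarith
    rw [sub_nonneg, div_le_one (by linarith)]
    exact h1
  · have h1 : (0 : ℝ) ≤ 1 / (k : ℝ) ^ 2 := by positivity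
    linarith

end Run7.h975.CC
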