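import Pool.Agent.Run7.h975.CC.Haar
import Pool.Agent.Run7.h975.CC.Cap
import Pool.Agent.Run7.h975.CC.Count

/-!
# Reduction of words
-/

set_option autoImplicit false
set_option linter.unusedSectionVars false

namespace Run7.h975.CC

open Matrix Finset

variable {k : ℕ}

section mono

variable {ι : Type} [Fintype ι] [DecidableEq ι]

/-- multilinear monomials in the matrix entries -/
noncomputable def mn (w : ι → Fin k × Fin k) : MS k ι :=
  (MultilinearMap.mkPiAlgebra ℂ ι ℂ).compLinearMap
    (fun m => Matrix.entryLinearMap ℂ ℂ (w m).1 (w m).2)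

lemma mn_apply (w : ι → Fin k × Fin k) (x : ι → Mk k) :
    mn w x = ∏ m, x m (w m).1 (w m).2 := by
  simp [mn, Matrix.entryLinearMap]

/-- monomials with a matrix coefficient -/
noncomputable def mo (w : ι → Fin k × Fin k) (B : Mk k) : ML k ι := (mn w).smulRight B

lemma mo_apply (w : ι → Fin k × Fin k) (B : Mk k) (x : ι → Mk k) :
    mo w B x = (∏ m, x m (w m).1 (w m).2) • B := by
  rw [mo, MultilinearMap.smulRight_apply, mn_apply]

lemma ml_eq_sum (f : ML k ι) : f = ∑ w : ι → Fin k × Fin k,
    mo w (f fun m => Matrix.single (w m).1 (w m).2 1) := by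
  refine MultilinearMap.ext fun x => ?_
  rw [ml_expand f x, _root_.sum_apply]
  exact Finset.sum_congr rfl fun w _ => (mo_apply _ _ _).symm

/-- matrix units indexed by words -/
def mu' (w : ι → Fin k × Fin k) : ι → Mk k := fun m => Matrix.single (w m).1 (w m).2 1

end mono

/-- spaces of matrices that contain averages -/
structure Good (U : Submodule ℂ (Mk k)) : Prop where
  conj : ∀ u ∈ unitaryGroup (Fin k) ℂ, ∀ B ∈ U, u * B * star u ∈ U
  int : ∀ F : UG k → Mk k, (∀ u, F u ∈ U) → mint F ∈ U

lemma good_top : Good (⊤ : Submodule ℂ (Mk k)) :=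
  ⟨fun _ _ _ _ => Submodule.mem_top, fun _ _ => Submodule.mem_top⟩

/-- scalar matrices -/
def Sc (k : ℕ) : Submodule ℂ (Mk k) := Submodule.span ℂ {1}

lemma mem_Sc {A : Mk k} : A ∈ Sc k ↔ ∃ c : ℂ, c • (1 : Mk k) = A := by
  rw [Sc, Submodule.mem_span_singleton]

lemma good_Sc (hk : k ≠ 0) : Good (Sc k) := by
  constructor
  · intro u hu B hB
    obtain ⟨c, rfl⟩ := mem_Sc.1 hB
    rw [mul_smul_comm, smul_mul_assoc, mul_one, Matrix.mem_unitaryGroup_iff.1 hu]
    exact hB
  · intro F hF
    have : NeZero k := ⟨hk⟩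
    choose c hc using fun u => mem_Sc.1 (hF u)
    refine mem_Sc.2 ⟨∫ u, c u ∂(mu k), ?_⟩
    ext i j
    rw [mint, Matrix.smul_apply, smul_eq_mul, ← MeasureTheory.integral_mul_const]
    congr 1
    funext u
    rw [← hc u, Matrix.smul_apply, smul_eq_mul]

variable {m : ℕ}

/-- equivariant multilinear functions with values in `U` -/
def EU (U : Submodule ℂ (Mk k)) (N : ℕ) : Submodule ℂ (ML k (Fin N)) where
  carrier := {f | Equi (f : Fn k (Fin N)) ∧ ∀ x, f x ∈ U}
  add_mem' := by
    rintro f g ⟨hf, hf'⟩ ⟨hg, hg'⟩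
    refine ⟨fun u hu x => ?_, fun x => U.add_mem (hf' x) (hg' x)⟩
    have h1 := hf u hu x
    have h2 := hg u hu x
    rw [_root_.add_apply, _root_.add_apply, h1, h2, mul_add, add_mul]
  zero_mem' := ⟨fun u hu x => by simp, fun x => U.zero_mem⟩
  smul_mem' := by
    rintro c f ⟨hf, hf'⟩
    refine ⟨fun u hu x => ?_, fun x => U.smul_mem c (hf' x)⟩
    have h1 := hf u hu x
    rw [_root_.smul_apply, _root_.smul_apply, h1, mul_smul_comm, smul_mul_assoc]

/-- multilinear polynomial functions with values in `U` -/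
def GU (U : Submodule ℂ (Mk k)) (N : ℕ) : Submodule ℂ (ML k (Fin N)) where
  carrier := {f | (f : Fn k (Fin N)) ∈ PP k N ∧ ∀ x, f x ∈ U}
  add_mem' := by
    rintro f g ⟨hf, hf'⟩ ⟨hg, hg'⟩
    exact ⟨(PP k N).add_mem hf hg, fun x => U.add_mem (hf' x) (hg' x)⟩
  zero_mem' := ⟨(PP k N).zero_mem, fun x => U.zero_mem⟩
  smul_mem' := by
    rintro c f ⟨hf, hf'⟩
    exact ⟨(PP k N).smul_mem c hf, fun x => U.smul_mem c (hf' x)⟩

section key

variable {N : ℕ} (p : Fin m → Fin N) (hp : Function.Injective p)

lemma prod_split (hp : Function.Injective p) (F : Fin N → ℂ) :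
    ∏ i, F i = (∏ j, F (p j)) * ∏ i : {i // ¬ i ∈ Set.range p}, F i := by
  classical
  rw [← Fintype.prod_subtype_mul_prod_subtype (fun i => i ∈ Set.range p) F]
  congr 1
  rw [Fintype.prod_equiv (Equiv.ofInjective p hp) (fun j => F (p j))
    (fun i : Set.range p => F i) fun j => rfl]
  exact Finset.prod_congr (by ext; simp) fun _ _ => rfl

lemma ext_sum (hp : Function.Injective p) (Q : MS k (Fin m)) (w : Fin N → Fin k × Fin k)
    (B : Mk k) (x : Fin N → Mk k) :
    (∑ v : Fin m → Fin k × Fin k, Q (mu' v) • mo (Function.extend p v w) B) x =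
      Q (fun j => x (p j)) •
        mo (fun i : {i // ¬ i ∈ Set.range p} => w i) B (fun i => x i) := by
  classical
  rw [_root_.sum_apply, mo_apply, ml_expand Q, Finset.sum_smul]
  refine Finset.sum_congr rfl fun v _ => ?_
  rw [_root_.smul_apply, mo_apply, prod_split p hp, smul_smul, smul_smul]
  congr 1
  have h1 : ∀ j, Function.extend p v w (p j) = v j := fun j => hp.extend_apply _ _ _
  have h2 : ∀ i : {i // ¬ i ∈ Set.range p}, Function.extend p v w i = w i := by
    intro i
    exact Function.extend_apply' _ _ _ i.2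
  simp only [h1, h2, smul_eq_mul]
  change Q (mu' v) * (_ * _) = _ * Q (mu' v) * _
  ring

lemma avg_ext (hp : Function.Injective p) (Q : MS k (Fin m))
    (hQ : ∀ u ∈ unitaryGroup (Fin k) ℂ, ∀ v, Q (fun i => u * v i * star u) = Q v)
    (w : Fin N → Fin k × Fin k) (B : Mk k) (x : Fin N → Mk k) :
    avg (∑ v : Fin m → Fin k × Fin k, Q (mu' v) • mo (Function.extend p v w) B) x =
      Q (fun j => x (p j)) •
        avg (mo (fun i : {i // ¬ i ∈ Set.range p} => w i) B) (fun i => x i) := by
  rw [avg_apply, avg_apply, ← mint_smul]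
  congr 1
  funext u
  rw [ext_sum p hp, mul_smul_comm, smul_mul_assoc]
  congr 1
  have h := hQ (star (u : Mk k)) (star u).2 (fun j => x (p j))
  rw [star_star] at h
  exact h

lemma avg_ext_mem (hp : Function.Injective p) (Q : MS k (Fin m))
    (hQ : ∀ u ∈ unitaryGroup (Fin k) ℂ, ∀ v, Q (fun i => u * v i * star u) = Q v)
    (hQ2 : ∀ (κ : Type) (a : Fin m → Fn k κ), (∀ j, a j ∈ RR k κ) → ∀ e ∈ EE k κ,
      (fun v => Q (fun j => a j v) • e v) ∈ RR k κ)
    (w : Fin N → Fin k × Fin k) (B : Mk k) :
    (avg (∑ v : Fin m → Fin k × Fin k, Q (mu' v) • mo (Function.extend p v w) B) :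
      Fn k (Fin N)) ∈ PP k N := by
  apply mem_PP
  have h1 := hQ2 (Fin N) (fun j => co (p j)) (fun j => co_mem _)
    (fun x => avg (mo (fun i : {i // ¬ i ∈ Set.range p} => w i) B) (fun i => co (i : Fin N) x))
    (EE_subst (FFT _ (avg_equi _)) fun i => co_mem _)
  convert h1 using 1
  funext x
  exact avg_ext p hp Q hQ w B x

end key

section main

variable {N : ℕ}

/-- the span of the averages of the words without a given subsequence -/
noncomputable def SU (U : Submodule ℂ (Mk k)) (N : ℕ) (w0 : Fin m → Fin k × Fin k) :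
    Submodule ℂ (ML k (Fin N)) :=
  Submodule.span ℂ (Set.range fun q : {w : Fin N → Fin k × Fin k //
      ¬ (List.ofFn w0).Sublist (List.ofFn w)} × Fin (Module.finrank ℂ U) =>
    avg (mo q.1.1 (Module.finBasis ℂ U q.2 : Mk k)))

lemma finrank_SU (U : Submodule ℂ (Mk k)) (w0 : Fin m → Fin k × Fin k) :
    Module.finrank ℂ (SU U N w0) ≤ av (List.ofFn w0) N * k ^ 2 := by
  classical
  refine (finrank_range_le_card _).trans ?_
  rw [Fintype.card_prod, Fintype.card_fin, av, ← Fintype.card_subtype]
  refine Nat.mul_le_mul_left _ ?_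
  refine (Submodule.finrank_le U).trans ?_
  rw [Module.finrank_matrix]
  simp [pow_two]

lemma avg_mem (U : Submodule ℂ (Mk k)) (hU : Good U) {f : ML k (Fin N)} (hf : ∀ x, f x ∈ U)
    (x : Fin N → Mk k) : avg f x ∈ U :=
  hU.int _ fun u => hU.conj _ u.2 _ (hf _)

lemma mo_mem (U : Submodule ℂ (Mk k)) {w : Fin N → Fin k × Fin k} {B : Mk k} (hB : B ∈ U)
    (x : Fin N → Mk k) : mo w B x ∈ U := by
  rw [mo_apply]
  exact U.smul_mem _ hB

lemma mo_add (w : Fin N → Fin k × Fin k) (A B : Mk k) : mo w (A + B) = mo w A + mo w B := by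
  refine MultilinearMap.ext fun x => ?_
  rw [_root_.add_apply, mo_apply, mo_apply, mo_apply, smul_add]

lemma mo_smul (w : Fin N → Fin k × Fin k) (c : ℂ) (B : Mk k) : mo w (c • B) = c • mo w B := by
  refine MultilinearMap.ext fun x => ?_
  rw [_root_.smul_apply, mo_apply, mo_apply, smul_comm]

/-- averages of monomials as a linear map in the coefficient -/
noncomputable def am (w : Fin N → Fin k × Fin k) : Mk k →ₗ[ℂ] ML k (Fin N) where
  toFun B := avg (mo w B)
  map_add' A B := by rw [mo_add, avg_add]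
  map_smul' c B := by rw [mo_smul, avg_smul, RingHom.id_apply]

lemma mem_SU (U : Submodule ℂ (Mk k)) (w0 : Fin m → Fin k × Fin k) (w : Fin N → Fin k × Fin k)
    (hw : ¬ (List.ofFn w0).Sublist (List.ofFn w)) {B : Mk k} (hB : B ∈ U) :
    avg (mo w B) ∈ SU U N w0 := by
  have h1 := (Module.finBasis ℂ U).sum_repr ⟨B, hB⟩
  have h2 : B = ∑ i, (Module.finBasis ℂ U).repr ⟨B, hB⟩ i • (Module.finBasis ℂ U i : Mk k) := by
    have h3 := congrArg (fun z : U => (z : Mk k)) h1
    simp only [Submodule.coe_sum, Submodule.coe_smul] at h3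
    exact h3.symm
  change am w B ∈ _
  rw [h2, map_sum]
  refine Submodule.sum_mem _ fun i _ => ?_
  rw [map_smul]
  exact Submodule.smul_mem _ _ (Submodule.subset_span ⟨(⟨w, hw⟩, i), rfl⟩)

lemma lt_of_extend {D : ℕ} (e : Fin k × Fin k ≃ Fin D) (p : Fin m ↪o Fin N)
    (v w0 : Fin m → Fin k × Fin k) (w : Fin N → Fin k × Fin k) (hw : ∀ i, w (p i) = w0 i)
    (hv : toLex (fun i => e (v i)) < toLex (fun i => e (w0 i))) :
    toLex (fun i => e (Function.extend p v w i)) < toLex (fun i => e (w i)) := by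
  obtain ⟨i, hi1, hi2⟩ := hv
  refine ⟨p i, fun j hj => ?_, ?_⟩
  · by_cases hjr : ∃ a, p a = j
    · obtain ⟨a, rfl⟩ := hjr
      change e (Function.extend p v w (p a)) = e (w (p a))
      rw [p.injective.extend_apply, hw]
      exact hi1 a (p.lt_iff_lt.1 hj)
    · change e (Function.extend p v w j) = e (w j)
      rw [Function.extend_apply' _ _ _ hjr]
  · change e (Function.extend p v w (p i)) < e (w (p i))
    rw [p.injective.extend_apply, hw]
    exact hi2

theorem reduce (hk : k ≠ 0) : ∃ (m : ℕ) (w0 : Fin m → Fin k × Fin k),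
    ∀ (U : Submodule ℂ (Mk k)), Good U → ∀ N : ℕ, EU U N ≤ GU U N ⊔ SU U N w0 := by
  classical
  obtain ⟨m, Q, hQ0, hQ1, hQ2⟩ := conductor hk
  let e : Fin k × Fin k ≃ Fin (k * k) := finProdFinEquiv
  let key : ∀ {M : ℕ}, (Fin M → Fin k × Fin k) → Lex (Fin M → Fin (k * k)) :=
    fun w => toLex (fun i => e (w i))
  have hne : (univ.filter fun v : Fin m → Fin k × Fin k => Q (mu' v) ≠ 0).Nonempty := by
    by_contra hcon
    rw [Finset.not_nonempty_iff_eq_empty, Finset.filter_eq_empty_iff] at hcon
    apply hQ0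
    refine MultilinearMap.ext fun x => ?_
    rw [ml_expand Q x]
    refine Finset.sum_eq_zero fun v _ => ?_
    have h7 := hcon (Finset.mem_univ v)
    rw [not_not] at h7
    have h8 : (Q fun m => Matrix.single (v m).1 (v m).2 1) = 0 := h7
    rw [h8, smul_zero]
  obtain ⟨w0, hw0, hmax⟩ := Finset.exists_max_image _ (fun v => key v) hne
  have hw0' : Q (mu' w0) ≠ 0 := (Finset.mem_filter.1 hw0).2
  refine ⟨m, w0, fun U hU N => ?_⟩
  have main : ∀ (w : Fin N → Fin k × Fin k) (B : Mk k), B ∈ U →
      avg (mo w B) ∈ GU U N ⊔ SU U N w0 := by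
    intro w
    induction hkw : key w using WellFoundedLT.induction generalizing w with
    | ind z ih =>
      intro B hB
      by_cases hsub : (List.ofFn w0).Sublist (List.ofFn w)
      · obtain ⟨p, hp⟩ := exists_emb w0 w hsub
        have h1 : avg (∑ v : Fin m → Fin k × Fin k, Q (mu' v) • mo (Function.extend p v w) B) ∈
            GU U N ⊔ SU U N w0 := by
          refine Submodule.mem_sup_left ⟨avg_ext_mem p p.injective Q hQ1 hQ2 w B, ?_⟩
          refine avg_mem U hU fun x => ?_
          rw [_root_.sum_apply]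
          refine U.sum_mem fun v _ => ?_
          rw [_root_.smul_apply]
          exact U.smul_mem _ (mo_mem U hB x)
        have h2 : avg (∑ v : Fin m → Fin k × Fin k, Q (mu' v) • mo (Function.extend p v w) B) =
            ∑ v : Fin m → Fin k × Fin k, Q (mu' v) • avg (mo (Function.extend p v w) B) := by
          change avgL _ = _
          rw [map_sum]
          exact Finset.sum_congr rfl fun v _ => map_smul avgL _ _
        have h3 : Function.extend p w0 w = w := by
          funext i
          by_cases hi : ∃ a, p a = i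
          · obtain ⟨a, rfl⟩ := hi
            rw [p.injective.extend_apply, hp]
          · rw [Function.extend_apply' _ _ _ hi]
        rw [h2, ← Finset.add_sum_erase _ _ (Finset.mem_univ w0), h3] at h1
        have h4 : ∑ v ∈ univ.erase w0, Q (mu' v) • avg (mo (Function.extend p v w) B) ∈
            GU U N ⊔ SU U N w0 := by
          refine Submodule.sum_mem _ fun v hv => ?_
          by_cases hqv : Q (mu' v) = 0
          · rw [hqv, zero_smul]
            exact Submodule.zero_mem _
          · refine Submodule.smul_mem _ _ ?_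
            have hle := hmax v (Finset.mem_filter.2 ⟨Finset.mem_univ _, hqv⟩)
            have hlt : key v < key w0 := by
              refine lt_of_le_of_ne hle fun heq => ?_
              apply Finset.ne_of_mem_erase hv
              have h5 : (fun i => e (v i)) = fun i => e (w0 i) := toLex_inj.1 heq
              funext i
              exact e.injective (congrFun h5 i)
            have hlt2 := lt_of_extend e p v w0 w hp hlt
            exact ih (key (Function.extend p v w)) (by rw [← hkw]; exact hlt2) _ rfl B hB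
        have h5 := Submodule.sub_mem _ h1 h4
        rw [add_sub_cancel_right] at h5
        have h6 := Submodule.smul_mem _ (Q (mu' w0))⁻¹ h5
        rwa [smul_smul, inv_mul_cancel₀ hw0', one_smul] at h6
      · exact Submodule.mem_sup_right (mem_SU U w0 w hsub hB)
  intro f hf
  have h1 : f = ∑ w : Fin N → Fin k × Fin k,
      avg (mo w (f fun m => Matrix.single (w m).1 (w m).2 1)) := by
    conv_lhs => rw [← avg_of_equi hf.1, ml_eq_sum f]
    change avgL _ = _
    rw [map_sum]
    rfl
  rw [h1]
  exact Submodule.sum_mem _ fun w _ => main w _ (hf.2 _)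

theorem finrank_EU_le (hk : k ≠ 0) : ∃ s : List (Fin k × Fin k),
    ∀ (U : Submodule ℂ (Mk k)), Good U → ∀ N : ℕ,
      Module.finrank ℂ (EU U N) ≤ Module.finrank ℂ (GU U N) + av s N * k ^ 2 := by
  obtain ⟨m, w0, h⟩ := reduce hk
  refine ⟨List.ofFn w0, fun U hU N => ?_⟩
  calc Module.finrank ℂ (EU U N) ≤ Module.finrank ℂ ↥(GU U N ⊔ SU U N w0) :=
        Submodule.finrank_mono (h U hU N)
    _ ≤ Module.finrank ℂ (GU U N) + Module.finrank ℂ (SU U N w0) :=
        Submodule.finrank_add_le_finrank_add_finrank _ _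
    _ ≤ _ := Nat.add_le_add_left (finrank_SU U w0) _

end main

end Run7.h975.CC
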