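import Pool.Agent.Run7.h975.CC.Defs

/-!
# Polynomial and trace functions: closure properties, multilinear elements
-/

set_option autoImplicit false

namespace Run7.h975.CC

open Matrix

variable {k : ℕ} {ι κ : Type}

lemma co_mem (i : ι) : (co i : Fn k ι) ∈ RR k ι := Algebra.subset_adjoin ⟨i, rfl⟩

/-- substitution in polynomial functions -/
lemma RR_subst {f : Fn k ι} (hf : f ∈ RR k ι) {g : ι → Fn k κ} (hg : ∀ i, g i ∈ RR k κ) :
    (fun x => f (fun i => g i x)) ∈ RR k κ := by
  induction hf using Algebra.adjoin_induction with
  | mem f hf =>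
    obtain ⟨i, rfl⟩ := hf
    exact hg i
  | algebraMap r => exact (RR k κ).algebraMap_mem r
  | add f f' _ _ h h' => exact (RR k κ).add_mem h h'
  | mul f f' _ _ h h' => exact (RR k κ).mul_mem h h'

/-- substitution in trace functions -/
lemma TT_subst {f : (ι → Mk k) → ℂ} (hf : f ∈ TT k ι) {g : ι → Fn k κ}
    (hg : ∀ i, g i ∈ RR k κ) : (fun x => f (fun i => g i x)) ∈ TT k κ := by
  induction hf using Algebra.adjoin_induction with
  | mem f hf =>
    obtain ⟨w, hw, rfl⟩ := hf
    exact Algebra.subset_adjoin ⟨_, RR_subst hw hg, rfl⟩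
  | algebraMap r => exact (TT k κ).algebraMap_mem r
  | add f f' _ _ h h' => exact (TT k κ).add_mem h h'
  | mul f f' _ _ h h' => exact (TT k κ).mul_mem h h'

/-- substitution in mixed trace functions -/
lemma EE_subst {f : Fn k ι} (hf : f ∈ EE k ι) {g : ι → Fn k κ} (hg : ∀ i, g i ∈ RR k κ) :
    (fun x => f (fun i => g i x)) ∈ EE k κ := by
  induction hf using Submodule.span_induction with
  | mem f hf =>
    obtain ⟨s, hs, w, hw, rfl⟩ := hf
    exact Submodule.subset_span ⟨_, TT_subst hs hg, _, RR_subst hw hg, rfl⟩
  | zero => exact (EE k κ).zero_mem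
  | add f f' _ _ h h' => exact (EE k κ).add_mem h h'
  | smul c f _ h => exact (EE k κ).smul_mem c h

lemma EE_of {s : (ι → Mk k) → ℂ} (hs : s ∈ TT k ι) {w : Fn k ι} (hw : w ∈ RR k ι) :
    (fun x => s x • w x) ∈ EE k ι := Submodule.subset_span ⟨s, hs, w, hw, rfl⟩

lemma RR_le_EE {w : Fn k ι} (hw : w ∈ RR k ι) : w ∈ EE k ι := by
  have h := EE_of (TT k ι).one_mem hw
  simpa using h

lemma EE_mul {e f : Fn k ι} (he : e ∈ EE k ι) (hf : f ∈ EE k ι) : e * f ∈ EE k ι := by
  induction he using Submodule.span_induction with
  | mem e he =>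
    obtain ⟨s, hs, w, hw, rfl⟩ := he
    induction hf using Submodule.span_induction with
    | mem f hf =>
      obtain ⟨s', hs', w', hw', rfl⟩ := hf
      have h := EE_of ((TT k ι).mul_mem hs hs') ((RR k ι).mul_mem hw hw')
      convert h using 1
      funext x
      simp [smul_smul, mul_comm]
    | zero => rw [mul_zero]; exact (EE k ι).zero_mem
    | add f f' _ _ h h' => rw [mul_add]; exact (EE k ι).add_mem h h'
    | smul c f _ h => rw [mul_smul_comm]; exact (EE k ι).smul_mem c h
  | zero => rw [zero_mul]; exact (EE k ι).zero_mem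
  | add f f' _ _ h h' => rw [add_mul]; exact (EE k ι).add_mem h h'
  | smul c f _ h => rw [smul_mul_assoc]; exact (EE k ι).smul_mem c h

lemma trace_mem {e : Fn k ι} (he : e ∈ EE k ι) : (fun x => (e x).trace) ∈ TT k ι := by
  induction he using Submodule.span_induction with
  | mem e he =>
    obtain ⟨s, hs, w, hw, rfl⟩ := he
    have h : (fun x => (w x).trace) ∈ TT k ι := Algebra.subset_adjoin ⟨w, hw, rfl⟩
    have h' := (TT k ι).mul_mem hs h
    convert h' using 1
    funext x
    simp
  | zero =>
    have := (TT k ι).zero_mem
    convert this using 1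
    funext x
    simp
  | add f f' _ _ h h' =>
    have := (TT k ι).add_mem h h'
    convert this using 1
    funext x
    simp
  | smul c f _ h =>
    have := (TT k ι).smul_mem h c
    convert this using 1
    funext x
    simp

lemma EE_smul {s : (ι → Mk k) → ℂ} (hs : s ∈ TT k ι) {e : Fn k ι} (he : e ∈ EE k ι) :
    (fun x => s x • e x) ∈ EE k ι := by
  have h := EE_mul (EE_of hs (RR k ι).one_mem) he
  convert h using 1
  funext x
  simp

/-- words -/
def word (k : ℕ) (l : List ι) : Fn k ι := fun x => (l.map x).prod

lemma RR_le_span {f : Fn k ι} (hf : f ∈ RR k ι) :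
    f ∈ Submodule.span ℂ (Set.range (word k : List ι → Fn k ι)) := by
  induction hf using Algebra.adjoin_induction with
  | mem f hf =>
    obtain ⟨i, rfl⟩ := hf
    refine Submodule.subset_span ⟨[i], ?_⟩
    funext x
    simp [word, co]
  | algebraMap r =>
    rw [Algebra.algebraMap_eq_smul_one]
    refine Submodule.smul_mem _ _ (Submodule.subset_span ⟨[], ?_⟩)
    funext x
    simp [word]
  | add f f' _ _ h h' => exact Submodule.add_mem _ h h'
  | mul f f' _ _ h h' =>
    have h1 := Submodule.mul_mem_mul h h'
    rw [Submodule.span_mul_span] at h1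
    refine Submodule.span_mono ?_ h1
    rintro _ ⟨_, ⟨l, rfl⟩, _, ⟨l', rfl⟩, rfl⟩
    refine ⟨l ++ l', ?_⟩
    funext x
    simp [word]

lemma word_smul (l : List ι) (t : ι → ℂ) (x : ι → Mk k) :
    word k l (fun i => t i • x i) = (l.map t).prod • word k l x := by
  induction l with
  | nil => simp [word]
  | cons i l ih =>
    simp only [word, List.map_cons, List.prod_cons] at ih ⊢
    rw [ih, smul_mul_smul_comm]

lemma word_poly [DecidableEq ι] (l : List ι) :
    ((l.map MvPolynomial.X).prod : MvPolynomial ι ℂ) =
      MvPolynomial.monomial (Multiset.toFinsupp (l : Multiset ι)) 1 := by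
  induction l with
  | nil => simp
  | cons i l ih =>
    rw [List.map_cons, List.prod_cons, ih, ← Multiset.cons_coe, ← Multiset.singleton_add, map_add,
      Multiset.toFinsupp_singleton, MvPolynomial.X, MvPolynomial.monomial_mul, one_mul]

/-- a multilinear polynomial function is a combination of multilinear monomials -/
theorem mem_PP {n : ℕ} (f : ML k (Fin n)) (hf : (f : Fn k (Fin n)) ∈ RR k (Fin n)) :
    (f : Fn k (Fin n)) ∈ PP k n := by
  classical
  obtain ⟨c, hc⟩ := Finsupp.mem_span_range_iff_exists_finsupp.1 (RR_le_span hf)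
  have hfx : ∀ x, f x = ∑ l ∈ c.support, c l • word k l x := by
    intro x
    have h := congrFun hc x
    rw [Finsupp.sum, Finset.sum_apply] at h
    simpa using h.symm
  let m1 : Fin n →₀ ℕ := Finsupp.equivFunOnFinite.symm fun _ => 1
  have key : ∀ x, f x = ∑ l ∈ c.support,
      if Multiset.toFinsupp (l : Multiset (Fin n)) = m1 then c l • word k l x else 0 := by
    intro x
    ext a b
    have hp : (∑ l ∈ c.support, MvPolynomial.C (c l * word k l x a b) *
        (l.map MvPolynomial.X).prod : MvPolynomial (Fin n) ℂ) =
        MvPolynomial.C (f x a b) * ∏ i, MvPolynomial.X i := by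
      apply MvPolynomial.funext
      intro t
      rw [map_sum, map_mul, map_prod]
      simp only [map_mul, MvPolynomial.eval_C, MvPolynomial.eval_X, map_list_prod, List.map_map]
      have h1 : f (fun i => t i • x i) a b = (∏ i, t i) * f x a b := by
        rw [MultilinearMap.map_smul_univ, Matrix.smul_apply, smul_eq_mul]
      rw [hfx] at h1
      rw [mul_comm, ← h1, Matrix.sum_apply]
      refine Finset.sum_congr rfl fun l _ => ?_
      rw [word_smul, Matrix.smul_apply, Matrix.smul_apply, smul_eq_mul, smul_eq_mul]
      have h2 : (List.map ((⇑(MvPolynomial.eval t)) ∘ MvPolynomial.X) l).prod = (l.map t).prod := by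
        congr 2
        funext i
        simp
      rw [h2]
      ring
    have h3 := congrArg (MvPolynomial.coeff m1) hp
    rw [MvPolynomial.coeff_C_mul] at h3
    have h4 : (∏ i, MvPolynomial.X i : MvPolynomial (Fin n) ℂ) = MvPolynomial.monomial m1 1 := by
      have h5 := word_poly (List.ofFn (fun i : Fin n => i))
      rw [List.map_ofFn, List.prod_ofFn] at h5
      simp only [Function.comp_def] at h5
      rw [h5]
      congr 2
      ext i
      simp only [m1, Multiset.toFinsupp_apply, Multiset.coe_count, Finsupp.equivFunOnFinite_symm_apply_apply]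
      rw [List.count_eq_one_of_mem]
      · exact List.nodup_ofFn.2 fun a b h => h
      · simp
    rw [h4, MvPolynomial.coeff_monomial, if_pos rfl, mul_one] at h3
    rw [← h3, MvPolynomial.coeff_sum, Matrix.sum_apply]
    refine Finset.sum_congr rfl fun l _ => ?_
    rw [MvPolynomial.coeff_C_mul, word_poly, MvPolynomial.coeff_monomial]
    split_ifs <;> simp
  have hfun : (f : Fn k (Fin n)) = ∑ l ∈ c.support,
      if Multiset.toFinsupp (l : Multiset (Fin n)) = m1 then c l • word k l else 0 := by
    funext x
    rw [key x, Finset.sum_apply]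
    refine Finset.sum_congr rfl fun l _ => ?_
    split_ifs <;> rfl
  rw [hfun]
  refine Submodule.sum_mem _ fun l _ => ?_
  split_ifs with hl
  · refine Submodule.smul_mem _ _ ?_
    have hcount : ∀ i, l.count i = 1 := by
      intro i
      have h := DFunLike.congr_fun hl i
      simpa [m1] using h
    have hnd : l.Nodup := List.nodup_iff_count_le_one.2 fun i => (hcount i).le
    have hlen : l.length = n := by
      have h1 : l.toFinset = Finset.univ := by
        ext i
        simp only [List.mem_toFinset, Finset.mem_univ, iff_true]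
        rw [← List.count_pos_iff, hcount i]
        exact one_pos
      have h2 := List.toFinset_card_of_nodup hnd
      rw [h1, Finset.card_univ, Fintype.card_fin] at h2
      exact h2.symm
    let g : Fin n → Fin n := fun i => l.get (Fin.cast hlen.symm i)
    have hg : Function.Injective g := fun a b h => by
      have := (List.nodup_iff_injective_get.1 hnd) h
      exact Fin.cast_injective _ this
    have hl2 : l = List.ofFn g := by
      apply List.ext_get
      · simp [hlen]
      · intro i h1 h2
        simp [g]
    refine Submodule.subset_span ⟨Equiv.ofBijective g (Finite.injective_iff_bijective.1 hg), ?_⟩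
    funext x
    simp only [Equiv.ofBijective_apply, word]
    conv_rhs => rw [hl2, List.map_ofFn]
    rfl
  · exact Submodule.zero_mem _

end Run7.h975.CC
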